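import Pool.Agent.Lib.MP_d237f6_co.Seven

/-! Discharging and the edge count of a minimal stress. -/

set_option autoImplicit false

namespace Pool.Agent.Dress

open Matrix Module

variable {K : Type} [Field K] [CharZero K] {V : Type} [DecidableEq V] [Fintype V]

theorem Ctx.deg_sum (c : Ctx V K) :
    6 * (Finset.univ.filter (fun u => (c.N u).Nonempty)).card ≤ ∑ u, (c.N u).card := by
  classical
  set F : V → Prop := fun u => (c.N u).card = 5 with hF
  set H : V → Prop := fun u => 7 ≤ (c.N u).card with hH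
  have dc : ∑ u, (if F u then ((c.N u).filter H).card else 0)
      = ∑ u, (if H u then ((c.N u).filter F).card else 0) := by
    have e : ∀ (P Q : V → Prop) [DecidablePred P] [DecidablePred Q],
        ∑ u, (if P u then ((c.N u).filter Q).card else 0)
          = ∑ u, ∑ j, if P u ∧ Q j ∧ j ∈ c.N u then 1 else 0 := by
      intro P Q _ _
      refine Finset.sum_congr rfl fun u _ => ?_
      by_cases h : P u
      · simp only [h, if_true, true_and, Finset.sum_boole, Nat.cast_id]
        congr 1
        ext j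
        simp [and_comm]
      · simp [h]
    rw [e, e, Finset.sum_comm]
    refine Finset.sum_congr rfl fun u _ => Finset.sum_congr rfl fun j _ => ?_
    refine if_congr ⟨fun h => ⟨h.2.1, h.1, c.nsymm h.2.2⟩, fun h => ⟨h.2.1, h.1, c.nsymm h.2.2⟩⟩
      rfl rfl
  have loc : ∀ u, (if (c.N u).Nonempty then 24 else 0)
      + (if H u then ((c.N u).filter F).card else 0)
      ≤ 4 * (c.N u).card + (if F u then ((c.N u).filter H).card else 0) := by
    intro u
    by_cases hu : (c.N u).Nonempty
    · have h5 := c.deg_ge hu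
      rw [if_pos hu]
      by_cases h1 : F u
      · have := Ctx.few (T := c.N u) H (fun b hb b' hb' hne => by
          have k1 := c.deg_ge ⟨u, c.nsymm hb⟩
          have k2 := c.deg_ge ⟨u, c.nsymm hb'⟩
          have k3 := c.lemA h1 hb
          have k4 := c.lemA h1 hb'
          by_contra hc
          simp only [hH, not_or, not_le] at hc
          exact hne (Ctx.one_six h1 hb hb' (by omega) (by omega)))
        rw [if_pos h1, if_neg (by simp only [hH, hF] at h1 ⊢; omega)]
        simp only [hF] at h1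
        omega
      · rw [if_neg h1]
        by_cases h2 : H u
        · rw [if_pos h2]
          have k1 := Finset.card_filter_le (c.N u) F
          by_cases h7 : (c.N u).card = 7
          · have : ((c.N u).filter F).card ≤ 4 := Ctx.four_five h7
            omega
          · simp only [hH] at h2
            omega
        · rw [if_neg h2]
          simp only [hF] at h1
          omega
    · rw [Finset.not_nonempty_iff_eq_empty] at hu
      simp [hu]
  have := Finset.sum_le_sum (s := Finset.univ) (fun u _ => loc u)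
  rw [Finset.sum_add_distrib, Finset.sum_add_distrib, dc, ← Finset.mul_sum, ← Finset.sum_filter,
    Finset.sum_const, smul_eq_mul] at this
  omega

theorem Ctx.edge_count (c : Ctx V K) (i₀ j₀ : V) (h₀ : j₀ ∈ c.N i₀)
    (hmin : ∀ i j, j ∈ c.N i → ∀ Θ : V → V → K, (∀ a b, Θ a b = Θ b a) →
      (∀ a b, a ≠ b → Θ a b ≠ 0 → b ∈ c.N a) → (∀ a, ∑ b, Θ a b • c.p b = 0) → Θ i j = 0 →
      Θ = 0) :
    ∑ u, (c.N u).card < 6 * (Finset.univ.filter (fun u => (c.N u).Nonempty)).card := by
  classical
  set VC := Finset.univ.filter (fun u => (c.N u).Nonempty) with hVC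
  set f : V → ℕ := fun v => (Fintype.equivFin V v : ℕ) with hf
  have finj : ∀ a b, f a = f b → a = b := fun a b h =>
    (Fintype.equivFin V).injective (Fin.ext h)
  set E := Finset.univ.filter (fun ab : V × V => ab.2 ∈ c.N ab.1 ∧ f ab.1 < f ab.2) with hE
  have hD : ∑ u, (c.N u).card = 2 * E.card := by
    have e1 : ∑ u, (c.N u).card = (Finset.univ.filter (fun ab : V × V => ab.2 ∈ c.N ab.1)).card := by
      rw [Finset.card_filter, Fintype.sum_prod_type]
      refine Finset.sum_congr rfl fun u _ => ?_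
      simp
    have e2 := Finset.card_filter_add_card_filter_not
      (s := Finset.univ.filter (fun ab : V × V => ab.2 ∈ c.N ab.1)) (fun ab => f ab.1 < f ab.2)
    rw [Finset.filter_filter, Finset.filter_filter] at e2
    have e3 : (Finset.univ.filter (fun ab : V × V => ab.2 ∈ c.N ab.1 ∧ ¬ f ab.1 < f ab.2)).card
        = E.card := by
      refine Finset.card_bij (fun ab _ => ab.swap) (fun ab hab => ?_) (fun a _ b _ h =>
        Prod.swap_injective h) (fun ab hab => ⟨ab.swap, ?_, rfl⟩)
      · simp only [hE, Finset.mem_filter, Finset.mem_univ, true_and, Prod.fst_swap,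
          Prod.snd_swap] at hab ⊢
        have : f ab.2 ≠ f ab.1 := fun h => c.ne_of hab.1 (finj _ _ h)
        exact ⟨c.nsymm hab.1, by omega⟩
      · simp only [hE, Finset.mem_filter, Finset.mem_univ, true_and, Prod.fst_swap,
          Prod.snd_swap] at hab ⊢
        exact ⟨c.nsymm hab.1, by omega⟩
    rw [e1, ← e2, e3]
    ring
  obtain ⟨e₀, he₀⟩ : E.Nonempty := by
    have : f j₀ ≠ f i₀ := fun h => c.ne_of h₀ (finj _ _ h)
    by_cases h : f i₀ < f j₀
    · exact ⟨(i₀, j₀), by simp [hE, h₀, h]⟩
    · exact ⟨(j₀, i₀), by simp only [hE, Finset.mem_filter, Finset.mem_univ, true_and]; exact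
        ⟨c.nsymm h₀, by omega⟩⟩
  set I := E.erase e₀ ∪ VC.image (fun a => (a, a)) with hI
  have cI : I.card + 1 = E.card + VC.card := by
    rw [hI, Finset.card_union_of_disjoint, Finset.card_erase_of_mem he₀,
      Finset.card_image_of_injective _ (fun a b h => (Prod.ext_iff.1 h).1)]
    · have := Finset.card_pos.2 ⟨e₀, he₀⟩
      omega
    · rw [Finset.disjoint_left]
      intro ab h1 h2
      obtain ⟨a, -, rfl⟩ := Finset.mem_image.1 h2
      simpa [hE] using Finset.mem_of_mem_erase h1
  have mI : ∀ ab ∈ I, (ab.1 ∈ VC ∧ ab.2 ∈ VC) ∧ f ab.1 ≤ f ab.2 ∧ ab ≠ e₀ ∧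
      (ab.1 ≠ ab.2 → ab.2 ∈ c.N ab.1) := by
    intro ab hab
    rcases Finset.mem_union.1 hab with h | h
    · have h1 := Finset.mem_of_mem_erase h
      simp only [hE, Finset.mem_filter, Finset.mem_univ, true_and] at h1
      refine ⟨⟨by simpa [hVC] using ⟨_, h1.1⟩, by simpa [hVC] using ⟨_, c.nsymm h1.1⟩⟩, h1.2.le,
        Finset.ne_of_mem_erase h, fun _ => h1.1⟩
    · obtain ⟨a, ha, rfl⟩ := Finset.mem_image.1 h
      refine ⟨⟨ha, ha⟩, le_rfl, fun e => ?_, fun e => absurd rfl e⟩
      simp [hE, ← e] at he₀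
  by_contra hlt
  obtain ⟨lam, hlam0, hlam⟩ := dep2 (K := K) (X := VC → Vec K) (ι := I) (κ := Fin 2)
    (fun ab u => (if (u : V) = ab.1.1 then c.p ab.1.2 else 0)
      + (if (u : V) = ab.1.2 then c.p ab.1.1 else 0))
    (by
      rw [Fintype.linearIndependent_iff]
      intro θ hθ
      set θ' : V × V → K := fun ab => if h : ab ∈ I then θ ⟨ab, h⟩ else 0 with hθ'
      have z' : ∀ ab, θ' ab ≠ 0 → ab ∈ I := fun ab h => by
        by_contra hn
        exact h (dif_neg hn)
      have he₀' := he₀
      simp only [hE, Finset.mem_filter, Finset.mem_univ, true_and] at he₀'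
      have := hmin e₀.1 e₀.2 he₀'.1 (fun a b => θ' (a, b) + θ' (b, a))
        (fun a b => add_comm _ _) (fun a b hne h => by
          by_cases h1 : θ' (a, b) = 0
          · rw [h1, zero_add] at h
            exact c.nsymm ((mI _ (z' _ h)).2.2.2 hne.symm)
          · exact (mI _ (z' _ h1)).2.2.2 hne) (fun a => by
          by_cases ha : a ∈ VC
          · have h1 := congrFun hθ ⟨a, ha⟩
            simp only [Finset.sum_apply, Pi.smul_apply, Pi.zero_apply] at h1
            have h2 : ∑ ab : V × V, θ' ab • ((if a = ab.1 then c.p ab.2 else 0)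
                + (if a = ab.2 then c.p ab.1 else 0)) = 0 := by
              refine Eq.trans ?_ h1
              rw [← Finset.sum_subset (Finset.subset_univ I) (fun ab _ hab => by
                simp only [hθ', dif_neg hab, zero_smul]), ← Finset.sum_coe_sort I]
              exact Finset.sum_congr rfl fun ab _ => by simp only [hθ', dif_pos ab.2]
            simp only [smul_add, Finset.sum_add_distrib, smul_ite, smul_zero] at h2
            rw [Fintype.sum_prod_type, Fintype.sum_prod_type_right] at h2
            simp only [Finset.sum_ite_irrel, Finset.sum_const_zero, Finset.sum_ite_eq,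
              Finset.mem_univ, if_true] at h2
            simp only [add_smul, Finset.sum_add_distrib]
            exact h2
          · refine Finset.sum_eq_zero fun b _ => ?_
            have k1 : θ' (a, b) = 0 := by
              by_contra h; exact ha (mI _ (z' _ h)).1.1
            have k2 : θ' (b, a) = 0 := by
              by_contra h; exact ha (mI _ (z' _ h)).1.2
            rw [k1, k2, add_zero, zero_smul]) (by
          have k1 : θ' (e₀.1, e₀.2) = 0 := by
            by_contra h; exact (mI _ (z' _ h)).2.2.1 rfl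
          have k2 : θ' (e₀.2, e₀.1) = 0 := by
            by_contra h
            have := (mI _ (z' _ h)).2.1
            simp only at this
            omega
          simp only [k1, k2, add_zero])
      intro ab
      have h1 := congrFun (congrFun this ab.1.1) ab.1.2
      have h2 : θ' ab.1 = θ ab := dif_pos ab.2
      simp only [Prod.mk.eta, Pi.zero_apply, h2] at h1
      by_cases h3 : θ' (ab.1.2, ab.1.1) = 0
      · rwa [h3, add_zero] at h1
      · have k1 := (mI _ (z' _ h3)).2.1
        have k2 := (mI _ ab.2).2.1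
        have k3 : ab.1.1 = ab.1.2 := finj _ _ (le_antisymm k2 k1)
        have k4 : (ab.1.2, ab.1.1) = ab.1 := Prod.ext k3.symm k3
        rw [k4, h2] at h1
        linear_combination h1 / 2)
    ![fun L => ∑ u : VC, (L u 0 * c.p u 1 - L u 1 * c.p u 0),
      fun L => ∑ u : VC, (L u 2 * c.p u 3 - L u 3 * c.p u 2)]
    (by
      intro j
      fin_cases j <;> refine ⟨fun x y => ?_, fun t x => ?_⟩
      all_goals
        simp only [Fin.zero_eta, Fin.mk_one, Matrix.cons_val, Pi.add_apply, Pi.smul_apply,
          smul_eq_mul, Finset.mul_sum, ← Finset.sum_add_distrib]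
        exact Finset.sum_congr rfl fun _ _ => by ring)
    (by
      intro j ab
      have key : ∀ k l : Fin 4, ∑ u : VC, (((if (u : V) = ab.1.1 then c.p ab.1.2 else 0)
          + (if (u : V) = ab.1.2 then c.p ab.1.1 else 0)) k * c.p u l)
          = c.p ab.1.2 k * c.p ab.1.1 l + c.p ab.1.1 k * c.p ab.1.2 l := by
        intro k l
        rw [Finset.sum_coe_sort VC (fun u => ((if u = ab.1.1 then c.p ab.1.2 else 0)
          + (if u = ab.1.2 then c.p ab.1.1 else 0)) k * c.p u l)]
        simp only [Pi.add_apply, ite_apply, Pi.zero_apply, add_mul, ite_mul, zero_mul,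
          Finset.sum_add_distrib, Finset.sum_ite_eq', (mI _ ab.2).1.1, (mI _ ab.2).1.2, if_true]
      fin_cases j
      all_goals
        simp only [Fin.zero_eta, Fin.mk_one, Matrix.cons_val, Finset.sum_sub_distrib, key]
        ring)
    (by
      simp only [finrank_pi_fintype, finrank_self, Finset.sum_const, Finset.card_univ,
        Fintype.card_fin, Fintype.card_coe, smul_eq_mul]
      omega)
  have hi₀ : i₀ ∈ VC := by simpa [hVC] using ⟨_, h₀⟩
  apply hlam0
  ext j
  have k1 := hlam (Pi.single ⟨i₀, hi₀⟩ (Pi.single 0 1))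
  have k2 := hlam (Pi.single ⟨i₀, hi₀⟩ (Pi.single 2 1))
  simp only [Fin.sum_univ_two, Matrix.cons_val] at k1 k2
  rw [Finset.sum_eq_single ⟨i₀, hi₀⟩ (fun u _ h => by simp [h]) (by simp),
    Finset.sum_eq_single ⟨i₀, hi₀⟩ (fun u _ h => by simp [h]) (by simp)] at k1 k2
  fin_cases j
  · simpa [c.coord_ne] using k1
  · simpa [c.coord_ne] using k2

/-- a graph of girth at least five with a flex moving all non-edges has no stress -/
theorem no_stress (g : Gen V K) (G : SimpleGraph V)
    (h3 : ∀ a b c, G.Adj a b → G.Adj a c → ¬ G.Adj b c)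
    (h4 : ∀ a b c d, G.Adj a b → G.Adj b c → G.Adj c d → G.Adj d a → a = c ∨ b = d)
    (φ : V → Vec K) (hφ : ∀ i j, G.Adj i j ∨ i = j → g.ell φ i j = 0)
    (hun : ∀ i j, i ≠ j → ¬ G.Adj i j → g.ell φ i j ≠ 0)
    (Ω : V → V → K) (hs : ∀ a b, Ω a b = Ω b a) (hG : ∀ a b, a ≠ b → Ω a b ≠ 0 → G.Adj a b)
    (hr : ∀ a, ∑ b, Ω a b • g.p b = 0) : Ω = 0 := by
  classical
  by_contra hΩ
  let sp : (V → V → K) → Finset (V × V) := fun Θ =>
    Finset.univ.filter (fun ab => ab.2 ≠ ab.1 ∧ Θ ab.1 ab.2 ≠ 0)
  obtain ⟨Θ, ⟨k0, k1, k2, k3⟩, hm⟩ := (measure (fun Θ => (sp Θ).card)).wf.has_min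
    {Θ | Θ ≠ 0 ∧ (∀ a b, Θ a b = Θ b a) ∧ (∀ a b, a ≠ b → Θ a b ≠ 0 → G.Adj a b) ∧
      ∀ a, ∑ b, Θ a b • g.p b = 0} ⟨Ω, hΩ, hs, hG, hr⟩
  let N : V → Finset V := fun u => Finset.univ.filter (fun j => j ≠ u ∧ Θ u j ≠ 0)
  have hN : ∀ u j, j ∈ N u ↔ j ≠ u ∧ Θ u j ≠ 0 := fun u j => by simp [N]
  have adj : ∀ u j, j ∈ N u → G.Adj u j := fun u j h =>
    k2 u j ((hN u j).1 h).1.symm ((hN u j).1 h).2
  let c : Ctx V K :=
    { toGen := g, Ω := Θ, N := N, hN := hN, symm := k1, row := k3, φ0 := φ
      flex0 := fun i j h => hφ i j (h.imp_left (adj i j))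
      no3 := fun a b c h1 h2 h => h3 a b c (adj _ _ h1) (adj _ _ h2) (adj _ _ h)
      no4 := fun a b c d h1 h2 h3 h => h4 a b c d (adj _ _ h1) (adj _ _ h2) (adj _ _ h3)
        (adj _ _ h)
      un2 := fun u a b h1 h2 hne => hun a b hne (h3 u a b (adj _ _ h1) (adj _ _ h2))
      un3 := fun w a v b h1 h2 h5 n1 n2 => hun w b (fun e => h3 a w v (adj _ _ h1)
          (adj _ _ h2).symm (e ▸ (adj _ _ h5).symm))
        (fun e => (h4 w a v b (adj _ _ h1).symm (adj _ _ h2).symm (adj _ _ h5) e.symm).elim n1 n2) }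
  obtain ⟨i₀, j₀, h₀⟩ : ∃ i j, j ∈ N i := by
    by_contra hc
    push Not at hc
    apply k0
    ext a b
    have z : ∀ a b, b ≠ a → Θ a b = 0 := fun a b h => by
      by_contra h'
      exact hc a b ((hN a b).2 ⟨h, h'⟩)
    by_cases h : b = a
    · have := congrFun (k3 a) 0
      rw [Finset.sum_eq_single a (fun b _ hb => by rw [z a b hb, zero_smul]) (by simp)] at this
      simpa [h, g.coord_ne] using this
    · exact z a b h
  have e1 := c.deg_sum
  have e2 := c.edge_count i₀ j₀ h₀ (fun i j hij Θ' s1 s2 s3 s4 => by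
    by_contra hne
    refine hm Θ' ⟨hne, s1, fun a b n h => adj a b (s2 a b n h), s3⟩ ?_
    apply Finset.card_lt_card
    rw [Finset.ssubset_iff_of_subset]
    · exact ⟨(i, j), by simpa [sp] using (hN i j).1 hij, by simp [sp, s4]⟩
    · intro ab hab
      simp only [sp, Finset.mem_filter, Finset.mem_univ, true_and] at hab ⊢
      exact (hN _ _).1 (s2 _ _ hab.1.symm hab.2))
  omega

end Pool.Agent.Dress
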