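import Pool.Agent.Lib.MP_d237f6_co.Count

/-! Transfer to generic real frameworks in three-space. -/

set_option autoImplicit false

namespace Pool.Agent.Dress

open Matrix Module MvPolynomial

theorem exists_ext_der {R K : Type} [CommRing R] [IsDomain R] [Field K] [Algebra R K]
    [IsFractionRing R K] (D : R → K) (hadd : ∀ a b, D (a + b) = D a + D b)
    (hmul : ∀ a b, D (a * b) = algebraMap R K a * D b + algebraMap R K b * D a) :
    ∃ δ : Der K, ∀ r, δ (algebraMap R K r) = D r := by
  have h0 : D 0 = 0 := by simpa using hadd 0 0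
  have h1 : D 1 = 0 := by simpa using hmul 1 1
  let g : R →+* TrivSqZeroExt K K :=
    { toFun := fun r => TrivSqZeroExt.inl (algebraMap R K r) + TrivSqZeroExt.inr (D r)
      map_one' := by simp [h1]
      map_mul' := fun a b => by ext <;> simp [hmul, mul_comm]
      map_zero' := by simp [h0]
      map_add' := fun a b => by ext <;> simp [hadd] }
  have hg : ∀ y : nonZeroDivisors R, IsUnit (g y) := fun y => by
    rw [TrivSqZeroExt.isUnit_iff_isUnit_fst]
    simp [g]
  let L : K →+* TrivSqZeroExt K K := IsLocalization.lift hg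
  have hL : ∀ r, L (algebraMap R K r) = g r := IsLocalization.lift_eq hg
  have hf : ∀ x, (L x).fst = x := by
    have : (TrivSqZeroExt.fstHom K K K).toRingHom.comp L = RingHom.id K :=
      IsLocalization.ringHom_ext (nonZeroDivisors R) (by ext r; simp [hL, g])
    exact fun x => RingHom.congr_fun this x
  refine ⟨Derivation.mk' (AddMonoidHom.toIntLinearMap
    { toFun := fun x => (L x).snd, map_zero' := by simp, map_add' := fun a b => by simp })
    (fun a b => ?_), fun r => ?_⟩
  · show (L (a * b)).snd = a * (L b).snd + b * (L a).snd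
    rw [map_mul, TrivSqZeroExt.snd_mul, hf, hf, smul_eq_mul, MulOpposite.smul_eq_mul_unop,
      MulOpposite.unop_op, mul_comm (L a).snd]
  · show (L (algebraMap R K r)).snd = D r
    rw [hL]
    simp [g]

variable {V : Type} [DecidableEq V] [Fintype V]

/-- a row of the rigidity matrix -/
def row {F : Type} [Field F] (X : V → Fin 3 → F) (a b : V) : V × Fin 3 → F := fun x =>
  (if x.1 = a then X a x.2 - X b x.2 else 0) + (if x.1 = b then X b x.2 - X a x.2 else 0)

omit [Fintype V] in
theorem row_comm {F : Type} [Field F] (X : V → Fin 3 → F) (a b : V) : row X a b = row X b a := by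
  ext x; simp only [row]; ring

theorem dot_row {F : Type} [Field F] (X : V → Fin 3 → F) (u : V × Fin 3 → F) (a b : V) :
    u ⬝ᵥ row X a b = ∑ k, (u (a, k) - u (b, k)) * (X a k - X b k) := by
  simp only [dotProduct, row, mul_add, Finset.sum_add_distrib, Fintype.sum_prod_type, mul_ite,
    mul_zero]
  rw [Finset.sum_comm, Finset.sum_comm (s := (Finset.univ : Finset V))]
  simp only [Finset.sum_ite_eq', Finset.mem_univ, if_true, ← Finset.sum_add_distrib]
  exact Finset.sum_congr rfl fun k _ => by ring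

theorem row_eq {F : Type} [Field F] (X : V → Fin 3 → F) (a b : V) (h : a ≠ b) (i : V)
    (k : Fin 3) : row X a b (i, k) = ∑ j, if s(i, j) = s(a, b) then X i k - X j k else 0 := by
  by_cases h1 : i = a
  · subst h1
    rw [Finset.sum_eq_single b (fun j _ hj => by simp [hj, h]) (by simp)]
    simp [row, h]
  by_cases h2 : i = b
  · subst h2
    rw [Finset.sum_eq_single a (fun j _ hj => by simp [hj, h1]) (by simp)]
    simp [row, h1]
  · rw [Finset.sum_eq_zero (fun j _ => by simp [h1, h2])]
    simp [row, h1, h2]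

abbrev K3 (V : Type) := FractionRing (MvPolynomial (V × Fin 3) ℚ)
abbrev K4 (V : Type) := FractionRing (MvPolynomial (V × Fin 4) ℚ)

noncomputable def x3 (V : Type) : V → Fin 3 → K3 V :=
  fun i k => algebraMap (MvPolynomial (V × Fin 3) ℚ) _ (X (i, k))
noncomputable def x4 (V : Type) : V → Fin 4 → K4 V :=
  fun i k => algebraMap (MvPolynomial (V × Fin 4) ℚ) _ (X (i, k))

omit [DecidableEq V] [Fintype V] in
theorem x4_ne (i : V) (k : Fin 4) : x4 V i k ≠ 0 := by
  simp [x4]

omit [Fintype V] in
theorem exists_gen : ∃ g : Gen V (K4 V), ∀ j,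
    g.p j = x4 V j 0 • vecCons 1 (fun k => x4 V j k.succ) := by
  have hex : ∀ (u : V) (k : Fin 4), ∃ δ : Der (K4 V), ∀ j l, δ (x4 V j l) = if j = u then
      (vecCons ((Pi.single k 1 : Vec (K4 V)) 0) (fun l' : Fin 3 =>
        ((Pi.single k 1 : Vec (K4 V)) l'.succ - (Pi.single k 1 : Vec (K4 V)) 0 * x4 V j l'.succ)
          / x4 V j 0) : Vec (K4 V)) l else 0 := by
    intro u k
    let D := mkDerivation ℚ (fun jl : V × Fin 4 => if jl.1 = u then
      (vecCons ((Pi.single k 1 : Vec (K4 V)) 0) (fun l' : Fin 3 =>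
        ((Pi.single k 1 : Vec (K4 V)) l'.succ
          - (Pi.single k 1 : Vec (K4 V)) 0 * x4 V jl.1 l'.succ) / x4 V jl.1 0) : Vec (K4 V)) jl.2
      else 0)
    obtain ⟨δ, hδ⟩ := exists_ext_der (R := MvPolynomial (V × Fin 4) ℚ) (K := K4 V) D
      (fun a b => map_add D a b) (fun a b => by rw [D.leibniz, Algebra.smul_def, Algebra.smul_def])
    exact ⟨δ, fun j l => by rw [x4, hδ, mkDerivation_X]⟩
  choose d hd using hex
  refine ⟨⟨fun j => x4 V j 0 • vecCons 1 (fun k => x4 V j k.succ), d, fun u k j => ?_⟩,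
    fun _ => rfl⟩
  ext l
  have := x4_ne j 0
  by_cases h : j = u
  · refine Fin.cases ?_ (fun l => ?_) l
    · simp [dv, hd, h]
    · simp only [dv, Pi.smul_apply, cons_val_succ, smul_eq_mul, d_mul, hd, h, if_true,
        cons_val_zero]
      rw [h] at this
      field_simp
      ring
  · refine Fin.cases ?_ (fun l => ?_) l <;> simp [dv, hd, h]

omit [DecidableEq V] [Fintype V] in
theorem exists_emb : ∃ ι : K3 V →+* K4 V, ∀ i k, ι (x3 V i k) = x4 V i k.succ := by
  have hinj : Function.Injective ((algebraMap (MvPolynomial (V × Fin 4) ℚ) (K4 V)).comp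
      (rename (fun ik : V × Fin 3 => (ik.1, ik.2.succ))).toRingHom) :=
    (IsFractionRing.injective (MvPolynomial (V × Fin 4) ℚ) (K4 V)).comp
      (rename_injective (fun ik : V × Fin 3 => (ik.1, ik.2.succ)) (fun a b h => by
        simp only [Prod.mk.injEq, Fin.succ_inj] at h
        exact Prod.ext h.1 h.2))
  exact ⟨IsFractionRing.lift hinj, fun i k => by simp [x3, x4]⟩

omit [DecidableEq V] [Fintype V] in
theorem exists_real (p : V → Fin 3 → ℝ)
    (hp : AlgebraicIndependent ℚ (fun i : V × Fin 3 => p i.1 i.2)) :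
    ∃ ι : K3 V →+* ℝ, ∀ i k, ι (x3 V i k) = p i k := by
  have hinj : Function.Injective
      (aeval (R := ℚ) (fun i : V × Fin 3 => p i.1 i.2)).toRingHom := hp
  exact ⟨IsFractionRing.lift hinj, fun i k => by simp [x3]⟩

theorem indep3 (G : SimpleGraph V)
    (h3 : ∀ a b c, G.Adj a b → G.Adj a c → ¬ G.Adj b c)
    (h4 : ∀ a b c d, G.Adj a b → G.Adj b c → G.Adj c d → G.Adj d a → a = c ∨ b = d)
    (hcl : ∀ a b, a ≠ b → ¬ G.Adj a b → row (x3 V) a b ∉
      Submodule.span (K3 V) {f | ∃ a b, G.Adj a b ∧ f = row (x3 V) a b}) :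
    LinearIndependent (K3 V) (fun e : G.edgeSet =>
      Sym2.lift ⟨row (x3 V), row_comm (x3 V)⟩ e.1) := by
  classical
  obtain ⟨u, hu1, hu2⟩ : ∃ u : V × Fin 3 → K3 V, (∀ a b, G.Adj a b → u ⬝ᵥ row (x3 V) a b = 0) ∧
      ∀ a b, a ≠ b → ¬ G.Adj a b → u ⬝ᵥ row (x3 V) a b ≠ 0 := by
    let W : Submodule (K3 V) (V × Fin 3 → K3 V) :=
      { carrier := {u | ∀ a b, G.Adj a b → u ⬝ᵥ row (x3 V) a b = 0}
        add_mem' := fun hu hv a b h => by rw [add_dotProduct, hu a b h, hv a b h, add_zero]
        zero_mem' := fun a b _ => zero_dotProduct _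
        smul_mem' := fun r u hu a b h => by rw [smul_dotProduct, hu a b h, smul_zero] }
    let L : V × V → W →ₗ[K3 V] K3 V := fun ab =>
      { toFun := fun u => u.1 ⬝ᵥ row (x3 V) ab.1 ab.2
        map_add' := fun a b => add_dotProduct _ _ _
        map_smul' := fun r a => smul_dotProduct _ _ _ }
    by_contra hc
    push Not at hc
    obtain ⟨⟨⟨a, b⟩, hab⟩, ht⟩ := Subspace.exists_eq_top_of_iUnion_eq_univ
      (p := fun ab : {ab : V × V // ab.1 ≠ ab.2 ∧ ¬ G.Adj ab.1 ab.2} => LinearMap.ker (L ab.1))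
      (by
        rw [Set.eq_univ_iff_forall]
        intro u
        obtain ⟨a, b, h1, h2, h⟩ := hc u.1 u.2
        exact Set.mem_iUnion.2 ⟨⟨(a, b), h1, h2⟩, h⟩)
    obtain ⟨f, hf1, hf2⟩ := Submodule.exists_le_ker_of_notMem (hcl a b hab.1 hab.2)
    have hf : ∀ x, f x = (fun i => f (Pi.single i 1)) ⬝ᵥ x := by
      intro x
      rw [LinearMap.pi_apply_eq_sum_univ, dotProduct]
      refine Finset.sum_congr rfl fun i _ => ?_
      have : (fun j => if i = j then (1 : K3 V) else 0) = Pi.single i 1 := by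
        ext j; simp [Pi.single_apply, eq_comm]
      rw [this, smul_eq_mul, mul_comm]
    have hm : (fun i => f (Pi.single i 1)) ∈ W := fun a b h => by
      rw [← hf]
      exact hf2 (Submodule.subset_span ⟨a, b, h, rfl⟩)
    have : (⟨_, hm⟩ : W) ∈ LinearMap.ker (L (a, b)) := by
      have ht' : LinearMap.ker (L (a, b)) = ⊤ := ht
      rw [ht']; trivial
    exact hf1 ((hf _).trans this)
  obtain ⟨g, hg⟩ := exists_gen (V := V)
  obtain ⟨ι, hι⟩ := exists_emb (V := V)
  set T : V → K4 V := fun j => x4 V j 0 with hT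
  have hT0 : ∀ j, T j ≠ 0 := fun j => x4_ne j 0
  let φ : V → Vec (K4 V) := fun j => T j • vecCons (-∑ k, ι (u (j, k)) * x4 V j k.succ)
    (fun k => ι (u (j, k)))
  have hφ : ∀ i j, g.ell φ i j = -(T i * T j) * ι (u ⬝ᵥ row (x3 V) i j) := by
    intro i j
    rw [dot_row]
    simp only [Gen.ell, hg, φ, map_sum, map_mul, map_sub, hι, smul_dotProduct,
      dotProduct_smul, smul_eq_mul, cons_dotProduct_cons, hT]
    simp only [dotProduct, Fin.sum_univ_three]
    ring
  rw [Fintype.linearIndependent_iff]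
  intro ω hω
  let ω' : V → V → K3 V := fun i j => if h : G.Adj i j then ω ⟨s(i, j), h⟩ else 0
  have hsym : ∀ i j, ω' i j = ω' j i := by
    intro i j
    by_cases h : G.Adj i j
    · simp only [ω', dif_pos h, dif_pos h.symm, Sym2.eq_swap]
    · simp only [ω', dif_neg h, dif_neg (fun h' : G.Adj j i => h h'.symm)]
  have hrow : ∀ i k, ∑ j, ω' i j * (x3 V i k - x3 V j k) = 0 := by
    intro i k
    have h1 := congrFun hω (i, k)
    rw [Finset.sum_apply, Finset.sum_congr rfl (g := fun e : G.edgeSet => ∑ j,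
      if s(i, j) = e.1 then ω e * (x3 V i k - x3 V j k) else 0) (by
        rintro ⟨e, he⟩ -
        induction e using Sym2.ind with
        | _ a b =>
          simp only [Pi.smul_apply, Sym2.lift_mk, smul_eq_mul, row_eq _ a b (G.ne_of_adj he),
            Finset.mul_sum, mul_ite, mul_zero]), Finset.sum_comm] at h1
    rw [← show _ = (0 : K3 V) from h1]
    refine Finset.sum_congr rfl fun j _ => ?_
    by_cases h : G.Adj i j
    · rw [Finset.sum_eq_single ⟨s(i, j), h⟩ (fun e _ he => if_neg fun h' => he (Subtype.ext h'.symm))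
        (by simp)]
      simp [ω', h]
    · rw [Finset.sum_eq_zero (fun e _ => if_neg fun h' => h (by
        have := e.2
        rwa [← h'] at this))]
      simp [ω', h]
  have hdiag : ∀ i, ω' i i = 0 := fun i => dif_neg G.irrefl
  have := no_stress g G h3 h4 φ (fun i j h => by
      rcases h with h | h
      · rw [hφ, hu1 i j h, map_zero, mul_zero]
      · rw [hφ, dot_row, h]; simp)
    (fun i j h1 h2 => by
      rw [hφ]
      exact mul_ne_zero (neg_ne_zero.2 (mul_ne_zero (hT0 i) (hT0 j)))
        ((map_ne_zero ι).2 (hu2 i j h1 h2)))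
    (fun i j => ι (ω' i j) / (T i * T j) - if i = j then (∑ l, ι (ω' i l)) / (T i * T j) else 0)
    (fun a b => by
      by_cases h : a = b
      · rw [h]
      · rw [if_neg h, if_neg (Ne.symm h), hsym, mul_comm])
    (fun a b h1 h2 => by
      by_contra h
      simp [ω', h, h1] at h2)
    (fun a => by
      simp only [sub_smul, Finset.sum_sub_distrib, ite_smul, zero_smul, Finset.sum_ite_eq,
        Finset.mem_univ, if_true]
      simp only [hg, smul_smul]
      rw [Finset.sum_congr rfl (g := fun b => (ι (ω' a b) / T a) •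
        (vecCons 1 (fun k => x4 V b k.succ) : Vec (K4 V))) (fun b _ => by
          congr 1
          have := hT0 b
          change _ * T b = _
          field_simp)]
      have e : (∑ l, ι (ω' a l)) / (T a * T a) * x4 V a 0 = ∑ l, ι (ω' a l) / T a := by
        have := hT0 a
        rw [← Finset.sum_div]
        change _ * T a = _
        field_simp
      rw [e]
      ext k
      refine Fin.cases ?_ (fun k => ?_) k
      · simp [Finset.sum_apply]
      · have h1 := congrArg ι (hrow a k)
        simp only [map_sum, map_mul, map_sub, hι, map_zero, mul_sub, Finset.sum_sub_distrib] at h1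
        simp only [Pi.sub_apply, Finset.sum_apply, Pi.smul_apply, cons_val_succ, smul_eq_mul,
          Pi.zero_apply, Finset.sum_mul, div_mul_eq_mul_div, ← Finset.sum_div]
        rw [← sub_div, ← neg_sub, h1, neg_zero, zero_div])
  rintro ⟨e, he⟩
  induction e using Sym2.ind with
  | _ a b =>
    have h1 := congrFun (congrFun this a) b
    have hab : G.Adj a b := he
    simp only [if_neg (G.ne_of_adj hab), sub_zero, Pi.zero_apply, div_eq_zero_iff, map_eq_zero,
      mul_eq_zero, hT0, or_false, ω', dif_pos hab] at h1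
    exact h1

theorem rank_eq (G : SimpleGraph V) [Fintype G.edgeSet] (p : V → Fin 3 → ℝ)
    (hp : AlgebraicIndependent ℚ (fun i : V × Fin 3 => p i.1 i.2))
    (h3 : ∀ a b c, G.Adj a b → G.Adj a c → ¬ G.Adj b c)
    (h4 : ∀ a b c d, G.Adj a b → G.Adj b c → G.Adj c d → G.Adj d a → a = c ∨ b = d)
    (hcl : ∀ a b, a ≠ b → ¬ G.Adj a b → row p a b ∉
      Submodule.span ℝ {f | ∃ a b, G.Adj a b ∧ f = row p a b}) :
    finrank ℝ (Submodule.span ℝ {f | ∃ a b, G.Adj a b ∧ f = row p a b})
      = G.edgeFinset.card := by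
  obtain ⟨ι, hι⟩ := exists_real p hp
  have hrow : ∀ a b, (fun x => ι (row (x3 V) a b x)) = row p a b := by
    intro a b
    ext x
    simp only [row, map_add, apply_ite ι, map_sub, hι, map_zero]
  have h1 := indep3 G h3 h4 (fun a b h h' hm => hcl a b h h' (by
    rw [← hrow]
    refine Submodule.span_induction (p := fun f _ => (fun x => ι (f x)) ∈
      Submodule.span ℝ {f | ∃ a b, G.Adj a b ∧ f = row p a b}) ?_ ?_ ?_ ?_ hm
    · rintro _ ⟨a, b, h, rfl⟩
      exact Submodule.subset_span ⟨a, b, h, hrow a b⟩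
    · simp only [Pi.zero_apply, map_zero]
      exact Submodule.zero_mem _
    · intro f g _ _ hf hg
      simp only [Pi.add_apply, map_add]
      exact Submodule.add_mem _ hf hg
    · intro r f _ hf
      simp only [Pi.smul_apply, smul_eq_mul, map_mul]
      exact Submodule.smul_mem _ (ι r) hf))
  let _ := ι.toAlgebra
  have h2 := (linearIndependent_algebraMap_comp_iff (S := ℝ)).2 h1
  have h3 : {f | ∃ a b, G.Adj a b ∧ f = row p a b} = Set.range (fun e : G.edgeSet =>
      algebraMap (K3 V) ℝ ∘ Sym2.lift ⟨row (x3 V), row_comm (x3 V)⟩ e.1) := by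
    ext f
    constructor
    · rintro ⟨a, b, h, rfl⟩
      exact ⟨⟨s(a, b), h⟩, hrow a b⟩
    · rintro ⟨⟨e, he⟩, rfl⟩
      induction e using Sym2.ind with
      | _ a b => exact ⟨a, b, he, hrow a b⟩
  rw [h3, finrank_span_eq_card h2, SimpleGraph.edgeFinset_card]

end Pool.Agent.Dress
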