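import Pool.Agent.Lib.MP_d237f6_co.Gen

/-! Stressed graphs with a generic flex: vertices of degree at most five. -/

set_option autoImplicit false

namespace Pool.Agent.Dress

open Matrix Module

variable {K : Type} [Field K] {V : Type} [DecidableEq V]

abbrev St (V K : Type) := (V → Vec K) × (V → Mat K)

def act (δ : Der K) (s : St V K) : St V K := (fun j => dv δ (s.1 j), fun v => dm δ (s.2 v))

def Gen.ell (g : Gen V K) (φ : V → Vec K) (i j : V) : K := φ i ⬝ᵥ g.p j + φ j ⬝ᵥ g.p i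

theorem Gen.ell_comm (g : Gen V K) (φ : V → Vec K) (i j : V) : g.ell φ i j = g.ell φ j i :=
  add_comm _ _

/-- a stress with support graph `N` of girth at least five and a flex moving all close pairs -/
structure Ctx (V K : Type) [Field K] [DecidableEq V] [Fintype V] extends Gen V K where
  Ω : V → V → K
  N : V → Finset V
  hN : ∀ u j, j ∈ N u ↔ j ≠ u ∧ Ω u j ≠ 0
  symm : ∀ i j, Ω i j = Ω j i
  row : ∀ i, ∑ j, Ω i j • p j = 0
  φ0 : V → Vec K
  flex0 : ∀ i j, (j ∈ N i ∨ i = j) → toGen.ell φ0 i j = 0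
  no3 : ∀ a b c, b ∈ N a → c ∈ N a → c ∉ N b
  no4 : ∀ a b c d, b ∈ N a → c ∈ N b → d ∈ N c → a ∈ N d → a = c ∨ b = d
  un2 : ∀ u a b, a ∈ N u → b ∈ N u → a ≠ b → toGen.ell φ0 a b ≠ 0
  un3 : ∀ w a v b, w ∈ N a → a ∈ N v → b ∈ N v → w ≠ v → a ≠ b → toGen.ell φ0 w b ≠ 0

variable [Fintype V] (c : Ctx V K)

namespace Ctx

theorem nsymm {u j : V} (h : j ∈ c.N u) : u ∈ c.N j := by
  rw [c.hN] at h ⊢
  exact ⟨h.1.symm, by rw [c.symm]; exact h.2⟩

theorem nirr (u : V) : u ∉ c.N u := by simp [c.hN]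

theorem ne_of {u j : V} (h : j ∈ c.N u) : j ≠ u := ((c.hN u j).1 h).1

theorem om_ne {u j : V} (h : j ∈ c.N u) : c.Ω u j ≠ 0 := ((c.hN u j).1 h).2

def Flex (R : Finset V) (φ : V → Vec K) : Prop :=
  ∀ i j, i ∉ R → j ∉ R → (j ∈ c.N i ∨ i = j) → c.ell φ i j = 0

theorem Flex.mono {c : Ctx V K} {R R' : Finset V} {φ : V → Vec K} (h : c.Flex R φ)
    (hR : R ⊆ R') : c.Flex R' φ :=
  fun i j hi hj => h i j (fun h => hi (hR h)) (fun h => hj (hR h))

theorem flex0' (R : Finset V) : c.Flex R c.φ0 := fun i j _ _ h => c.flex0 i j h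

def FS (R : Finset V) (Λ : V → V → Prop) : Submodule K (St V K) where
  carrier := {s | c.Flex R s.1 ∧ ∀ v b, Λ v b → s.1 b = c.p b ᵥ* s.2 v}
  add_mem' := fun {s t} hs ht => ⟨fun i j hi hj h => by
      have h1 := hs.1 i j hi hj h
      have h2 := ht.1 i j hi hj h
      simp only [Gen.ell, Prod.fst_add, Pi.add_apply, add_dotProduct] at h1 h2 ⊢
      linear_combination h1 + h2,
    fun v b h => by
      simp only [Prod.fst_add, Prod.snd_add, Pi.add_apply, vecMul_add, hs.2 v b h, ht.2 v b h]⟩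
  zero_mem' := ⟨fun i j _ _ _ => by simp [Gen.ell], fun v b _ => by simp⟩
  smul_mem' := fun r s hs => ⟨fun i j hi hj h => by
      have h1 := hs.1 i j hi hj h
      simp only [Gen.ell, Prod.smul_fst, Pi.smul_apply, smul_dotProduct, smul_eq_mul] at h1 ⊢
      linear_combination r * h1,
    fun v b h => by
      simp only [Prod.smul_fst, Prod.smul_snd, Pi.smul_apply, vecMul_smul, hs.2 v b h]⟩

theorem d_ell (δ : Der K) (φ : V → Vec K) (i j : V) :
    δ (c.ell φ i j) = c.ell (fun j => dv δ (φ j)) i j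
      + (φ i ⬝ᵥ dv δ (c.p j) + φ j ⬝ᵥ dv δ (c.p i)) := by
  simp only [Gen.ell, map_add, d_dot]; ring

theorem act_mem {R : Finset V} {Λ : V → V → Prop} (hΛ : ∀ v b, Λ v b → b ∉ R) {u : V}
    (hu : u ∈ R) (k : Fin 4) : ∀ s ∈ (c.FS R Λ : Set (St V K)), act (c.d u k) s ∈ c.FS R Λ := by
  intro s hs
  have hd : ∀ j, j ∉ R → dv (c.d u k) (c.p j) = 0 :=
    fun j hj => c.d_ne (fun h : j = u => hj (h ▸ hu)) k
  refine ⟨fun i j hi hj h => ?_, fun v b h => ?_⟩
  · have h1 := congrArg (c.d u k) (hs.1 i j hi hj h)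
    rw [c.d_ell, hd i hi, hd j hj, dotProduct_zero, dotProduct_zero, add_zero, add_zero,
      map_zero] at h1
    exact h1
  · show dv _ (s.1 b) = c.p b ᵥ* dm _ (s.2 v)
    rw [hs.2 v b h, dv_vecMul _ _ _ (hd b (hΛ v b h))]

theorem row_N (u : V) : ∑ j ∈ c.N u, c.Ω u j • c.p j + c.Ω u u • c.p u = 0 := by
  rw [← c.row u, add_comm, ← Finset.sum_insert (f := fun j => c.Ω u j • c.p j) (c.nirr u)]
  refine Finset.sum_subset (Finset.subset_univ _) fun j _ hj => ?_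
  rw [Finset.mem_insert, c.hN] at hj
  push Not at hj
  rw [hj.2 hj.1, zero_smul]

variable [CharZero K]

/-- the stress identity for a flex of the graph with an independent set removed -/
theorem star_id (U : Finset V) (hU : ∀ u ∈ U, ∀ j ∈ c.N u, j ∉ U) (φ : V → Vec K)
    (hφ : c.Flex U φ) : ∑ u ∈ U, ∑ j ∈ c.N u, c.Ω u j * (φ j ⬝ᵥ c.p u) = 0 := by
  have h1 : ∑ i ∈ Uᶜ, ∑ j, c.Ω i j * (φ i ⬝ᵥ c.p j) = 0 := by
    refine Finset.sum_eq_zero fun i _ => ?_
    have := congrArg (fun m => φ i ⬝ᵥ m) (c.row i)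
    simpa [dotProduct_sum] using this
  have h2 : ∑ i ∈ Uᶜ, ∑ j ∈ Uᶜ, c.Ω i j * (φ i ⬝ᵥ c.p j) = 0 := by
    have h3 : ∑ i ∈ Uᶜ, ∑ j ∈ Uᶜ, c.Ω i j * c.ell φ i j = 0 := by
      refine Finset.sum_eq_zero fun i hi => Finset.sum_eq_zero fun j hj => ?_
      by_cases h : j ∈ c.N i ∨ i = j
      · rw [hφ i j (Finset.mem_compl.1 hi) (Finset.mem_compl.1 hj) h, mul_zero]
      · rw [c.hN] at h
        push Not at h
        rw [h.1 (Ne.symm h.2), zero_mul]
    simp only [Gen.ell, mul_add, Finset.sum_add_distrib] at h3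
    rw [Finset.sum_comm (f := fun i j => c.Ω i j * (φ j ⬝ᵥ c.p i))] at h3
    simp only [c.symm _ _] at h3
    have h4 : ∑ i ∈ Uᶜ, ∑ j ∈ Uᶜ, c.Ω j i * (φ i ⬝ᵥ c.p j)
        = ∑ i ∈ Uᶜ, ∑ j ∈ Uᶜ, c.Ω i j * (φ i ⬝ᵥ c.p j) := by
      simp only [c.symm _ _]
    linear_combination h3 / 2
  simp only [← Finset.sum_add_sum_compl U, Finset.sum_add_distrib, h2, add_zero] at h1
  rw [Finset.sum_comm] at h1
  rw [← h1]
  refine Finset.sum_congr rfl fun u hu => ?_
  simp only [c.symm _ u]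
  refine Finset.sum_subset (fun j hj => Finset.mem_compl.2 (hU u hu j hj)) fun j hj hj' => ?_
  rw [c.hN] at hj'
  push Not at hj'
  rw [hj' (fun h => Finset.mem_compl.1 hj (h ▸ hu)), zero_mul]

omit [CharZero K] in
theorem star_lin {u a : V} (ha : a ∈ c.N u) (φ : V → Vec K) (B : Mat K)
    (h : ∀ b ∈ c.N u, b ≠ a → φ b = c.p b ᵥ* B) :
    ∑ j ∈ c.N u, c.Ω u j * (φ j ⬝ᵥ c.p u)
      = c.Ω u a * ((φ a - c.p a ᵥ* B) ⬝ᵥ c.p u) - c.Ω u u * bil B (c.p u) (c.p u) := by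
  have h1 := congrArg (fun m => bil B m (c.p u)) (c.row_N u)
  simp only [bil_add_left, bil_sum_left, bil_smul_left, bil_zero_left] at h1
  rw [← Finset.add_sum_erase _ _ ha] at h1 ⊢
  rw [Finset.sum_congr rfl (g := fun j => c.Ω u j * bil B (c.p j) (c.p u)) (fun j hj => by
    rw [h j (Finset.mem_of_mem_erase hj) (Finset.ne_of_mem_erase hj), bil_eq])]
  rw [sub_dotProduct, ← bil_eq]
  linear_combination h1

omit [CharZero K] in
theorem ext_v {v : V} (T : Finset V) (hT : 4 ≤ T.card) (φ : V → Vec K) (B : Mat K)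
    (hl : ∀ b ∈ T, φ b = c.p b ᵥ* B) (he : ∀ b ∈ T, c.ell φ v b = 0) :
    φ v = -(B *ᵥ c.p v) := by
  rw [eq_neg_iff_add_eq_zero]
  apply c.cov_zero T hT
  intro b hb
  have := he b hb
  rw [Gen.ell, hl b hb, ← bil_eq, bil_eq'] at this
  rw [add_dotProduct, this]

omit [CharZero K] in
theorem ell_lin {b b' : V} {φ : V → Vec K} {B : Mat K} (h : φ b = c.p b ᵥ* B)
    (h' : φ b' = c.p b' ᵥ* B) : c.ell φ b b' = sb B (c.p b) (c.p b') := by
  rw [Gen.ell, h, h', sb, bil_eq, bil_eq]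

/-- flexes off `v` that are linear on all neighbours of `v` -/
abbrev AA (v : V) := c.FS {v} (fun u b => u = v ∧ b ∈ c.N v)

/-- flexes off `U` that are linear on the neighbours other than `a` -/
abbrev T1 (U : Finset V) (a : V) := c.FS U (fun u b => u ∈ U ∧ b ∈ c.N u ∧ b ≠ a)

/-- flexes off `U` and `a` that are linear on the neighbours other than `a` -/
abbrev T2 (U : Finset V) (a : V) := c.FS (insert a U) (fun u b => u ∈ U ∧ b ∈ c.N u ∧ b ≠ a)

omit [CharZero K] in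
theorem actA (v : V) (k : Fin 4) : ∀ s ∈ (c.AA v : Set (St V K)), act (c.d v k) s ∈ c.AA v :=
  c.act_mem (fun u b h => by simpa using c.ne_of h.2) (by simp) k

omit [CharZero K] in
theorem quadA {v : V} (h : ∀ s ∈ c.AA v, bil (s.2 v) (c.p v) (c.p v) = 0) :
    ∀ s ∈ c.AA v, ∀ m m', sb (s.2 v) m m' = 0 := by
  intro s hs m m'
  have := sd (ι := Empty) (c.d v) (c.p v) (c.d_self v) (c.AA v) (fun k => act (c.d v k))
    (c.actA v) (fun s => s.2 v) (fun _ _ => rfl) (fun _ => 0) (fun k _ => (dv_zero _).symm)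
    (fun l => l.elim) (fun l => l.elim) (fun l => l.elim) (fun s hs => by simp [h s hs]) s hs
    (fun l => l.elim) m m'
  simpa using this

theorem deg_ge {v : V} (hv : (c.N v).Nonempty) : 5 ≤ (c.N v).card := by
  by_contra hlt
  obtain ⟨a, ha⟩ := hv
  by_cases h3 : (c.N v).card ≤ 3
  · have := c.indep (insert v (c.N v)) (by rw [Finset.card_insert_of_notMem (c.nirr v)]; omega)
      (c.Ω v) (by rw [Finset.sum_insert (c.nirr v), add_comm]; exact c.row_N v) a (by simp [ha])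
    exact c.om_ne ha this
  have h4 : (c.N v).card = 4 := by omega
  have hvv : c.Ω v v ≠ 0 := by
    intro h0
    have h1 := c.row_N v
    rw [h0, zero_smul, add_zero] at h1
    exact c.om_ne ha (c.indep _ h4.le _ h1 a ha)
  obtain ⟨B, hB⟩ := c.exists_mat (c.N v) h4.le c.φ0
  have hs : (c.φ0, fun _ => B) ∈ c.AA v := ⟨c.flex0' _, fun u b h => hB b h.2⟩
  have := c.quadA (v := v) (fun s hs => by
    have h1 := c.star_id {v} (fun u hu j hj => by
      rw [Finset.mem_singleton] at hu ⊢; exact hu ▸ c.ne_of hj) s.1 hs.1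
    rw [Finset.sum_singleton, c.star_lin ha s.1 (s.2 v) (fun b hb _ => hs.2 v b ⟨rfl, hb⟩),
      hs.2 v a ⟨rfl, ha⟩, sub_self, zero_dotProduct, mul_zero, zero_sub, neg_eq_zero] at h1
    exact (mul_eq_zero.1 h1).resolve_left hvv) _ hs
  obtain ⟨b, hb, b', hb', hne⟩ := Finset.one_lt_card.1 (by omega : 1 < (c.N v).card)
  apply c.un2 v b b' hb hb' hne
  rw [c.ell_lin (hB b hb) (hB b' hb')]
  exact this _ _

omit [CharZero K] in
theorem card_er {v a : V} (ha : a ∈ c.N v) {n : ℕ} (h : (c.N v).card = n + 1) :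
    ((c.N v).erase a).card = n := by
  rw [Finset.card_erase_of_mem ha, h]; rfl

/-- at a vertex of degree five every flex off the vertex is linear on the neighbours -/
theorem typeI {v a : V} (hv : (c.N v).card = 5) (ha : a ∈ c.N v) :
    c.Ω v v = 0 ∧ ∀ s ∈ c.T1 {v} a, s.1 a = c.p a ᵥ* s.2 v := by
  have hact : ∀ k, ∀ s ∈ (c.T1 {v} a : Set (St V K)), act (c.d v k) s ∈ c.T1 {v} a :=
    fun k => c.act_mem (fun u b h => by
      have h1 := h.1
      rw [Finset.mem_singleton] at h1 ⊢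
      exact h1 ▸ c.ne_of h.2.1) (by simp) k
  have hl : ∀ k (s : St V K), (act (c.d v k) s).1 a - c.p a ᵥ* (act (c.d v k) s).2 v
      = dv (c.d v k) (s.1 a - c.p a ᵥ* s.2 v) := by
    intro k s
    rw [dv_sub, dv_vecMul _ _ _ (c.d_ne (c.ne_of ha) k)]
    rfl
  have hid : ∀ s ∈ c.T1 {v} a, c.Ω v a * ((s.1 a - c.p a ᵥ* s.2 v) ⬝ᵥ c.p v)
      = c.Ω v v * bil (s.2 v) (c.p v) (c.p v) := by
    intro s hs
    have h1 := c.star_id {v} (fun u hu j hj => by
      rw [Finset.mem_singleton] at hu ⊢; exact hu ▸ c.ne_of hj) s.1 hs.1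
    rw [Finset.sum_singleton, c.star_lin ha s.1 (s.2 v)
      (fun b hb hne => hs.2 v b ⟨by simp, hb, hne⟩)] at h1
    exact sub_eq_zero.1 h1
  have h4 := c.card_er ha hv
  have hvv : c.Ω v v = 0 := by
    by_contra hvv
    obtain ⟨B, hB⟩ := c.exists_mat _ h4.le c.φ0
    have hs : (c.φ0, fun _ => B) ∈ c.T1 {v} a := ⟨c.flex0' _, fun u b h => hB b (by
      have h1 := h.1
      rw [Finset.mem_singleton] at h1
      exact Finset.mem_erase.2 ⟨h.2.2, h1 ▸ h.2.1⟩)⟩
    have h5 := c.ext_v (v := v) _ h4.ge c.φ0 B hB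
      (fun b hb => c.flex0 v b (Or.inl (Finset.mem_of_mem_erase hb)))
    have h6 := sd (ι := Unit) (c.d v) (c.p v) (c.d_self v) (c.T1 {v} a) (fun k => act (c.d v k))
      hact (fun s => s.2 v) (fun _ _ => rfl) (fun _ => 0) (fun k _ => (dv_zero _).symm)
      (fun _ s => s.1 a - c.p a ᵥ* s.2 v) (fun _ => hl) (fun _ => c.Ω v a / c.Ω v v)
      (fun s hs => by
        have := hid s hs
        simp only [zero_dotProduct, add_zero, Finset.univ_unique, Finset.sum_singleton]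
        field_simp
        linear_combination -this) _ hs (fun _ => by
        have := c.flex0 v a (Or.inl ha)
        rw [Gen.ell, h5, neg_dotProduct, ← bil_eq'] at this
        rw [sub_dotProduct, ← bil_eq]
        linear_combination this)
    simp only [Finset.univ_unique, Finset.sum_singleton] at h6
    refine red ((c.N v).erase a) (by omega) c.p B _ _ h6 (fun b hb => ?_) (fun b hb b' hb' hne => ?_)
    · rw [← c.ell_lin (hB b hb) (hB b hb)]
      exact c.flex0 b b (Or.inr rfl)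
    · rw [← c.ell_lin (hB b hb) (hB b' hb')]
      exact c.un2 v b b' (Finset.mem_of_mem_erase hb) (Finset.mem_of_mem_erase hb') hne
  refine ⟨hvv, fun s hs => ?_⟩
  rw [← sub_eq_zero]
  apply vec_eq_zero
  intro m
  have := fd (ι := Empty) (c.d v) (c.p v) (c.d_self v) (c.T1 {v} a) (fun k => act (c.d v k))
    hact (fun _ => 0) (fun k _ => (dm_zero _).symm) (fun s => s.1 a - c.p a ᵥ* s.2 v) hl
    (fun l => l.elim) (fun l => l.elim) (fun l => l.elim) (fun s hs => by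
      have := hid s hs
      rw [hvv, zero_mul] at this
      simp [bil_zero, (mul_eq_zero.1 this).resolve_left (c.om_ne ha)]) s hs (fun l => l.elim) m
  simpa [sb, bil_zero] using this

theorem T1_le_AA {v a : V} (hv : (c.N v).card = 5) (ha : a ∈ c.N v) {s : St V K}
    (hs : s ∈ c.T1 {v} a) : s ∈ c.AA v := by
  refine ⟨hs.1, fun u b h => ?_⟩
  obtain ⟨rfl, hb⟩ := h
  by_cases hba : b = a
  · exact hba ▸ (c.typeI hv ha).2 s hs
  · exact hs.2 u b ⟨by simp, hb, hba⟩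

theorem exists_B {v : V} (hv : (c.N v).card = 5) {φ : V → Vec K} (hφ : c.Flex {v} φ) :
    ∃ B : Mat K, ∀ b ∈ c.N v, φ b = c.p b ᵥ* B := by
  obtain ⟨a, ha⟩ : (c.N v).Nonempty := Finset.card_pos.1 (by omega)
  obtain ⟨B, hB⟩ := c.exists_mat _ (c.card_er ha hv).le φ
  have hs : (φ, fun _ => B) ∈ c.T1 {v} a := ⟨hφ, fun u b h => hB b (by
      have h1 := h.1
      rw [Finset.mem_singleton] at h1
      exact Finset.mem_erase.2 ⟨h.2.2, h1 ▸ h.2.1⟩)⟩
  exact ⟨B, fun b hb => (c.T1_le_AA hv ha hs).2 v b ⟨rfl, hb⟩⟩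

/-- the distinguished flex with its matrices -/
theorem exists_s0 : ∃ s : St V K, s.1 = c.φ0 ∧ ∀ v, (c.N v).card = 5 →
    (∀ b ∈ c.N v, c.φ0 b = c.p b ᵥ* s.2 v) ∧ bil (s.2 v) (c.p v) (c.p v) = 0 := by
  have : ∀ v, ∃ B : Mat K, (c.N v).card = 5 →
      (∀ b ∈ c.N v, c.φ0 b = c.p b ᵥ* B) ∧ bil B (c.p v) (c.p v) = 0 := by
    intro v
    by_cases hv : (c.N v).card = 5
    · obtain ⟨B, hB⟩ := c.exists_B hv (c.flex0' _)
      refine ⟨B, fun _ => ⟨hB, ?_⟩⟩
      have h5 := c.ext_v (v := v) _ (by omega) c.φ0 B hB (fun b hb => c.flex0 v b (Or.inl hb))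
      have h6 := c.flex0 v v (Or.inr rfl)
      rw [Gen.ell, h5, neg_dotProduct, ← bil_eq'] at h6
      linear_combination -h6 / 2
    · exact ⟨0, fun h => absurd h hv⟩
  choose B hB using this
  exact ⟨(c.φ0, B), rfl, hB⟩

theorem exists_s1 {v : V} (hv : (c.N v).card = 5) :
    ∃ s ∈ c.AA v, bil (s.2 v) (c.p v) (c.p v) ≠ 0 := by
  by_contra h
  push Not at h
  obtain ⟨s, h1, h2⟩ := c.exists_s0
  obtain ⟨hB, -⟩ := h2 v hv
  have hs : s ∈ c.AA v := ⟨h1 ▸ c.flex0' _, fun u b h => by rw [h1, h.1]; exact hB b h.2⟩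
  obtain ⟨b, hb, b', hb', hne⟩ := Finset.one_lt_card.1 (by omega : 1 < (c.N v).card)
  apply c.un2 v b b' hb hb' hne
  rw [c.ell_lin (hB b hb) (hB b' hb')]
  exact c.quadA h s hs _ _

end Ctx

end Pool.Agent.Dress
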