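import Pool.Agent.Lib.MP_d237f6_co.LinAlg

/-! Generic points: a field with coordinate derivations. -/

set_option autoImplicit false

namespace Pool.Agent.Dress

open Matrix Module

variable {K : Type} [Field K]

abbrev Der (K : Type) [Field K] := Derivation ℤ K K

def dv (δ : Der K) (f : Vec K) : Vec K := fun i => δ (f i)

def dm (δ : Der K) (B : Mat K) : Mat K := fun i j => δ (B i j)

theorem d_dot (δ : Der K) (f m : Vec K) : δ (f ⬝ᵥ m) = dv δ f ⬝ᵥ m + f ⬝ᵥ dv δ m := by
  simp only [dotProduct, map_sum, Derivation.leibniz, smul_eq_mul, dv, ← Finset.sum_add_distrib]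
  refine Finset.sum_congr rfl fun i _ => by ring

theorem d_bil (δ : Der K) (B : Mat K) (m m' : Vec K) :
    δ (bil B m m') = bil (dm δ B) m m' + bil B (dv δ m) m' + bil B m (dv δ m') := by
  simp only [bil_sum, map_sum, Derivation.leibniz, smul_eq_mul, dv, dm, ← Finset.sum_add_distrib]
  refine Finset.sum_congr rfl fun i _ => Finset.sum_congr rfl fun j _ => by ring

theorem d_mul (δ : Der K) (a b : K) : δ (a * b) = δ a * b + a * δ b := by
  rw [Derivation.leibniz]; simp only [smul_eq_mul]; ring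

theorem dv_single (δ : Der K) (k : Fin 4) : dv δ (Pi.single k 1) = 0 := by
  ext i
  by_cases h : i = k
  · subst h; simp [dv]
  · simp [dv, h]

theorem dv_zero (δ : Der K) : dv δ (0 : Vec K) = 0 := by ext i; simp [dv]

theorem dv_add (δ : Der K) (f g : Vec K) : dv δ (f + g) = dv δ f + dv δ g := by
  ext i; simp [dv]

theorem dv_sub (δ : Der K) (f g : Vec K) : dv δ (f - g) = dv δ f - dv δ g := by
  ext i; simp [dv]

theorem dv_vecMul (δ : Der K) (m : Vec K) (B : Mat K) (hm : dv δ m = 0) :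
    dv δ (m ᵥ* B) = m ᵥ* dm δ B := by
  ext j
  have : ∀ i, δ (m i) = 0 := fun i => congrFun hm i
  simp [dv, dm, vecMul, dotProduct, map_sum, this]

theorem dv_mulVec (δ : Der K) (m : Vec K) (B : Mat K) (hm : dv δ m = 0) :
    dv δ (B *ᵥ m) = dm δ B *ᵥ m := by
  ext j
  have : ∀ i, δ (m i) = 0 := fun i => congrFun hm i
  simp [dv, dm, mulVec, dotProduct, map_sum, this, mul_comm]

theorem dm_transpose (δ : Der K) (B : Mat K) : dm δ Bᵀ = (dm δ B)ᵀ := rfl

theorem dm_sub (δ : Der K) (B B' : Mat K) : dm δ (B - B') = dm δ B - dm δ B' := by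
  ext i j; simp [dm]

theorem dm_zero (δ : Der K) : dm δ (0 : Mat K) = 0 := by ext i j; simp [dm]

theorem dv_sum_smul {ι : Type} (δ : Der K) (T : Finset ι) (c : ι → K) (z : ι → Vec K) :
    dv δ (∑ i ∈ T, c i • z i) = ∑ i ∈ T, (δ (c i) • z i + c i • dv δ (z i)) := by
  ext k
  simp only [dv, Finset.sum_apply, map_sum, Pi.smul_apply, smul_eq_mul, d_mul, Pi.add_apply]

section SD

variable {σ ι : Type} [Fintype ι] (δ : Fin 4 → Der K) (y : Vec K)
  (hy : ∀ k, dv (δ k) y = Pi.single k 1)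
  (𝒮 : Set σ) (act : Fin 4 → σ → σ) (hact : ∀ k, ∀ s ∈ 𝒮, act k s ∈ 𝒮)
  (S : σ → Mat K) (hS : ∀ k s, S (act k s) = dm (δ k) (S s))
  (χ₀ : σ → Vec K) (h₀ : ∀ k s, χ₀ (act k s) = dv (δ k) (χ₀ s))
  (χ : ι → σ → Vec K) (hχ : ∀ l k s, χ l (act k s) = dv (δ k) (χ l s))
  (c : ι → K) (h : ∀ s ∈ 𝒮, bil (S s) y y + χ₀ s ⬝ᵥ y = ∑ l, c l * (χ l s ⬝ᵥ y))

include hy hact hS h₀ hχ h

theorem fd0 (s : σ) (hs : s ∈ 𝒮) (k : Fin 4) :
    sb (S s) y (Pi.single k 1) + χ₀ s ⬝ᵥ Pi.single k 1
      = ∑ l, (δ k (c l) * (χ l s ⬝ᵥ y) + c l * (χ l s ⬝ᵥ Pi.single k 1)) := by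
  have h1 := congrArg (δ k) (h s hs)
  have h2 := h _ (hact k s hs)
  rw [hS, h₀] at h2
  simp only [hχ] at h2
  simp only [map_add, map_sum, d_mul, d_dot, d_bil, hy, mul_add, Finset.sum_add_distrib] at h1 ⊢
  rw [sb]
  linear_combination h1 - h2

/-- first derivative of the relation -/
theorem fd (s : σ) (hs : s ∈ 𝒮) (hz : ∀ l, χ l s ⬝ᵥ y = 0) (m : Vec K) :
    sb (S s) y m + χ₀ s ⬝ᵥ m = ∑ l, c l * (χ l s ⬝ᵥ m) := by
  have h1 := fun k => fd0 δ y hy 𝒮 act hact S hS χ₀ h₀ χ hχ c h s hs k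
  simp only [hz, mul_zero, zero_add] at h1
  have e : m = ∑ k, m k • Pi.single k (1 : K) := by
    ext j; simp [Finset.sum_apply, Pi.single_apply]
  have h2 : ∀ k, m k * (sb (S s) y (Pi.single k 1) + χ₀ s ⬝ᵥ Pi.single k 1)
      = m k * ∑ l, c l * (χ l s ⬝ᵥ Pi.single k 1) := fun k => by rw [h1]
  have h3 := Finset.sum_congr (rfl : (Finset.univ : Finset (Fin 4)) = _) (fun k _ => h2 k)
  simp only [Finset.mul_sum] at h3
  rw [Finset.sum_comm] at h3
  simp only [sb, bil_eq (S s) y, bil_eq' (S s) _ y, dotProduct_single, mul_one] at h3 ⊢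
  simp only [dotProduct, Finset.mul_sum, ← Finset.sum_add_distrib] at h3 ⊢
  refine (Finset.sum_congr rfl fun k _ => ?_).trans (h3.trans ?_)
  · simp only [mul_add]; ring_nf
  · refine Finset.sum_congr rfl fun l _ => Finset.sum_congr rfl fun k _ => by ring

/-- second derivative of the relation -/
theorem sd (s : σ) (hs : s ∈ 𝒮) (hz : ∀ l, χ l s ⬝ᵥ y = 0) (m m' : Vec K) :
    sb (S s) m m' = ∑ l, (((fun k => δ k (c l)) ⬝ᵥ m) * (χ l s ⬝ᵥ m')
      + ((fun k => δ k (c l)) ⬝ᵥ m') * (χ l s ⬝ᵥ m)) := by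
  have key : ∀ k k', S s k k' + S s k' k = ∑ l, (δ k (c l) * χ l s k' + δ k' (c l) * χ l s k) := by
    intro k k'
    have h1 := congrArg (δ k') (fd0 δ y hy 𝒮 act hact S hS χ₀ h₀ χ hχ c h s hs k)
    have h2 := fd0 δ y hy 𝒮 act hact S hS χ₀ h₀ χ hχ c h _ (hact k' s hs) k
    have h4 : ∀ l, dv (δ k') (χ l s) ⬝ᵥ y = - χ l s k' := by
      intro l
      have := congrArg (δ k') (hz l)
      rw [d_dot, hy, map_zero] at this
      simp only [dotProduct_single, mul_one] at this
      linear_combination this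
    rw [hS, h₀] at h2
    simp only [hχ, h4] at h2
    simp only [sb, map_add, map_sum, d_mul, d_dot, d_bil, hy, Finset.sum_add_distrib,
      dv_single, bil_zero_left, bil_zero_right, dotProduct_zero, bil_single, hz,
      mul_zero, add_zero, zero_add] at h1 h2 ⊢
    simp only [dotProduct_single, mul_one, mul_neg, Finset.sum_neg_distrib] at h1 h2
    linear_combination h1 - h2
  have e1 : sb (S s) m m' = ∑ k, ∑ k', m k * m' k' * (S s k k' + S s k' k) := by
    rw [sb, bil_sum, bil_sum, Finset.sum_comm (f := fun i j => m' i * S s i j * m j),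
      ← Finset.sum_add_distrib]
    refine Finset.sum_congr rfl fun k _ => ?_
    rw [← Finset.sum_add_distrib]
    refine Finset.sum_congr rfl fun k' _ => by ring
  rw [e1]
  simp only [key, Finset.mul_sum]
  rw [Finset.sum_congr rfl (fun k _ => Finset.sum_comm), Finset.sum_comm]
  refine Finset.sum_congr rfl fun l _ => ?_
  simp only [dotProduct, Fin.sum_univ_four]
  ring

end SD

/-- generic points in projective three-space, given by coordinate derivations -/
structure Gen (V K : Type) [Field K] [DecidableEq V] where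
  p : V → Vec K
  d : V → Fin 4 → Der K
  hd : ∀ u k j, dv (d u k) (p j) = if j = u then Pi.single k 1 else 0

variable {V : Type} [DecidableEq V] (g : Gen V K)

namespace Gen

theorem d_self (u : V) (k : Fin 4) : dv (g.d u k) (g.p u) = Pi.single k 1 := by simp [g.hd]

theorem d_ne {u j : V} (h : j ≠ u) (k : Fin 4) : dv (g.d u k) (g.p j) = 0 := by simp [g.hd, h]

theorem coord_ne (u : V) (k : Fin 4) : g.p u k ≠ 0 := by
  intro h
  have := congrFun (g.d_self u k) k
  simp [dv, h] at this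

/-- four points are independent -/
theorem indep (T : Finset V) (hT : T.card ≤ 4) (c : V → K) (h : ∑ b ∈ T, c b • g.p b = 0) :
    ∀ b ∈ T, c b = 0 := by
  classical
  intro u hu
  by_contra hc
  have h1 : ∑ b ∈ T, (c b / c u) • g.p b = 0 := by
    have := congrArg (fun v => (c u)⁻¹ • v) h
    simp only [Finset.smul_sum, smul_smul, smul_zero] at this
    rw [← this]
    exact Finset.sum_congr rfl fun b _ => by rw [div_eq_inv_mul]
  have h2 : ∀ k, (Pi.single k 1 : Vec K) ∈ Submodule.span K ((T.erase u).image g.p : Set (Vec K)) := by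
    intro k
    have h3 := congrArg (dv (g.d u k)) h1
    rw [dv_sum_smul, dv_zero, ← Finset.add_sum_erase _ _ hu, div_self hc, g.d_self] at h3
    simp only [Derivation.map_one_eq_zero, zero_smul, one_smul, zero_add] at h3
    rw [eq_neg_of_add_eq_zero_left h3]
    refine Submodule.neg_mem _ (Submodule.sum_mem _ fun b hb => ?_)
    rw [g.d_ne (Finset.ne_of_mem_erase hb), smul_zero, add_zero]
    exact Submodule.smul_mem _ _ (Submodule.subset_span (by
      rw [Finset.coe_image]; exact ⟨b, hb, rfl⟩))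
  have h4 : Submodule.span K ((T.erase u).image g.p : Set (Vec K)) = ⊤ := by
    rw [eq_top_iff]
    intro m _
    have e : m = ∑ k, m k • Pi.single k (1 : K) := by
      ext j; simp [Finset.sum_apply, Pi.single_apply]
    rw [e]
    exact Submodule.sum_mem _ fun k _ => Submodule.smul_mem _ _ (h2 k)
  have h5 := finrank_span_finset_le_card (R := K) ((T.erase u).image g.p)
  rw [Set.finrank, h4] at h5
  have h6 := Finset.card_image_le (s := T.erase u) (f := g.p)
  rw [Finset.card_erase_of_mem hu] at h6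
  simp at h5
  omega

theorem linInd (T : Finset V) (hT : T.card ≤ 4) : LinearIndependent K (fun b : T => g.p b) := by
  rw [Fintype.linearIndependent_iff]
  intro c hc b
  have := g.indep T hT (fun v => if h : v ∈ T then c ⟨v, h⟩ else 0) (by
    rw [← hc, ← Finset.sum_coe_sort]
    exact Finset.sum_congr rfl fun b _ => by simp) b b.2
  simpa using this

/-- prescribed values at four points -/
theorem exists_mat (T : Finset V) (hT : T.card ≤ 4) (φ : V → Vec K) :
    ∃ B : Mat K, ∀ b ∈ T, φ b = g.p b ᵥ* B := by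
  obtain ⟨f, hf⟩ := LinearMap.exists_extend
    ((Module.Basis.span (g.linInd T hT)).constr K (fun b : T => φ b))
  refine ⟨(LinearMap.toMatrix' f)ᵀ, fun b hb => ?_⟩
  rw [vecMul_transpose, LinearMap.toMatrix'_mulVec]
  have := LinearMap.congr_fun hf (Module.Basis.span (g.linInd T hT) ⟨b, hb⟩)
  rw [Module.Basis.constr_basis, LinearMap.comp_apply, Submodule.subtype_apply,
    Module.Basis.span_apply] at this
  exact this.symm

theorem exists_cov (T : Finset V) (hT : T.card ≤ 4) (s : V → K) :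
    ∃ ξ : Vec K, ∀ b ∈ T, ξ ⬝ᵥ g.p b = s b := by
  obtain ⟨B, hB⟩ := g.exists_mat T hT (fun b => fun _ => s b)
  refine ⟨fun i => B i 0, fun b hb => ?_⟩
  have := congrFun (hB b hb) 0
  rw [this, dotProduct_comm]
  rfl

/-- four points span -/
theorem spans (T : Finset V) (hT : T.card = 4) (m : Vec K) :
    ∃ c : V → K, m = ∑ b ∈ T, c b • g.p b := by
  have h1 := (g.linInd T hT.le).span_eq_top_of_card_eq_finrank' (by simp [hT])
  have h2 : m ∈ Submodule.span K (Set.range fun b : T => g.p b) := by rw [h1]; trivial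
  obtain ⟨c, hc⟩ := (Submodule.mem_span_range_iff_exists_fun K).1 h2
  refine ⟨fun v => if h : v ∈ T then c ⟨v, h⟩ else 0, ?_⟩
  rw [← hc, ← Finset.sum_coe_sort T]
  exact Finset.sum_congr rfl fun b _ => by simp

theorem cov_zero (T : Finset V) (hT : 4 ≤ T.card) (f : Vec K) (h : ∀ b ∈ T, f ⬝ᵥ g.p b = 0) :
    f = 0 := by
  obtain ⟨T', hT', hc⟩ := Finset.exists_subset_card_eq hT
  apply vec_eq_zero
  intro m
  obtain ⟨c, rfl⟩ := g.spans T' hc m
  rw [dotProduct_sum]
  exact Finset.sum_eq_zero fun b hb => by rw [dotProduct_smul, h b (hT' hb), smul_zero]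

/-- obstructions to interpolating values at a set of points -/
theorem obs {X : Type} [AddCommGroup X] [Module K X] (T : Finset V) (hT : 4 ≤ T.card)
    (s : V → X → K) (hs : ∀ z, IsLinearMap K (s z)) :
    ∃ (T₀ : Finset V) (O : (T \ T₀ : Finset V) → X → K), T₀ ⊆ T ∧ T₀.card = 4 ∧
      (∀ i, IsLinearMap K (O i)) ∧
      ∀ x, (∀ i, O i x = 0) → ∃ ξ : Vec K, ∀ z ∈ T, ξ ⬝ᵥ g.p z = s z x := by
  obtain ⟨T₀, h0, hc⟩ := Finset.exists_subset_card_eq hT
  choose c hc' using fun z => g.spans T₀ hc (g.p z)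
  refine ⟨T₀, fun z x => s z x - ∑ b ∈ T₀, c z b * s b x, h0, hc, fun z => ⟨fun a b => ?_,
    fun r a => ?_⟩, fun x hx => ?_⟩
  · simp only [(hs _).map_add, mul_add, Finset.sum_add_distrib]; ring
  · simp only [(hs _).map_smul, smul_eq_mul, mul_sub, Finset.mul_sum]
    congr 1
    exact Finset.sum_congr rfl fun b _ => by ring
  · obtain ⟨ξ, hξ⟩ := g.exists_cov T₀ hc.le (fun b => s b x)
    refine ⟨ξ, fun z hz => ?_⟩
    by_cases h : z ∈ T₀
    · exact hξ z h
    · have := hx ⟨z, Finset.mem_sdiff.2 ⟨hz, h⟩⟩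
      simp only at this
      rw [hc' z, dotProduct_sum, sub_eq_zero.1 this]
      exact Finset.sum_congr rfl fun b hb => by rw [dotProduct_smul, hξ b hb, smul_eq_mul]

/-- interpolation at five points -/
theorem ext5 (T : Finset V) (hT : T.card ≤ 5) (ν s : V → K) (hν : ∑ w ∈ T, ν w • g.p w = 0)
    (w₀ : V) (hw₀ : w₀ ∈ T) (h0 : ν w₀ ≠ 0) (hs : ∑ w ∈ T, ν w * s w = 0) :
    ∃ ξ : Vec K, ∀ w ∈ T, ξ ⬝ᵥ g.p w = s w := by
  obtain ⟨ξ, hξ⟩ := g.exists_cov (T.erase w₀) (by rw [Finset.card_erase_of_mem hw₀]; omega) s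
  refine ⟨ξ, fun w hw => ?_⟩
  by_cases h : w = w₀
  · subst h
    have h1 := congrArg (fun m => ξ ⬝ᵥ m) hν
    simp only [dotProduct_sum, dotProduct_smul, smul_eq_mul, dotProduct_zero] at h1
    rw [← Finset.add_sum_erase _ _ hw] at h1 hs
    rw [Finset.sum_congr rfl (fun b hb => by rw [hξ b hb])] at h1
    exact mul_left_cancel₀ h0 (by linear_combination h1 - hs)
  · exact hξ w (Finset.mem_erase.2 ⟨h, hw⟩)

theorem quad_zero (u : V) (W : Set (Mat K)) (hW : ∀ k, ∀ S ∈ W, dm (g.d u k) S ∈ W)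
    (h : ∀ S ∈ W, bil S (g.p u) (g.p u) = 0) : ∀ S ∈ W, ∀ m m', sb S m m' = 0 := by
  intro S hS m m'
  have := sd (ι := Empty) (g.d u) (g.p u) (g.d_self u) W (fun k S => dm (g.d u k) S) hW
    (fun S => S) (fun _ _ => rfl) (fun _ => 0) (fun k _ => (dv_zero _).symm) (fun l => l.elim)
    (fun l => l.elim) (fun l => l.elim) (fun S hS => by simp [h S hS]) S hS (fun l => l.elim) m m'
  simpa using this

variable [CharZero K]

theorem sym_zero {S : Mat K} (hs : Sᵀ = S) (h : ∀ m m', sb S m m' = 0) : S = 0 := by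
  ext i j
  have := h (Pi.single i 1) (Pi.single j 1)
  rw [sb, bil_symm hs (Pi.single j 1), bil_single] at this
  simpa using this

/-- a derivation-closed space of quadrics loses one dimension per generic point -/
theorem dg (T : Finset V) : ∀ (W : Submodule K (Mat K)), (∀ S ∈ W, Sᵀ = S) →
    (∀ u ∈ T, ∀ k, ∀ S ∈ W, dm (g.d u k) S ∈ W) → finrank K W ≤ T.card →
    ∀ S ∈ W, (∀ u ∈ T, bil S (g.p u) (g.p u) = 0) → S = 0 := by
  induction T using Finset.induction_on with
  | empty =>
    intro W _ _ h S hS _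
    have : W = ⊥ := Submodule.finrank_eq_zero.1 (by simpa using h)
    simpa [this] using hS
  | insert u T hu ih =>
    intro W hs hd hf S hS h0
    by_cases hall : ∀ S ∈ W, bil S (g.p u) (g.p u) = 0
    · exact sym_zero (hs S hS) (g.quad_zero u W (hd u (by simp)) hall S hS)
    · let ev : Mat K →ₗ[K] K :=
        { toFun := fun S => bil S (g.p u) (g.p u)
          map_add' := fun a b => bil_add _ _ _ _
          map_smul' := fun c a => by simp [bil_smul] }
      have hlt : W ⊓ LinearMap.ker ev < W := by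
        refine lt_of_le_of_ne inf_le_left fun h => hall fun S hS => ?_
        rw [← h] at hS
        exact hS.2
      refine ih (W ⊓ LinearMap.ker ev) (fun S hS => hs S hS.1) (fun v hv k S hS => ⟨hd v (by simp [hv]) k S hS.1, ?_⟩) ?_ S ⟨hS, h0 u (by simp)⟩
        (fun v hv => h0 v (by simp [hv]))
      · have h1 : bil S (g.p u) (g.p u) = 0 := hS.2
        have h2 := congrArg (g.d v k) h1
        have hne : u ≠ v := fun h => hu (h ▸ hv)
        rw [d_bil, g.d_ne hne, bil_zero_left, bil_zero_right, map_zero, add_zero, add_zero] at h2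
        exact h2
      · have := Submodule.finrank_lt_finrank_of_lt hlt
        rw [Finset.card_insert_of_notMem hu] at hf
        omega

/-- no quadric through ten generic points -/
theorem q10 (T : Finset V) (hT : 10 ≤ T.card) (B : Mat K)
    (h : ∀ u ∈ T, bil B (g.p u) (g.p u) = 0) : ∀ m m', sb B m m' = 0 := by
  have := g.dg T (Sym K) (fun S hS => hS) (fun u _ k S hS => by
    have : Sᵀ = S := hS
    show (dm _ S)ᵀ = _
    rw [← dm_transpose, this]) (finrank_Sym.trans hT) (B + Bᵀ)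
    (by show (B + Bᵀ)ᵀ = _; rw [transpose_add, transpose_transpose, add_comm])
    (fun u hu => by rw [← sb_eq, sb, h u hu, add_zero])
  intro m m'
  rw [sb_eq, this, bil_zero]

/-- a quadric singular at one generic point and through six others vanishes -/
theorem q6 (a : V) (T : Finset V) (ha : a ∉ T) (hT : 6 ≤ T.card) (S : Mat K) (hs : Sᵀ = S)
    (hy : S *ᵥ g.p a = 0) (h : ∀ u ∈ T, bil S (g.p u) (g.p u) = 0) : S = 0 := by
  let W : Submodule K (Mat K) :=
    { carrier := {S | Sᵀ = S ∧ S *ᵥ g.p a = 0}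
      add_mem' := fun {a b} ha hb => ⟨by rw [transpose_add, ha.1, hb.1],
        by rw [add_mulVec, ha.2, hb.2, add_zero]⟩
      zero_mem' := ⟨by simp, by simp⟩
      smul_mem' := fun c a ha => ⟨by rw [transpose_smul, ha.1],
        by rw [smul_mulVec, ha.2, smul_zero]⟩ }
  refine g.dg T W (fun S hS => hS.1) (fun u hu k S hS => ⟨by rw [← dm_transpose, hS.1], ?_⟩) ?_ S
    ⟨hs, hy⟩ h
  · have hne : a ≠ u := fun h => ha (h ▸ hu)
    rw [← dv_mulVec _ _ _ (g.d_ne hne k), hS.2, dv_zero]
  · refine le_trans (finrank_le_gram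
      (z := fun i => if i = 0 then g.p a else Pi.single i 1) (fun f hf => ?_)
      (Finset.univ.filter (fun ij : Fin 4 × Fin 4 => ij.1 ≤ ij.2 ∧ ij.1 ≠ 0)) W (fun S hS => hS.1)
      (fun S hS i j h1 h2 => ?_)) (le_trans (by decide) hT)
    · have h1 := hf 1
      have h2 := hf 2
      have h3 := hf 3
      have h0 := hf 0
      simp only [dotProduct_single, mul_one, Fin.reduceEq, if_false] at h1 h2 h3
      simp only [if_true, dotProduct, Fin.sum_univ_four, h1, h2, h3, zero_mul, add_zero] at h0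
      have h4 := (mul_eq_zero.1 h0).resolve_right (g.coord_ne a 0)
      ext i
      fin_cases i <;> simp_all
    · simp only [Finset.mem_filter, Finset.mem_univ, true_and] at h1 h2
      by_cases hj : j = 0
      · simp only [hj, if_true, bil, hS.2, dotProduct_zero]
      · have hi : i = 0 := by omega
        rw [bil_symm hS.1]
        simp only [hi, if_true, bil, hS.2, dotProduct_zero]

/-- the squares of ten generic points are independent -/
theorem q10' (T : Finset V) (hT : T.card ≤ 10) (ρ : V → K)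
    (h : ∀ S : Mat K, Sᵀ = S → ∑ z ∈ T, ρ z * bil S (g.p z) (g.p z) = 0) : ∀ z ∈ T, ρ z = 0 := by
  intro u hu
  obtain ⟨S, hs, h0, h1⟩ := exists_quadric (T.erase u)
    (by rw [Finset.card_erase_of_mem hu]; omega) g.p
  by_contra hρ
  apply h0
  refine sym_zero hs (g.quad_zero u
    {S | Sᵀ = S ∧ ∀ z ∈ T.erase u, bil S (g.p z) (g.p z) = 0} (fun k S hS =>
      ⟨by rw [← dm_transpose, hS.1], fun z hz => ?_⟩) (fun S hS => ?_) S ⟨hs, h1⟩)
  · have h2 := congrArg (g.d u k) (hS.2 z hz)
    rw [d_bil, g.d_ne (Finset.ne_of_mem_erase hz), bil_zero_left, bil_zero_right, map_zero,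
      add_zero, add_zero] at h2
    exact h2
  · have h2 := h S hS.1
    rw [← Finset.add_sum_erase _ _ hu, Finset.sum_eq_zero (fun z hz => by rw [hS.2 z hz, mul_zero]),
      add_zero] at h2
    exact (mul_eq_zero.1 h2).resolve_left hρ

/-- a quadric through nine points, three of which are not pairwise conjugate -/
theorem q_pair (T : Finset V) (hT : T.card = 6) (i j k : V) (hij : i ≠ j) (hik : i ≠ k)
    (hjk : j ≠ k) (hi : i ∉ T) (hj : j ∉ T) (hk : k ∉ T) (S : Mat K) (hs : Sᵀ = S)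
    (h : ∀ u ∈ T, bil S (g.p u) (g.p u) = 0) (h1 : bil S (g.p i) (g.p i) = 0)
    (h2 : bil S (g.p j) (g.p j) = 0) (h3 : bil S (g.p k) (g.p k) = 0)
    (h4 : bil S (g.p i) (g.p j) = 0) : S = 0 := by
  obtain ⟨l, hl⟩ : T.Nonempty := Finset.card_pos.1 (by omega)
  have hil : i ≠ l := fun h => hi (h ▸ hl)
  have hjl : j ≠ l := fun h => hj (h ▸ hl)
  have hkl : k ≠ l := fun h => hk (h ▸ hl)
  let W : Submodule K (Mat K) :=
    { carrier := {S | Sᵀ = S ∧ bil S (g.p i) (g.p i) = 0 ∧ bil S (g.p j) (g.p j) = 0 ∧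
        bil S (g.p k) (g.p k) = 0 ∧ bil S (g.p i) (g.p j) = 0}
      add_mem' := fun {a b} ha hb => ⟨by rw [transpose_add, ha.1, hb.1],
        by simp [bil_add, ha.2, hb.2]⟩
      zero_mem' := ⟨by simp, by simp [bil_zero]⟩
      smul_mem' := fun c a ha => ⟨by rw [transpose_smul, ha.1],
        by simp [bil_smul, ha.2]⟩ }
  refine g.dg T W (fun S hS => hS.1) (fun u hu r S hS => ⟨by rw [← dm_transpose, hS.1], ?_⟩) ?_ S
    ⟨hs, h1, h2, h3, h4⟩ h
  · have key : ∀ a b, a ∉ T → b ∉ T → bil S (g.p a) (g.p b) = 0 →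
        bil (dm (g.d u r) S) (g.p a) (g.p b) = 0 := by
      intro a b ha hb h
      have h2 := congrArg (g.d u r) h
      rw [d_bil, g.d_ne (fun h : a = u => ha (h ▸ hu)), g.d_ne (fun h : b = u => hb (h ▸ hu)),
        bil_zero_left, bil_zero_right, map_zero, add_zero, add_zero] at h2
      exact h2
    exact ⟨key i i hi hi hS.2.1, key j j hj hj hS.2.2.1, key k k hk hk hS.2.2.2.1,
      key i j hi hj hS.2.2.2.2⟩
  · refine le_trans (finrank_le_gram (z := ![g.p i, g.p j, g.p k, g.p l]) (fun f hf => ?_)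
      {(0, 2), (1, 2), (0, 3), (1, 3), (2, 3), (3, 3)} W (fun S hS => hS.1)
      (fun S hS a b h1 h2 => ?_)) (by rw [hT]; decide)
    · apply g.cov_zero {i, j, k, l}
      · rw [Finset.card_eq_four.2 ⟨i, j, k, l, hij, hik, hil, hjk, hjl, hkl, rfl⟩]
      · intro b hb
        simp only [Finset.mem_insert, Finset.mem_singleton] at hb
        rcases hb with rfl | rfl | rfl | rfl
        · exact hf 0
        · exact hf 1
        · exact hf 2
        · exact hf 3
    · have h5 : bil S (g.p j) (g.p i) = 0 := by rw [bil_symm hS.1]; exact hS.2.2.2.2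
      obtain ⟨-, k1, k2, k3, k4⟩ := hS
      fin_cases a <;> fin_cases b <;> simp_all

end Gen

end Pool.Agent.Dress
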