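import Mathlib

/-! Linear algebra lemmas for the rigidity argument. -/

set_option autoImplicit false

namespace Pool.Agent.Dress

open Matrix Module

variable {K : Type} [Field K]

abbrev Vec (K : Type) := Fin 4 → K
abbrev Mat (K : Type) := Matrix (Fin 4) (Fin 4) K

/-- a functional vanishing on the common kernel is a combination -/
theorem la1 {X ι : Type} [AddCommGroup X] [Module K X] [Fintype ι] (S : Submodule K X)
    (O : ι → X → K) (hO : ∀ i, IsLinearMap K (O i)) (f : X → K) (hf : IsLinearMap K f)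
    (h : ∀ x ∈ S, (∀ i, O i x = 0) → f x = 0) :
    ∃ c : ι → K, ∀ x ∈ S, f x = ∑ i, c i * O i x := by
  have := mem_span_of_iInf_ker_le_ker (L := fun i => ((hO i).mk' (O i)).domRestrict S)
    (K := (hf.mk' f).domRestrict S) (by
      intro x hx
      simp only [Submodule.mem_iInf, LinearMap.mem_ker, LinearMap.domRestrict_apply,
        IsLinearMap.mk'_apply] at hx ⊢
      exact h x x.2 hx)
  obtain ⟨c, hc⟩ := (Submodule.mem_span_range_iff_exists_fun K).1 this
  refine ⟨c, fun x hx => ?_⟩
  have := LinearMap.congr_fun hc ⟨x, hx⟩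
  simpa using this.symm

theorem span_pick {W α : Type} [AddCommGroup W] [Module K W] [Nonempty α] (g : α → W) (r : ℕ)
    [Module.Finite K (Submodule.span K (Set.range g))]
    (h : finrank K (Submodule.span K (Set.range g)) ≤ r) :
    ∃ e : Fin r → α, ∀ a, g a ∈ Submodule.span K (Set.range (fun l => g (e l))) := by
  classical
  obtain ⟨f, hf, hsp, -⟩ := Submodule.exists_fun_fin_finrank_span_eq K (Set.range g)
  choose e he using hf
  refine ⟨fun l => if hl : l.1 < finrank K (Submodule.span K (Set.range g)) then e ⟨l.1, hl⟩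
    else Classical.arbitrary α, fun a => ?_⟩
  have h1 : g a ∈ Submodule.span K (Set.range f) := by
    rw [hsp]; exact Submodule.subset_span ⟨a, rfl⟩
  refine Submodule.span_mono ?_ h1
  rintro _ ⟨i, rfl⟩
  refine ⟨⟨i.1, lt_of_lt_of_le i.2 h⟩, ?_⟩
  simp only [i.2, dif_pos]
  exact he i

/-- dichotomy for a family of functionals of rank at most `r + 1` -/
theorem dich {X ι α : Type} [AddCommGroup X] [Module K X] [Fintype ι] [Nonempty α]
    (S : Submodule K X) (r : ℕ) (hr : Fintype.card ι ≤ r + 1)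
    (O : ι → X → K) (hO : ∀ i, IsLinearMap K (O i)) (f : X → K) (hf : IsLinearMap K f)
    (g : α → X → K) (hg : ∀ a, IsLinearMap K (g a))
    (h : ∀ x ∈ S, (∀ i, O i x = 0) → f x = 0 ∧ ∀ a, g a x = 0) :
    (∃ e : Fin (r + 1) → α, (∃ d : Fin (r + 1) → K, ∀ x ∈ S, f x = ∑ l, d l * g (e l) x) ∧
      ∀ a, ∃ c : Fin (r + 1) → K, ∀ x ∈ S, g a x = ∑ l, c l * g (e l) x) ∨
    (∃ e : Fin r → α, ∀ a, ∃ c : Fin r → K, ∀ x ∈ S, g a x = ∑ l, c l * g (e l) x) := by
  classical
  set O' : ι → Module.Dual K S := fun i => ((hO i).mk' (O i)).domRestrict S with hO'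
  set g' : α → Module.Dual K S := fun a => ((hg a).mk' (g a)).domRestrict S with hg'
  set f' : Module.Dual K S := (hf.mk' f).domRestrict S with hf'
  have mem : ∀ (u : X → K) (hu : IsLinearMap K u), (∀ x ∈ S, (∀ i, O i x = 0) → u x = 0) →
      (hu.mk' u).domRestrict S ∈ Submodule.span K (Set.range O') := by
    intro u hu h
    apply mem_span_of_iInf_ker_le_ker
    intro x hx
    simp only [Submodule.mem_iInf, LinearMap.mem_ker, LinearMap.domRestrict_apply,
      IsLinearMap.mk'_apply, hO'] at hx ⊢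
    exact h x x.2 hx
  have hle : Submodule.span K (Set.range g') ≤ Submodule.span K (Set.range O') := by
    rw [Submodule.span_le]
    rintro _ ⟨a, rfl⟩
    exact mem _ (hg a) (fun x hx h0 => (h x hx h0).2 a)
  have hfm : f' ∈ Submodule.span K (Set.range O') := mem _ hf (fun x hx h0 => (h x hx h0).1)
  have : Module.Finite K (Submodule.span K (Set.range O')) :=
    Module.Finite.span_of_finite K (Set.finite_range O')
  have : Module.Finite K (Submodule.span K (Set.range g')) :=
    Submodule.finiteDimensional_of_le hle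
  have hfr : finrank K (Submodule.span K (Set.range O')) ≤ r + 1 :=
    (finrank_range_le_card O').trans hr
  have out : ∀ (n : ℕ) (e : Fin n → α) (u : X → K) (hu : IsLinearMap K u),
      (hu.mk' u).domRestrict S ∈ Submodule.span K (Set.range (fun l => g' (e l))) →
      ∃ c : Fin n → K, ∀ x ∈ S, u x = ∑ l, c l * g (e l) x := by
    intro n e u hu hm
    obtain ⟨c, hc⟩ := (Submodule.mem_span_range_iff_exists_fun K).1 hm
    refine ⟨c, fun x hx => ?_⟩
    have := LinearMap.congr_fun hc ⟨x, hx⟩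
    simpa [hg'] using this.symm
  by_cases hc : finrank K (Submodule.span K (Set.range g')) ≤ r
  · right
    obtain ⟨e, he⟩ := span_pick g' r hc
    exact ⟨e, fun a => out r e _ (hg a) (he a)⟩
  · left
    have heq : Submodule.span K (Set.range g') = Submodule.span K (Set.range O') :=
      Submodule.eq_of_le_of_finrank_le hle (by omega)
    obtain ⟨e, he⟩ := span_pick g' (r + 1) (by rw [heq]; exact hfr)
    refine ⟨e, out _ e f hf ?_, fun a => out _ e _ (hg a) (he a)⟩
    rw [← heq] at hfm
    refine Submodule.span_le.2 ?_ hfm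
    rintro _ ⟨a, rfl⟩
    exact he a

/-- more vectors than coordinates are dependent -/
theorem dep {ι κ : Type} [Fintype ι] [Fintype κ] (h : Fintype.card κ < Fintype.card ι)
    (M : ι → κ → K) : ∃ lam : ι → K, lam ≠ 0 ∧ ∀ k, ∑ i, lam i * M i k = 0 := by
  have : ¬ LinearIndependent K M := by
    intro hM
    have := hM.fintype_card_le_finrank
    simp at this
    omega
  rw [Fintype.not_linearIndependent_iff] at this
  obtain ⟨lam, h1, i, hi⟩ := this
  refine ⟨lam, fun h0 => hi (by simp [h0]), fun k => ?_⟩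
  have := congrFun h1 k
  simpa [Finset.sum_apply] using this

/-- functionals with a large common kernel are dependent -/
theorem dep2 {X ι κ : Type} [AddCommGroup X] [Module K X] [Module.Finite K X] [Fintype ι]
    [Fintype κ] (u : ι → X) (hu : LinearIndependent K u) (f : κ → X → K)
    (hf : ∀ j, IsLinearMap K (f j)) (h0 : ∀ j i, f j (u i) = 0)
    (hc : finrank K X < Fintype.card ι + Fintype.card κ) :
    ∃ lam : κ → K, lam ≠ 0 ∧ ∀ x, ∑ j, lam j * f j x = 0 := by
  classical
  set F : X →ₗ[K] (κ → K) := LinearMap.pi (fun j => (hf j).mk' (f j)) with hF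
  have h1 : Submodule.span K (Set.range u) ≤ LinearMap.ker F := by
    rw [Submodule.span_le]
    rintro _ ⟨i, rfl⟩
    ext j
    simp [hF, h0]
  have h2 : Fintype.card ι ≤ finrank K (LinearMap.ker F) := by
    rw [← finrank_span_eq_card hu]
    exact Submodule.finrank_mono h1
  have h3 := LinearMap.finrank_range_add_finrank_ker F
  have h4 : LinearMap.range F < ⊤ := by
    apply Submodule.lt_top_of_finrank_lt_finrank
    simp only [finrank_fintype_fun_eq_card]
    omega
  obtain ⟨g, hg0, hg⟩ := Submodule.exists_le_ker_of_lt_top _ h4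
  refine ⟨fun j => g (Pi.single j 1), fun h => hg0 ?_, fun x => ?_⟩
  · apply LinearMap.pi_ext'
    intro j
    ext
    simpa using congrFun h j
  · have h5 : g (F x) = 0 := hg ⟨x, rfl⟩
    rw [LinearMap.pi_apply_eq_sum_univ] at h5
    rw [← h5]
    refine Finset.sum_congr rfl fun j _ => ?_
    have : (fun j' => if j = j' then (1 : K) else 0) = Pi.single j 1 := by
      ext j'; simp [Pi.single_apply, eq_comm]
    rw [this]
    simp [hF, mul_comm]

/-- bilinear form of a matrix -/
def bil (B : Mat K) (m m' : Vec K) : K := m ⬝ᵥ (B *ᵥ m')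

/-- symmetrised form -/
def sb (B : Mat K) (m m' : Vec K) : K := bil B m m' + bil B m' m

theorem bil_eq (B : Mat K) (m m' : Vec K) : bil B m m' = (m ᵥ* B) ⬝ᵥ m' := by
  rw [bil, dotProduct_mulVec]

theorem bil_eq' (B : Mat K) (m m' : Vec K) : bil B m m' = (B *ᵥ m') ⬝ᵥ m := by
  rw [bil, dotProduct_comm]

theorem bil_sum (B : Mat K) (m m' : Vec K) :
    bil B m m' = ∑ i, ∑ j, m i * B i j * m' j := by
  simp [bil, dotProduct, mulVec, Finset.mul_sum, mul_assoc]

theorem bil_add (B B' : Mat K) (m m' : Vec K) : bil (B + B') m m' = bil B m m' + bil B' m m' := by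
  simp [bil, add_mulVec]

theorem bil_sub (B B' : Mat K) (m m' : Vec K) : bil (B - B') m m' = bil B m m' - bil B' m m' := by
  simp [bil, sub_mulVec]

theorem bil_smul (c : K) (B : Mat K) (m m' : Vec K) : bil (c • B) m m' = c * bil B m m' := by
  simp [bil, smul_mulVec]

theorem bil_zero (m m' : Vec K) : bil (0 : Mat K) m m' = 0 := by simp [bil]

theorem bil_add_left (B : Mat K) (m n m' : Vec K) :
    bil B (m + n) m' = bil B m m' + bil B n m' := by simp [bil]

theorem bil_add_right (B : Mat K) (m n m' : Vec K) :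
    bil B m (n + m') = bil B m n + bil B m m' := by simp [bil, mulVec_add]

theorem bil_smul_left (B : Mat K) (c : K) (m m' : Vec K) :
    bil B (c • m) m' = c * bil B m m' := by simp [bil]

theorem bil_smul_right (B : Mat K) (c : K) (m m' : Vec K) :
    bil B m (c • m') = c * bil B m m' := by simp [bil, mulVec_smul]

theorem bil_zero_left (B : Mat K) (m : Vec K) : bil B 0 m = 0 := by simp [bil]

theorem bil_zero_right (B : Mat K) (m : Vec K) : bil B m 0 = 0 := by simp [bil]

theorem bil_sum_left {ι : Type} (T : Finset ι) (B : Mat K) (c : ι → K) (z : ι → Vec K)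
    (m : Vec K) : bil B (∑ i ∈ T, c i • z i) m = ∑ i ∈ T, c i * bil B (z i) m := by
  simp [bil, sum_dotProduct]

theorem bil_transpose (B : Mat K) (m m' : Vec K) : bil Bᵀ m m' = bil B m' m := by
  rw [bil_sum, bil_sum, Finset.sum_comm]
  refine Finset.sum_congr rfl fun i _ => Finset.sum_congr rfl fun j _ => ?_
  simp [mul_comm, mul_left_comm]

theorem bil_symm {S : Mat K} (hS : Sᵀ = S) (m m' : Vec K) : bil S m m' = bil S m' m := by
  rw [← bil_transpose S m' m, hS]

theorem sb_eq (B : Mat K) (m m' : Vec K) : sb B m m' = bil (B + Bᵀ) m m' := by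
  rw [bil_add, bil_transpose, sb]

theorem sb_comm (B : Mat K) (m m' : Vec K) : sb B m m' = sb B m' m := by
  rw [sb, sb, add_comm]

theorem bil_single (B : Mat K) (i j : Fin 4) : bil B (Pi.single i 1) (Pi.single j 1) = B i j := by
  simp [bil]

theorem bil_vecMulVec (f g m m' : Vec K) :
    bil (vecMulVec f g) m m' = (f ⬝ᵥ m) * (g ⬝ᵥ m') := by
  rw [bil_sum]
  simp only [vecMulVec_apply, dotProduct, Finset.sum_mul, Finset.mul_sum]
  rw [Finset.sum_comm]
  refine Finset.sum_congr rfl fun i _ => Finset.sum_congr rfl fun j _ => ?_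
  ring

theorem vec_eq_zero {f : Vec K} (h : ∀ m, f ⬝ᵥ m = 0) : f = 0 := by
  ext k
  simpa using h (Pi.single k 1)

theorem lin_dot {X : Type} [AddCommGroup X] [Module K X] {χ : X → Vec K} (h : IsLinearMap K χ)
    (y : Vec K) : IsLinearMap K (fun s => χ s ⬝ᵥ y) :=
  ⟨fun a b => by rw [h.map_add, add_dotProduct], fun c a => by rw [h.map_smul, smul_dotProduct]⟩

theorem lin_bil {X : Type} [AddCommGroup X] [Module K X] {S : X → Mat K} (h : IsLinearMap K S)
    (y z : Vec K) : IsLinearMap K (fun s => bil (S s) y z) :=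
  ⟨fun a b => by rw [h.map_add, bil_add], fun c a => by rw [h.map_smul, bil_smul, smul_eq_mul]⟩

/-- a covector vanishing on the kernel of a covector is a multiple of it -/
theorem prop_of_ker {f g : Vec K} (h : ∀ m, g ⬝ᵥ m = 0 → f ⬝ᵥ m = 0) : ∃ c : K, f = c • g := by
  obtain ⟨c, hc⟩ := la1 (K := K) (⊤ : Submodule K (Vec K)) (fun (_ : Unit) m => g ⬝ᵥ m)
    (fun _ => ⟨fun a b => dotProduct_add _ _ _, fun c a => by simp⟩) (fun m => f ⬝ᵥ m)
    ⟨fun a b => dotProduct_add _ _ _, fun c a => by simp⟩ (fun m _ hm => h m (hm ()))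
  refine ⟨c (), ?_⟩
  ext k
  simpa using hc (Pi.single k 1) trivial

variable [CharZero K]

/-- a symmetric product of covectors that vanishes -/
theorem prod_zero {f g : Vec K} (h : ∀ m m', (f ⬝ᵥ m) * (g ⬝ᵥ m') + (f ⬝ᵥ m') * (g ⬝ᵥ m) = 0)
    (hg : g ≠ 0) : f = 0 := by
  by_contra hf
  obtain ⟨m, hm⟩ : ∃ m, f ⬝ᵥ m ≠ 0 := by
    by_contra hh; push Not at hh; exact hf (vec_eq_zero hh)
  have h1 : g ⬝ᵥ m = 0 := by
    have := h m m
    have h2 : (f ⬝ᵥ m) * (g ⬝ᵥ m) = 0 := by linear_combination this / 2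
    exact (mul_eq_zero.1 h2).resolve_left hm
  apply hg
  apply vec_eq_zero
  intro m'
  have := h m m'
  rw [h1, mul_zero, add_zero] at this
  exact (mul_eq_zero.1 this).resolve_left hm

/-- equality of two symmetric products -/
theorem prod_eq {f g f' g' : Vec K}
    (h : ∀ m m', (f ⬝ᵥ m) * (g ⬝ᵥ m') + (f ⬝ᵥ m') * (g ⬝ᵥ m)
      = (f' ⬝ᵥ m) * (g' ⬝ᵥ m') + (f' ⬝ᵥ m') * (g' ⬝ᵥ m)) (hg : g' ≠ 0) :
    (∃ c : K, f = c • g') ∨ ∃ c : K, g = c • g' ∧ f' = c • f := by
  by_cases h1 : ∀ m, g' ⬝ᵥ m = 0 → f ⬝ᵥ m = 0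
  · exact Or.inl (prop_of_ker h1)
  · right
    push Not at h1
    obtain ⟨m, hm, hfm⟩ := h1
    have h2 : g ⬝ᵥ m = 0 := by
      have := h m m
      rw [hm] at this
      have h2 : (f ⬝ᵥ m) * (g ⬝ᵥ m) = 0 := by linear_combination this / 2
      exact (mul_eq_zero.1 h2).resolve_left hfm
    obtain ⟨c, hc⟩ : ∃ c : K, g = c • g' := by
      apply prop_of_ker
      intro m' hm'
      have := h m m'
      rw [hm, hm', h2] at this
      simp only [mul_zero, add_zero] at this
      exact (mul_eq_zero.1 this).resolve_left hfm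
    refine ⟨c, hc, ?_⟩
    have h3 : c • f - f' = 0 := by
      apply prod_zero _ hg
      intro m m'
      have := h m m'
      rw [hc] at this
      simp only [sub_dotProduct, smul_dotProduct, smul_eq_mul] at this ⊢
      linear_combination this
    exact (sub_eq_zero.1 h3).symm

/-- a reducible quadric cannot pass through three pairwise non-conjugate points -/
theorem red {α : Type} (T : Finset α) (hT : 3 ≤ T.card) (z : α → Vec K) (B : Mat K)
    (h ζ : Vec K)
    (hB : ∀ m m', sb B m m' = (h ⬝ᵥ m) * (ζ ⬝ᵥ m') + (h ⬝ᵥ m') * (ζ ⬝ᵥ m))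
    (h0 : ∀ b ∈ T, sb B (z b) (z b) = 0)
    (h1 : ∀ b ∈ T, ∀ b' ∈ T, b ≠ b' → sb B (z b) (z b') ≠ 0) : False := by
  classical
  obtain ⟨a, ha, b, hb, c, hc, hab, hac, hbc⟩ := Finset.two_lt_card.1 (by omega : 2 < T.card)
  have key : ∀ b ∈ T, h ⬝ᵥ z b = 0 ∨ ζ ⬝ᵥ z b = 0 := by
    intro b hb
    have := h0 b hb
    rw [hB] at this
    exact mul_eq_zero.1 (by linear_combination this / 2)
  have k1 := h1 a ha b hb hab
  have k2 := h1 a ha c hc hac
  have k3 := h1 b hb c hc hbc
  rw [hB] at k1 k2 k3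
  rcases key a ha with p1 | p1 <;> rcases key b hb with p2 | p2 <;>
    rcases key c hc with p3 | p3 <;> simp_all

omit [CharZero K] in
theorem mat_eq_zero {z : Fin 4 → Vec K} (hz : ∀ f : Vec K, (∀ i, f ⬝ᵥ z i = 0) → f = 0)
    {S : Mat K} (h : ∀ i j, bil S (z i) (z j) = 0) : S = 0 := by
  have h1 : ∀ i, z i ᵥ* S = 0 := fun i => hz _ (fun j => by rw [← bil_eq]; exact h i j)
  have h2 : ∀ m, S *ᵥ m = 0 := fun m => hz _ (fun i => by
    rw [← bil_eq', bil_eq, h1, zero_dotProduct])
  ext i j
  simpa using congrFun (h2 (Pi.single j 1)) i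

omit [CharZero K] in
/-- dimension bound for a space of symmetric matrices with prescribed vanishing Gram entries -/
theorem finrank_le_gram {z : Fin 4 → Vec K} (hz : ∀ f : Vec K, (∀ i, f ⬝ᵥ z i = 0) → f = 0)
    (J : Finset (Fin 4 × Fin 4)) (W : Submodule K (Mat K)) (hs : ∀ S ∈ W, Sᵀ = S)
    (h : ∀ S ∈ W, ∀ i j, (i, j) ∉ J → (j, i) ∉ J → bil S (z i) (z j) = 0) :
    finrank K W ≤ J.card := by
  let F : W →ₗ[K] (J → K) :=
    { toFun := fun S ij => bil S.1 (z ij.1.1) (z ij.1.2)
      map_add' := fun a b => by ext ij; simp [bil_add]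
      map_smul' := fun c a => by ext ij; simp [bil_smul] }
  have hF : Function.Injective F := by
    rw [injective_iff_map_eq_zero]
    intro S hS
    ext1
    apply mat_eq_zero hz
    intro i j
    by_cases h1 : (i, j) ∈ J
    · exact congrFun hS ⟨(i, j), h1⟩
    · by_cases h2 : (j, i) ∈ J
      · rw [bil_symm (hs _ S.2)]
        exact congrFun hS ⟨(j, i), h2⟩
      · exact h _ S.2 i j h1 h2
  have := LinearMap.finrank_le_finrank_of_injective hF
  simpa using this

/-- the symmetric matrices -/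
def Sym (K : Type) [Field K] : Submodule K (Mat K) where
  carrier := {S | Sᵀ = S}
  add_mem' := fun {a b} ha hb => by
    simp only [Set.mem_ofPred_eq] at ha hb ⊢; rw [transpose_add, ha, hb]
  zero_mem' := by simp
  smul_mem' := fun c a ha => by
    simp only [Set.mem_ofPred_eq] at ha ⊢; rw [transpose_smul, ha]

omit [CharZero K] in
theorem finrank_Sym : finrank K (Sym K) ≤ 10 := by
  have := finrank_le_gram (K := K) (z := fun i => Pi.single i 1)
    (fun f hf => by ext k; simpa using hf k)
    (Finset.univ.filter (fun ij : Fin 4 × Fin 4 => ij.1 ≤ ij.2)) (Sym K) (fun S hS => hS)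
    (fun S _ i j h1 h2 => by
      simp only [Finset.mem_filter, Finset.mem_univ, true_and] at h1 h2
      omega)
  exact this.trans (by decide)

/-- there is a quadric through nine points -/
theorem exists_quadric {α : Type} (T : Finset α) (hT : T.card ≤ 9) (z : α → Vec K) :
    ∃ S : Mat K, Sᵀ = S ∧ S ≠ 0 ∧ ∀ u ∈ T, bil S (z u) (z u) = 0 := by
  classical
  obtain ⟨lam, h0, h1⟩ := dep (K := K) (ι := {ij : Fin 4 × Fin 4 // ij.1 ≤ ij.2}) (κ := T)
    (by
      have : Fintype.card {ij : Fin 4 × Fin 4 // ij.1 ≤ ij.2} = 10 := by decide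
      rw [this, Fintype.card_coe]; omega)
    (fun ij u => z u ij.1.1 * z u ij.1.2)
  let B : Mat K := fun i j => if h : i ≤ j then lam ⟨(i, j), h⟩ else 0
  refine ⟨B + Bᵀ, by rw [transpose_add, transpose_transpose, add_comm], fun hB => h0 ?_,
    fun u hu => ?_⟩
  · ext ⟨⟨i, j⟩, hij⟩
    have := congrFun (congrFun hB i) j
    simp only [Matrix.add_apply, transpose_apply, B, Matrix.zero_apply] at this
    simp only at hij
    rw [dif_pos hij] at this
    by_cases hji : j ≤ i
    · have e : i = j := le_antisymm hij hji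
      subst e
      rw [dif_pos hji] at this
      simpa using this
    · rw [dif_neg hji] at this
      simpa using this
  · have h2 : bil B (z u) (z u) = 0 := by
      rw [bil_sum, ← Fintype.sum_prod_type', ← h1 ⟨u, hu⟩]
      rw [← Finset.sum_filter_add_sum_filter_not Finset.univ (fun ij : Fin 4 × Fin 4 => ij.1 ≤ ij.2)]
      rw [Finset.sum_eq_zero (s := Finset.univ.filter (fun ij : Fin 4 × Fin 4 => ¬ ij.1 ≤ ij.2)),
        add_zero]
      · rw [Finset.sum_subtype (p := fun ij : Fin 4 × Fin 4 => ij.1 ≤ ij.2) _ (by simp)]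
        refine Finset.sum_congr rfl fun ij _ => ?_
        simp only [B, dif_pos ij.2]
        ring
      · intro ij hij
        simp only [Finset.mem_filter, Finset.mem_univ, true_and] at hij
        simp only [B, dif_neg hij]
        ring
    rw [← sb_eq, sb, h2, add_zero]

end Pool.Agent.Dress
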