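import Pool.Agent.Lib.MP_d237f6_co.TwoB

/-! A vertex of degree seven has at most four neighbours of degree five. -/

set_option autoImplicit false

namespace Pool.Agent.Dress

open Matrix Module

variable {K : Type} [Field K] {V : Type} [DecidableEq V] [Fintype V] {c : Ctx V K}

namespace Ctx

/-- five neighbours of degree five -/
def SevS (c : Ctx V K) (a : V) (U : Finset V) : Prop :=
  U.card = 5 ∧ ∀ u ∈ U, u ∈ c.N a ∧ (c.N u).card = 5

variable {a : V} {U : Finset V}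

theorem SevS.indep (h : c.SevS a U) : ∀ u ∈ U, ∀ j ∈ c.N u, j ∉ U :=
  fun u hu j hj hjU => c.no3 a u j (h.2 u hu).1 (h.2 j hjU).1 hj

theorem SevS.notMem (h : c.SevS a U) : a ∉ U := fun ha => c.nirr a (h.2 a ha).1

theorem SevS.disj (h : c.SevS a U) {u u' : V} (hu : u ∈ U) (hu' : u' ∈ U) (hne : u ≠ u') :
    Disjoint ((c.N u).erase a) ((c.N u').erase a) := by
  rw [Finset.disjoint_left]
  intro b k1 k2
  rcases c.no4 a u b u' (h.2 u hu).1 (Finset.mem_of_mem_erase k1)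
    (c.nsymm (Finset.mem_of_mem_erase k2)) (c.nsymm (h.2 u' hu').1) with e | e
  · exact Finset.ne_of_mem_erase k1 e.symm
  · exact hne e

variable [CharZero K]

theorem SevS.ident (h : c.SevS a U) {s : St V K} (hs : s ∈ c.T1 U a) :
    ∑ u ∈ U, c.Ω u a * ((s.1 a - c.p a ᵥ* s.2 u) ⬝ᵥ c.p u) = 0 := by
  rw [← c.star_id U h.indep s.1 hs.1]
  refine Finset.sum_congr rfl fun u hu => ?_
  rw [c.star_lin (c.nsymm (h.2 u hu).1) s.1 (s.2 u) (fun b hb hne => hs.2 u b ⟨hu, hb, hne⟩),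
    (c.typeI (h.2 u hu).2 (c.nsymm (h.2 u hu).1)).1, zero_mul, sub_zero]

theorem SevS.zed (h : c.SevS a U) {s : St V K} (hs : s ∈ c.T1 U a) {u₀ : V} (hu₀ : u₀ ∈ U)
    (h0 : ∀ u ∈ U, u ≠ u₀ → (s.1 a - c.p a ᵥ* s.2 u) ⬝ᵥ c.p u = 0) :
    ∀ u ∈ U, s.1 a = c.p a ᵥ* s.2 u := by
  have h1 : ∀ u ∈ U, (s.1 a - c.p a ᵥ* s.2 u) ⬝ᵥ c.p u = 0 := by
    intro u hu
    by_cases e : u = u₀
    · have := h.ident hs
      rw [Finset.sum_eq_single_of_mem u₀ hu₀ (fun u hu hne => by rw [h0 u hu hne, mul_zero])]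
        at this
      rw [e]
      exact (mul_eq_zero.1 this).resolve_left (c.om_ne (c.nsymm (h.2 u₀ hu₀).1))
    · exact h0 u hu e
  intro u hu
  rw [← sub_eq_zero]
  ext k
  have hau : a ≠ u := fun e => h.notMem (e ▸ hu)
  have k1 := congrArg (c.d u k) (h.ident hs)
  have k2 := h.ident (c.act_mem (fun v b hb => h.indep v hb.1 b hb.2.1) hu k s hs)
  rw [map_sum, map_zero, Finset.sum_congr rfl (g := fun v => c.Ω v a *
      (((act (c.d u k) s).1 a - c.p a ᵥ* (act (c.d u k) s).2 v) ⬝ᵥ c.p v)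
      + c.Ω v a * ((s.1 a - c.p a ᵥ* s.2 v) ⬝ᵥ dv (c.d u k) (c.p v))) (fun v hv => by
      rw [d_mul, d_dot, h1 v hv, dv_sub, dv_vecMul _ _ _ (c.d_ne hau k)]
      simp only [act]
      ring), Finset.sum_add_distrib, k2, zero_add,
    Finset.sum_eq_single_of_mem u hu (fun v _ hne => by
      rw [c.d_ne hne, dotProduct_zero, mul_zero]), c.d_self] at k1
  simpa using (mul_eq_zero.1 k1).resolve_left (c.om_ne (c.nsymm (h.2 u hu).1))

/-- a column of the difference of two of the matrices -/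
def col (u₁ u : V) (k : Fin 4) (s : St V K) : Vec K := fun i => s.2 u i k - s.2 u₁ i k

omit [DecidableEq V] [Fintype V] [CharZero K] in
theorem col_lin (u₁ u : V) (k : Fin 4) : IsLinearMap K (col (K := K) u₁ u k) :=
  ⟨fun a b => by ext i; simp [col]; ring, fun r a => by ext i; simp [col]; ring⟩

omit [DecidableEq V] [Fintype V] [CharZero K] in
theorem col_act (u₁ u : V) (k : Fin 4) (δ : Der K) (s : St V K) :
    col u₁ u k (act δ s) = dv δ (col u₁ u k s) := by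
  ext i; simp [col, act, dv, dm]

omit [DecidableEq V] [Fintype V] [CharZero K] in
theorem col_dot (u₁ u : V) (k : Fin 4) (s : St V K) (y : Vec K) :
    col u₁ u k s ⬝ᵥ y = (y ᵥ* s.2 u) k - (y ᵥ* s.2 u₁) k := by
  simp only [col, dotProduct, vecMul, Fin.sum_univ_four]; ring

omit [DecidableEq V] [Fintype V] [CharZero K] in
theorem col_bil (u₁ u : V) (s : St V K) (m m' : Vec K) :
    bil (s.2 u) m m' = bil (s.2 u₁) m m' + ∑ k, m' k * (col u₁ u k s ⬝ᵥ m) := by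
  simp only [bil_sum, col, dotProduct, Fin.sum_univ_four]; ring

/-- the states coming from flexes that extend to `a` -/
def Good (c : Ctx V K) (a : V) (U : Finset V) (s : St V K) : Prop :=
  s ∈ c.T1 U a ∧ ∀ u ∈ U, s.1 a = c.p a ᵥ* s.2 u

omit [CharZero K] in
theorem Good.mem {s : St V K} (h : c.Good a U s) : s ∈ c.T2 U a :=
  ⟨h.1.1.mono (Finset.subset_insert _ _), h.1.2⟩

omit [CharZero K] in
theorem Good.col {s : St V K} (h : c.Good a U s) {u₁ u : V} (h₁ : u₁ ∈ U) (hu : u ∈ U)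
    (k : Fin 4) : col u₁ u k s ⬝ᵥ c.p a = 0 := by
  rw [col_dot, ← h.2 u hu, ← h.2 u₁ h₁, sub_self]

theorem Good.q {s : St V K} (h : c.Good a U s) (ha : a ∉ U) {u : V} (hu : u ∈ U) :
    bil (s.2 u) (c.p a) (c.p a) = 0 := by
  have := h.1.1 a a ha ha (Or.inr rfl)
  rw [c.ell_lin (h.2 u hu) (h.2 u hu), sb] at this
  linear_combination this / 2

theorem SevS.obs (h : c.SevS a U) (hD : (c.N a).card = 7) {u₁ : V} (h₁ : u₁ ∈ U) :
    ∃ (J : Finset V) (O : J → St V K → K), Fintype.card J ≤ 3 ∧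
      (∀ i, IsLinearMap K (O i)) ∧ ∀ s ∈ c.T2 U a, (∀ i, O i s = 0) →
        bil (s.2 u₁) (c.p a) (c.p a) = 0 ∧
          ∀ uk : U × Fin 4, col u₁ uk.1 uk.2 s ⬝ᵥ c.p a = 0 := by
  have hcard : (insert a ((c.N a).erase u₁)).card = 7 := by
    rw [Finset.card_insert_of_notMem (fun h => c.nirr a (Finset.mem_of_mem_erase h)),
      Finset.card_erase_of_mem (h.2 u₁ h₁).1]
    omega
  obtain ⟨T₀, O, h0, h4, hO, hx⟩ := c.obs (insert a ((c.N a).erase u₁)) (by omega)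
    (fun z (s : St V K) => if z = a then 0 else if z ∈ U then bil (s.2 z) (c.p a) (c.p z)
      else -(s.1 z ⬝ᵥ c.p a)) (fun z => by
      by_cases k : z = a
      · simp only [k, if_true]; exact ⟨fun _ _ => by simp, fun _ _ => by simp⟩
      · by_cases k' : z ∈ U
        · simp only [k, k', if_false, if_true]
          exact lin_bil (snd_lin z) _ _
        · simp only [k, k', if_false]
          exact ⟨fun _ _ => by simp; ring, fun _ _ => by simp⟩)
  refine ⟨_, O, by rw [Fintype.card_coe, Finset.card_sdiff_of_subset h0]; omega, hO,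
    fun s hs hz => ?_⟩
  obtain ⟨ξ, hξ⟩ := hx s hz
  have hf := c.flex_update hs.1 ξ (fun w hw hne => by
    have := hξ w (Finset.mem_insert_of_mem (Finset.mem_erase.2 ⟨fun e => hne (e ▸ h₁), hw⟩))
    rwa [if_neg (c.ne_of hw), if_neg hne] at this) (by simpa using hξ a (by simp))
  have ht : (Function.update s.1 a ξ, s.2) ∈ c.T1 U a := by
    refine ⟨hf, fun u b h => ?_⟩
    show Function.update s.1 a _ b = _
    rw [Function.update_of_ne h.2.2]
    exact hs.2 u b h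
  have hg : c.Good a U (Function.update s.1 a ξ, s.2) := ⟨ht, h.zed ht h₁ (fun u hu hne => by
    have := hξ u (Finset.mem_insert_of_mem (Finset.mem_erase.2 ⟨hne, (h.2 u hu).1⟩))
    rw [if_neg (c.ne_of (h.2 u hu).1), if_pos hu] at this
    simp only [Function.update_self, sub_dotProduct, this, ← bil_eq, sub_self])⟩
  exact ⟨(hg.q h.notMem h₁ :), fun uk => (hg.col h₁ uk.1.2 uk.2 :)⟩

theorem SevS.exists_u (h : c.SevS a U) {u : V} (hu : u ∈ U) :
    ∃ s, c.Good a U s ∧ bil (s.2 u) (c.p u) (c.p u) ≠ 0 ∧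
      ∀ u' ∈ U, u' ≠ u → bil (s.2 u') (c.p u') (c.p u') = 0 := by
  obtain ⟨t, ht, hq⟩ := c.exists_s1 (h.2 u hu).2
  have hex : ∀ v, ∃ B : Mat K, (v = u → B = t.2 u) ∧
      (v ∈ U → ∀ b ∈ (c.N v).erase a, t.1 b = c.p b ᵥ* B) := by
    intro v
    by_cases e : v = u
    · exact ⟨t.2 u, fun _ => rfl, fun _ b hb => ht.2 u b ⟨rfl, e ▸ Finset.mem_of_mem_erase hb⟩⟩
    by_cases hv : v ∈ U
    · obtain ⟨B, hB⟩ := c.exists_mat _ (c.card_er (c.nsymm (h.2 v hv).1) (h.2 v hv).2).le t.1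
      exact ⟨B, fun e' => absurd e' e, fun _ => hB⟩
    · exact ⟨0, fun e' => absurd e' e, fun hv' => absurd hv' hv⟩
  choose B hB1 hB2 using hex
  have hs : (t.1, B) ∈ c.T1 U a := ⟨ht.1.mono (by simpa using hu), fun v b hb =>
    hB2 v hb.1 b (Finset.mem_erase.2 ⟨hb.2.2, hb.2.1⟩)⟩
  have hne : ∀ v ∈ U, ∀ b ∈ c.N v, b ∉ ({u} : Finset V) := fun v hv b hb e =>
    h.indep v hv b hb (Finset.mem_singleton.1 e ▸ hu)
  have hv : ∀ v ∈ U, v ≠ u → t.1 v = -(B v *ᵥ c.p v) := fun v hv e =>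
    c.ext_v _ (c.card_er (c.nsymm (h.2 v hv).1) (h.2 v hv).2).ge t.1 (B v) (hB2 v hv)
      (fun b hb => ht.1 v b (by simpa using e) (hne v hv b (Finset.mem_of_mem_erase hb))
        (Or.inl (Finset.mem_of_mem_erase hb)))
  refine ⟨(t.1, B), ⟨hs, h.zed hs hu fun v hv' e => ?_⟩, by simpa [hB1 u rfl] using hq,
    fun v hv' e => ?_⟩
  · have := ht.1 v a (by simpa using e) (hne v hv' a (c.nsymm (h.2 v hv').1))
      (Or.inl (c.nsymm (h.2 v hv').1))
    rw [Gen.ell, hv v hv' e, neg_dotProduct, ← bil_eq'] at this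
    simp only [sub_dotProduct, ← bil_eq]
    linear_combination this
  · have := ht.1 v v (by simpa using e) (by simpa using e) (Or.inr rfl)
    rw [Gen.ell, hv v hv' e, neg_dotProduct, ← bil_eq'] at this
    simp only
    linear_combination -this / 2

theorem SevS.family (h : c.SevS a U) : ∃ σ : Option U → St V K, (∀ i, c.Good a U (σ i)) ∧
    (∀ v ∈ U, ∀ b ∈ c.N v, c.φ0 b = c.p b ᵥ* (σ none).2 v) ∧
    ∀ lam : Option U → K, (∀ u ∈ U, ∀ m m', sb ((∑ i, lam i • σ i).2 u) m m' = 0) → lam = 0 := by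
  obtain ⟨s, hs1, hs2⟩ := c.exists_s0
  choose t ht hq hq' using fun u : U => h.exists_u u.2
  refine ⟨fun i => i.elim s t, ?_, fun v hv => (hs2 v (h.2 v hv).2).1, fun lam hl => ?_⟩
  · rintro (_ | u)
    · exact ⟨⟨hs1 ▸ c.flex0' _, fun v b hb => hs1 ▸ (hs2 v (h.2 v hb.1).2).1 b hb.2.1⟩,
        fun u hu => hs1 ▸ (hs2 u (h.2 u hu).2).1 a (c.nsymm (h.2 u hu).1)⟩
    · exact ht u
  · have key : ∀ u m m', sb ((∑ i, lam i • (fun i : Option U => i.elim s t) i).2 u) m m'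
        = lam none * sb (s.2 u) m m' + ∑ i : U, lam (some i) * sb ((t i).2 u) m m' := by
      intro u m m'
      have := map_sum ((lin_sb (snd_lin (K := K) u) m m').mk' _)
        (fun i => lam i • (fun i : Option U => i.elim s t) i) Finset.univ
      simp only [IsLinearMap.mk'_apply, map_smul, smul_eq_mul] at this
      rw [this, Fintype.sum_option]
      rfl
    have k1 : ∀ u : U, lam (some u) = 0 := by
      intro u
      have := hl u u.2 (c.p u) (c.p u)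
      rw [key, Finset.sum_eq_single u (fun i _ hne => by
        rw [sb, hq' i u u.2 (fun e => hne (Subtype.ext e).symm)]; ring) (by simp), sb, sb,
        (hs2 u (h.2 u u.2).2).2] at this
      apply mul_right_cancel₀ (hq u)
      linear_combination this / 2
    obtain ⟨u, hu⟩ : U.Nonempty := Finset.card_pos.1 (by rw [h.1]; omega)
    ext (_ | i)
    · by_contra hne
      apply c.s0_nz (h.2 u hu).2 (hs2 u (h.2 u hu).2).1
      intro m m'
      have := hl u hu m m'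
      simp only [key, k1, zero_mul, Finset.sum_const_zero, add_zero] at this
      exact (mul_eq_zero.1 this).resolve_left hne
    · exact k1 i

theorem SevS.twelve (h : c.SevS a U) {u₁ : V} {s : St V K} (hs : s ∈ c.T2 U a)
    (h0 : ∀ u ∈ U, ∀ k, col u₁ u k s = 0) : ∀ u ∈ U, ∀ m m', sb (s.2 u) m m' = 0 := by
  have e : ∀ u ∈ U, ∀ m m', bil (s.2 u) m m' = bil (s.2 u₁) m m' := by
    intro u hu m m'
    rw [col_bil u₁ u]
    simp [h0 u hu]
  have := c.q10 (U.biUnion fun u => (c.N u).erase a) (by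
    rw [Finset.card_biUnion (fun u hu u' hu' hne => h.disj hu hu' hne),
      Finset.sum_congr rfl (g := fun _ => 4)
        (fun u hu => c.card_er (c.nsymm (h.2 u hu).1) (h.2 u hu).2)]
    simp [h.1]) (s.2 u₁) (fun b hb => by
    obtain ⟨u, hu, hb⟩ := Finset.mem_biUnion.1 hb
    have k1 : b ∉ insert a U := by
      rw [Finset.mem_insert, not_or]
      exact ⟨Finset.ne_of_mem_erase hb, h.indep u hu b (Finset.mem_of_mem_erase hb)⟩
    have k2 := hs.2 u b ⟨hu, Finset.mem_of_mem_erase hb, Finset.ne_of_mem_erase hb⟩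
    have := hs.1 b b k1 k1 (Or.inr rfl)
    rw [c.ell_lin k2 k2, sb, e u hu] at this
    linear_combination this / 2)
  intro u hu m m'
  rw [sb, e u hu, e u hu]
  exact this m m'

omit [CharZero K] in
theorem SevS.fdc (h : c.SevS a U) {u₁ : V} {n : ℕ} (e : Fin n → U × Fin 4) (u : V) (k : Fin 4)
    (r : Fin n → K) (hr : ∀ s ∈ c.T2 U a,
      col u₁ u k s ⬝ᵥ c.p a = ∑ l, r l * (col u₁ (e l).1 (e l).2 s ⬝ᵥ c.p a))
    {s : St V K} (hs : s ∈ c.T2 U a) (hz : ∀ l, col u₁ (e l).1 (e l).2 s ⬝ᵥ c.p a = 0)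
    (m : Vec K) : col u₁ u k s ⬝ᵥ m = ∑ l, r l * (col u₁ (e l).1 (e l).2 s ⬝ᵥ m) := by
  have := fd (c.d a) (c.p a) (c.d_self a) (c.T2 U a) (fun k => act (c.d a k))
    (c.actT2 _ a h.indep) (fun _ => 0) (fun k _ => (dm_zero _).symm)
    (col u₁ u k) (fun j => col_act _ _ _ _) (fun l => col u₁ (e l).1 (e l).2)
    (fun l j => col_act _ _ _ _) r (fun s hs => by simpa [bil_zero] using hr s hs) s hs hz m
  simpa [sb, bil_zero] using this

omit [DecidableEq V] [Fintype V] [CharZero K] in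
theorem lin_sum {X Y ι : Type} [AddCommGroup X] [Module K X] [AddCommGroup Y] [Module K Y]
    [Fintype ι] {f : X → Y} (hf : IsLinearMap K f) (lam : ι → K) (σ : ι → X) :
    f (∑ i, lam i • σ i) = ∑ i, lam i • f (σ i) := by
  have := map_sum (hf.mk' _) (fun i => lam i • σ i) Finset.univ
  simpa only [IsLinearMap.mk'_apply, map_smul] using this

theorem SevS.caseI (h : c.SevS a U) {u₁ : V} (h₁ : u₁ ∈ U) (e : Fin 3 → U × Fin 4)
    (d : Fin 3 → K) (hd : ∀ s ∈ c.T2 U a,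
      bil (s.2 u₁) (c.p a) (c.p a) = ∑ l, d l * (col u₁ (e l).1 (e l).2 s ⬝ᵥ c.p a))
    (he : ∀ uk : U × Fin 4, ∃ r : Fin 3 → K, ∀ s ∈ c.T2 U a,
      col u₁ uk.1 uk.2 s ⬝ᵥ c.p a = ∑ l, r l * (col u₁ (e l).1 (e l).2 s ⬝ᵥ c.p a)) : False := by
  classical
  choose r hr using he
  set Ψ : St V K → Fin 3 → Vec K := fun s l => col u₁ (e l).1 (e l).2 s with hΨ
  set η : U → Fin 3 → Vec K := fun u l k => c.d a k (d l) + r (u, k) l with hη
  have hq : ∀ s ∈ c.T2 U a, (∀ l, Ψ s l ⬝ᵥ c.p a = 0) → ∀ (u : U) m m', sb (s.2 u) m m'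
      = ∑ l, ((η u l ⬝ᵥ m) * (Ψ s l ⬝ᵥ m') + (η u l ⬝ᵥ m') * (Ψ s l ⬝ᵥ m)) := by
    intro s hs hz u m m'
    have k1 := sd (c.d a) (c.p a) (c.d_self a) (c.T2 U a) (fun k => act (c.d a k))
      (c.actT2 _ a h.indep) (fun s => s.2 u₁) (fun _ _ => rfl) (fun _ => 0)
      (fun k _ => (dv_zero _).symm) (fun l => col u₁ (e l).1 (e l).2)
      (fun l j => col_act _ _ _ _) d (fun s hs => by simpa using hd s hs) s hs hz m m'
    have k2 := fun k => h.fdc e u k (r (u, k)) (hr (u, k)) hs hz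
    rw [sb, col_bil u₁ u, col_bil u₁ u s m' m]
    rw [sb] at k1
    simp only [k2]
    have k3 : ∀ l m, η u l ⬝ᵥ m = (fun k => c.d a k (d l)) ⬝ᵥ m + ∑ k, r (u, k) l * m k := by
      intro l m
      simp only [hη, dotProduct, add_mul, Finset.sum_add_distrib]
    simp only [k3, hΨ, Fin.sum_univ_three, Fin.sum_univ_four] at k1 ⊢
    linear_combination k1
  obtain ⟨σ, hσ, hB, hind⟩ := h.family
  have hz : ∀ i l, Ψ (σ i) l ⬝ᵥ c.p a = 0 := fun i l => (hσ i).col h₁ (e l).1.2 _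
  have hpt : ∀ i (u : U), ∀ b ∈ (c.N u).erase a,
      ∑ l, (η u l ⬝ᵥ c.p b) * (Ψ (σ i) l ⬝ᵥ c.p b) = 0 := by
    intro i u b hb
    have k1 : b ∉ U := h.indep u u.2 b (Finset.mem_of_mem_erase hb)
    have k2 := (hσ i).1.2 u b ⟨u.2, Finset.mem_of_mem_erase hb, Finset.ne_of_mem_erase hb⟩
    have := (hσ i).1.1 b b k1 k1 (Or.inr rfl)
    rw [c.ell_lin k2 k2, hq _ (hσ i).mem (hz i), Finset.sum_add_distrib] at this
    linear_combination this / 2
  have hnt : ∀ u : U, 3 ≤ (((c.N u).erase a).filter (fun b => ∃ l, η u l ⬝ᵥ c.p b ≠ 0)).card := by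
    intro u
    have := few (T := (c.N u).erase a) (fun b => ∃ l, η u l ⬝ᵥ c.p b ≠ 0)
      (fun b hb b' hb' hne => by
        by_contra hc
        simp only [not_or, not_exists, not_not] at hc
        apply c.s0_sb (hB u u.2) (Finset.mem_of_mem_erase hb) (Finset.mem_of_mem_erase hb') hne
        rw [hq _ (hσ none).mem (hz none)]
        simp [hc.1, hc.2])
    rw [c.card_er (c.nsymm (h.2 u u.2).1) (h.2 u u.2).2] at this
    omega
  obtain ⟨u₂, h₂, hne⟩ := Finset.exists_mem_ne (by rw [h.1]; omega) u₁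
  obtain ⟨b₁, m₁, b₂, m₂, b₃, m₃, n12, n13, n23⟩ :=
    Finset.two_lt_card.1 (lt_of_lt_of_le (by omega) (hnt ⟨u₁, h₁⟩))
  obtain ⟨b₄, m₄⟩ := Finset.card_pos.1 (lt_of_lt_of_le (by omega) (hnt ⟨u₂, h₂⟩))
  rw [Finset.mem_filter] at m₁ m₂ m₃ m₄
  have dd := Finset.disjoint_left.1 (h.disj h₂ h₁ hne) m₄.1
  have n14 : b₁ ≠ b₄ := fun e => dd (e ▸ m₁.1)
  have n24 : b₂ ≠ b₄ := fun e => dd (e ▸ m₂.1)
  have n34 : b₃ ≠ b₄ := fun e => dd (e ▸ m₃.1)
  have a1 := Finset.ne_of_mem_erase m₁.1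
  have a2 := Finset.ne_of_mem_erase m₂.1
  have a3 := Finset.ne_of_mem_erase m₃.1
  have a4 := Finset.ne_of_mem_erase m₄.1
  set θ₁ : Fin 3 → K := fun l => η ⟨u₁, h₁⟩ l ⬝ᵥ c.p b₁ with hθ₁
  set θ₂ : Fin 3 → K := fun l => η ⟨u₁, h₁⟩ l ⬝ᵥ c.p b₂ with hθ₂
  set θ₃ : Fin 3 → K := fun l => η ⟨u₁, h₁⟩ l ⬝ᵥ c.p b₃ with hθ₃
  set θ₄ : Fin 3 → K := fun l => η ⟨u₂, h₂⟩ l ⬝ᵥ c.p b₄ with hθ₄
  have hlf : ∀ (θ : Fin 3 → K) (z : Vec K),
      IsLinearMap K (fun x : Fin 3 → Vec K => ∑ l, θ l * (x l ⬝ᵥ z)) := fun θ z =>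
    ⟨fun x y => by simp only [Pi.add_apply, add_dotProduct, mul_add, Finset.sum_add_distrib],
     fun t x => by
      simp only [Pi.smul_apply, smul_dotProduct, smul_eq_mul, Finset.mul_sum]
      exact Finset.sum_congr rfl fun _ _ => by ring⟩
  obtain ⟨lam, hlam0, hlam⟩ := dep2 (K := K) (X := Fin 3 → Vec K) (ι := Option U)
    (κ := Fin 4 ⊕ Fin 3) (fun i => Ψ (σ i))
    (by
      rw [Fintype.linearIndependent_iff]
      intro g hg
      have hm : ∑ i, g i • σ i ∈ c.T2 U a :=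
        Submodule.sum_mem _ fun i _ => Submodule.smul_mem _ _ (hσ i).mem
      have hz0 : ∀ l, Ψ (∑ i, g i • σ i) l = 0 := by
        intro l
        have := congrFun hg l
        simp only [Finset.sum_apply, Pi.smul_apply, Pi.zero_apply] at this
        rw [← this]
        exact lin_sum (col_lin _ _ _) g σ
      have := hind g (fun u hu m m' => by
        rw [hq _ hm (fun l => by rw [hz0, zero_dotProduct]) ⟨u, hu⟩]
        simp only [hz0, zero_dotProduct, mul_zero, add_zero, Finset.sum_const_zero])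
      exact fun i => congrFun this i)
    (Sum.elim ![fun x => ∑ l, θ₁ l * (x l ⬝ᵥ c.p b₁), fun x => ∑ l, θ₂ l * (x l ⬝ᵥ c.p b₂),
      fun x => ∑ l, θ₃ l * (x l ⬝ᵥ c.p b₃), fun x => ∑ l, θ₄ l * (x l ⬝ᵥ c.p b₄)]
      (fun l x => x l ⬝ᵥ c.p a))
    (by
      rintro (j | l)
      · fin_cases j <;> exact hlf _ _
      · exact ⟨fun x y => by simp, fun t x => by simp⟩)
    (by
      rintro (j | l) i
      · fin_cases j
        · exact hpt i ⟨u₁, h₁⟩ b₁ m₁.1
        · exact hpt i ⟨u₁, h₁⟩ b₂ m₂.1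
        · exact hpt i ⟨u₁, h₁⟩ b₃ m₃.1
        · exact hpt i ⟨u₂, h₂⟩ b₄ m₄.1
      · exact hz i l)
    (by simp [finrank_pi_fintype, h.1])
  set l₁ := lam (Sum.inl 0)
  set l₂ := lam (Sum.inl 1)
  set l₃ := lam (Sum.inl 2)
  set l₄ := lam (Sum.inl 3)
  have rel : ∀ l, (l₁ * θ₁ l) • c.p b₁ + (l₂ * θ₂ l) • c.p b₂ + (l₃ * θ₃ l) • c.p b₃
      + (l₄ * θ₄ l) • c.p b₄ + lam (Sum.inr l) • c.p a = 0 := by
    intro l
    apply vec_eq_zero
    intro m
    have := hlam (Pi.single l m)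
    simp only [Fintype.sum_sum_type, Fin.sum_univ_four, Sum.elim_inl, Sum.elim_inr,
      Matrix.cons_val] at this
    simp only [add_dotProduct, smul_dotProduct, smul_eq_mul]
    simp only [dotProduct_comm _ m]
    rw [← this]
    fin_cases l <;> simp [Fin.sum_univ_three] <;> ring
  have ind4 : ∀ (i j k l : V) (x y z w : K), i ≠ j → i ≠ k → i ≠ l → j ≠ k → j ≠ l → k ≠ l →
      x • c.p i + y • c.p j + z • c.p k + w • c.p l = 0 → x = 0 ∧ y = 0 ∧ z = 0 ∧ w = 0 := by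
    intro i j k l x y z w e1 e2 e3 e4 e5 e6 h0
    have := c.indep {i, j, k, l} Finset.card_le_four
      (fun v => if v = i then x else if v = j then y else if v = k then z else w) (by
        rw [Finset.sum_insert (by simp [e1, e2, e3]), Finset.sum_insert (by simp [e4, e5]),
          Finset.sum_pair e6]
        simp only [if_true, e1.symm, e2.symm, e3.symm, e4.symm, e5.symm, e6.symm, if_false]
        rw [← h0]; abel)
    refine ⟨by simpa using this i (by simp), by simpa [e1.symm] using this j (by simp),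
      by simpa [e2.symm, e4.symm] using this k (by simp),
      by simpa [e3.symm, e5.symm, e6.symm] using this l (by simp)⟩
  obtain ⟨j₁, t₁⟩ := m₁.2
  obtain ⟨j₂, t₂⟩ := m₂.2
  obtain ⟨j₃, t₃⟩ := m₃.2
  obtain ⟨j₄, t₄⟩ := m₄.2
  have hl₄ : l₄ ≠ 0 := by
    intro h0
    have key := fun l => ind4 b₁ b₂ b₃ a _ _ _ _ n12 n13 a1 n23 a2 a3 (by
      have := rel l
      rwa [h0, zero_mul, zero_smul, add_zero] at this)
    apply hlam0
    ext (j | l)
    · fin_cases j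
      · exact (mul_eq_zero.1 (key j₁).1).resolve_right t₁
      · exact (mul_eq_zero.1 (key j₂).2.1).resolve_right t₂
      · exact (mul_eq_zero.1 (key j₃).2.2.1).resolve_right t₃
      · exact h0
    · exact (key l).2.2.2
  have hl₁ : l₁ ≠ 0 := by
    intro h0
    have := rel j₄
    rw [h0, zero_mul, zero_smul, zero_add] at this
    exact mul_ne_zero hl₄ t₄ (ind4 b₂ b₃ b₄ a _ _ _ _ n23 n24 a2 n34 a3 a4 this).2.2.1
  have hl₂ : l₂ ≠ 0 := by
    intro h0
    have := rel j₄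
    rw [h0, zero_mul, zero_smul, add_zero] at this
    exact mul_ne_zero hl₄ t₄ (ind4 b₁ b₃ b₄ a _ _ _ _ n13 n14 a1 n34 a3 a4 this).2.2.1
  have par : ∀ l, θ₄ j₄ * θ₁ l = θ₄ l * θ₁ j₄ ∧ θ₄ j₄ * θ₂ l = θ₄ l * θ₂ j₄ := by
    intro l
    have := ind4 b₁ b₂ b₃ a (l₁ * (θ₄ j₄ * θ₁ l - θ₄ l * θ₁ j₄))
      (l₂ * (θ₄ j₄ * θ₂ l - θ₄ l * θ₂ j₄)) (l₃ * (θ₄ j₄ * θ₃ l - θ₄ l * θ₃ j₄))
      (θ₄ j₄ * lam (Sum.inr l) - θ₄ l * lam (Sum.inr j₄)) n12 n13 a1 n23 a2 a3 (by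
        ext k
        have e1 := congrFun (rel l) k
        have e2 := congrFun (rel j₄) k
        simp only [Pi.add_apply, Pi.smul_apply, smul_eq_mul, Pi.zero_apply] at e1 e2 ⊢
        linear_combination θ₄ j₄ * e1 - θ₄ l * e2)
    exact ⟨sub_eq_zero.1 ((mul_eq_zero.1 this.1).resolve_left hl₁),
      sub_eq_zero.1 ((mul_eq_zero.1 this.2.1).resolve_left hl₂)⟩
  have t₄' : θ₄ j₄ ≠ 0 := t₄
  have s₁ : θ₁ j₄ ≠ 0 := fun h0 => t₁ (by
    have := (par j₁).1
    rw [h0, mul_zero] at this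
    exact (mul_eq_zero.1 this).resolve_left t₄')
  have s₂ : θ₂ j₄ ≠ 0 := fun h0 => t₂ (by
    have := (par j₂).2
    rw [h0, mul_zero] at this
    exact (mul_eq_zero.1 this).resolve_left t₄')
  apply c.s0_sb (hB u₁ h₁) (Finset.mem_of_mem_erase m₁.1) (Finset.mem_of_mem_erase m₂.1) n12
  have k0 := hq _ (hσ none).mem (hz none) ⟨u₁, h₁⟩ (c.p b₁) (c.p b₂)
  have k1 := hpt none ⟨u₁, h₁⟩ b₁ m₁.1
  have k2 := hpt none ⟨u₁, h₁⟩ b₂ m₂.1
  have p0 := par 0
  have p1 := par 1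
  have p2 := par 2
  simp only [Fin.sum_univ_three] at k0 k1 k2
  rw [k0]
  change θ₁ 0 * _ + θ₁ 1 * _ + θ₁ 2 * _ = 0 at k1
  change θ₂ 0 * _ + θ₂ 1 * _ + θ₂ 2 * _ = 0 at k2
  change θ₁ 0 * _ + θ₂ 0 * _ + (θ₁ 1 * _ + θ₂ 1 * _) + (θ₁ 2 * _ + θ₂ 2 * _) = 0
  apply mul_left_cancel₀ (mul_ne_zero t₄' (mul_ne_zero s₁ s₂))
  generalize Ψ (σ none) 0 ⬝ᵥ c.p b₁ = x0 at *
  generalize Ψ (σ none) 1 ⬝ᵥ c.p b₁ = x1 at *
  generalize Ψ (σ none) 2 ⬝ᵥ c.p b₁ = x2 at *
  generalize Ψ (σ none) 0 ⬝ᵥ c.p b₂ = y0 at *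
  generalize Ψ (σ none) 1 ⬝ᵥ c.p b₂ = y1 at *
  generalize Ψ (σ none) 2 ⬝ᵥ c.p b₂ = y2 at *
  linear_combination θ₄ j₄ * θ₂ j₄ ^ 2 * k1 + θ₄ j₄ * θ₁ j₄ ^ 2 * k2
    + (θ₁ j₄ * θ₂ j₄ * y0 - θ₂ j₄ ^ 2 * x0) * p0.1 + (θ₁ j₄ * θ₂ j₄ * y1 - θ₂ j₄ ^ 2 * x1) * p1.1
    + (θ₁ j₄ * θ₂ j₄ * y2 - θ₂ j₄ ^ 2 * x2) * p2.1
    + (θ₁ j₄ * θ₂ j₄ * x0 - θ₁ j₄ ^ 2 * y0) * p0.2 + (θ₁ j₄ * θ₂ j₄ * x1 - θ₁ j₄ ^ 2 * y1) * p1.2
    + (θ₁ j₄ * θ₂ j₄ * x2 - θ₁ j₄ ^ 2 * y2) * p2.2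

theorem SevS.false (h : c.SevS a U) (hD : (c.N a).card = 7) : False := by
  classical
  obtain ⟨u₁, h₁⟩ : U.Nonempty := Finset.card_pos.1 (by rw [h.1]; omega)
  obtain ⟨J, O, hJ, hO, hx⟩ := h.obs hD h₁
  have : Nonempty (U × Fin 4) := ⟨(⟨u₁, h₁⟩, 0)⟩
  rcases dich (c.T2 U a) 2 hJ O hO (fun s => bil (s.2 u₁) (c.p a) (c.p a))
    (lin_bil (snd_lin u₁) _ _) (fun (uk : U × Fin 4) s => col u₁ uk.1 uk.2 s ⬝ᵥ c.p a)
    (fun uk => lin_dot (col_lin _ _ _) _) hx with ⟨e, ⟨d, hd⟩, he⟩ | ⟨e, he⟩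
  · exact h.caseI h₁ e d hd he
  choose r hr using he
  obtain ⟨σ, hσ, hB, hind⟩ := h.family
  obtain ⟨d, hd⟩ := la1 (c.T2 U a) (fun l s => col u₁ (e l).1 (e l).2 s ⬝ᵥ c.p a)
    (fun l => lin_dot (col_lin _ _ _) _) (fun s => bil (s.2 u₁) (c.p a) (c.p a))
    (lin_bil (snd_lin u₁) _ _) (fun s hs hz => by
      set τ : Option (Option U) → St V K := fun i => i.elim s σ with hτ
      obtain ⟨lam, hlam0, hlam⟩ := dep (K := K) (ι := Option (Option U)) (κ := Fin 2 × Fin 3)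
        (by simp [h.1]) (fun i lk => col u₁ (e lk.1).1 (e lk.1).2 (τ i) lk.2.succ)
      have hτm : ∀ i, τ i ∈ c.T2 U a := by
        rintro (_ | i)
        · exact hs
        · exact (hσ i).mem
      have hτz : ∀ i l, col u₁ (e l).1 (e l).2 (τ i) ⬝ᵥ c.p a = 0 := by
        rintro (_ | i) l
        · exact hz l
        · exact (hσ i).col h₁ (e l).1.2 _
      have hm : ∑ i, lam i • τ i ∈ c.T2 U a :=
        Submodule.sum_mem _ fun i _ => Submodule.smul_mem _ _ (hτm i)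
      have hz1 : ∀ l, col u₁ (e l).1 (e l).2 (∑ i, lam i • τ i) ⬝ᵥ c.p a = 0 := by
        intro l
        rw [lin_sum (lin_dot (col_lin _ _ _) (c.p a)) lam τ]
        simp [hτz]
      have hz2 : ∀ l, col u₁ (e l).1 (e l).2 (∑ i, lam i • τ i) = 0 := by
        intro l
        have k1 : ∀ k : Fin 3, col u₁ (e l).1 (e l).2 (∑ i, lam i • τ i) k.succ = 0 := by
          intro k
          rw [lin_sum (col_lin _ _ _) lam τ, ← hlam (l, k)]
          simp [Finset.sum_apply]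
        have k2 := hz1 l
        rw [dotProduct, Fin.sum_univ_succ] at k2
        simp only [k1, zero_mul, Finset.sum_const_zero, add_zero] at k2
        ext k
        refine Fin.cases ?_ k1 k
        exact (mul_eq_zero.1 k2).resolve_right (c.coord_ne a 0)
      have hz3 := h.twelve (u₁ := u₁) hm (fun u hu k => vec_eq_zero fun m => by
        rw [h.fdc e u k (r (⟨u, hu⟩, k)) (hr (⟨u, hu⟩, k)) hm hz1]
        simp only [hz2, zero_dotProduct, mul_zero, Finset.sum_const_zero])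
      rw [Fintype.sum_option] at hz3
      by_cases h0 : lam none = 0
      · exfalso
        apply hlam0
        have := hind (fun i => lam (some i)) (by
          rw [h0, zero_smul, zero_add] at hz3
          exact hz3)
        ext (_ | i)
        · exact h0
        · exact congrFun this i
      · have := hz3 u₁ h₁ (c.p a) (c.p a)
        rw [sb, (lin_bil (snd_lin (K := K) u₁) (c.p a) (c.p a)).map_add,
          (lin_bil (snd_lin (K := K) u₁) (c.p a) (c.p a)).map_smul,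
          lin_sum (lin_bil (snd_lin (K := K) u₁) (c.p a) (c.p a)),
          Finset.sum_eq_zero (fun i _ => by
            rw [show τ (some i) = σ i from rfl, (hσ i).q h.notMem h₁, smul_zero])] at this
        apply mul_left_cancel₀ h0
        simp only [smul_eq_mul, hτ, Option.elim] at this
        linear_combination this / 2)
  refine h.caseI h₁ ![e 0, e 1, e 0] ![d 0, d 1, 0] (fun s hs => ?_)
    (fun uk => ⟨![r uk 0, r uk 1, 0], fun s hs => ?_⟩)
  · simpa [Fin.sum_univ_three] using hd s hs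
  · simpa [Fin.sum_univ_three] using hr uk s hs

theorem four_five {a : V} (hD : (c.N a).card = 7) :
    ((c.N a).filter (fun u => (c.N u).card = 5)).card ≤ 4 := by
  by_contra hc
  obtain ⟨U, hU, h5⟩ := Finset.exists_subset_card_eq
    (show 5 ≤ ((c.N a).filter (fun u => (c.N u).card = 5)).card by omega)
  exact SevS.false (c := c) (a := a) (U := U)
    ⟨h5, fun u hu => Finset.mem_filter.1 (hU hu)⟩ hD

end Ctx

end Pool.Agent.Dress
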