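import Pool.Agent.Lib.MP_d237f6_co.Five

/-! Neighbours of degree five and six of a vertex of degree five. -/

set_option autoImplicit false

namespace Pool.Agent.Dress

open Matrix Module

variable {K : Type} [Field K] {V : Type} [DecidableEq V] [Fintype V] (c : Ctx V K)

namespace Ctx

def psi (v w : V) (s : St V K) : Vec K := s.1 w + s.2 v *ᵥ c.p w

theorem psi_lin (v w : V) : IsLinearMap K (c.psi v w) :=
  ⟨fun a b => by simp only [psi, Prod.fst_add, Prod.snd_add, Pi.add_apply, add_mulVec]; abel,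
   fun r a => by simp only [psi, Prod.smul_fst, Prod.smul_snd, Pi.smul_apply, smul_mulVec,
     smul_add]⟩

omit [DecidableEq V] [Fintype V] in
theorem snd_lin (v : V) : IsLinearMap K (fun s : St V K => s.2 v) :=
  ⟨fun _ _ => rfl, fun _ _ => rfl⟩

omit [DecidableEq V] [Fintype V] in
theorem fst_lin (v : V) : IsLinearMap K (fun s : St V K => s.1 v) :=
  ⟨fun _ _ => rfl, fun _ _ => rfl⟩

theorem psi_act (v w : V) (δ : Der K) (h : dv δ (c.p w) = 0) (s : St V K) :
    c.psi v w (act δ s) = dv δ (c.psi v w s) := by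
  rw [psi, psi, dv_add, dv_mulVec _ _ _ h]; rfl

theorem psi_dot (v w : V) (s : St V K) (m : Vec K) :
    c.psi v w s ⬝ᵥ m = s.1 w ⬝ᵥ m + bil (s.2 v) m (c.p w) := by
  rw [psi, add_dotProduct, bil_eq']

theorem psi_congr (v w : V) {s t : St V K} (h2 : t.2 = s.2) (h1 : t.1 w = s.1 w) :
    c.psi v w t = c.psi v w s := by rw [psi, psi, h1, h2]

theorem ell_psi' {v w b : V} {s : St V K} (h : s.1 b = c.p b ᵥ* s.2 v) :
    c.ell s.1 w b = c.psi v w s ⬝ᵥ c.p b := by
  rw [Gen.ell, psi_dot, h, ← bil_eq]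

theorem ell_psi2 (v w w' : V) (s : St V K) :
    c.ell s.1 w w' = c.psi v w s ⬝ᵥ c.p w' + c.psi v w' s ⬝ᵥ c.p w
      - sb (s.2 v) (c.p w) (c.p w') := by
  rw [Gen.ell, psi_dot, psi_dot, sb]; ring

theorem actT2 (U : Finset V) (a : V) (hU : ∀ u ∈ U, ∀ j ∈ c.N u, j ∉ U) (k : Fin 4) :
    ∀ s ∈ (c.T2 U a : Set (St V K)), act (c.d a k) s ∈ c.T2 U a :=
  c.act_mem (fun u b h => by
    rw [Finset.mem_insert, not_or]
    exact ⟨h.2.2, hU u h.1 b h.2.1⟩) (by simp) k

theorem single_indep (v : V) : ∀ u ∈ ({v} : Finset V), ∀ j ∈ c.N u, j ∉ ({v} : Finset V) :=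
  fun u hu j hj => by rw [Finset.mem_singleton] at hu ⊢; exact hu ▸ c.ne_of hj

theorem AA_le {v a : V} {s : St V K} (hs : s ∈ c.AA v) : s ∈ c.T2 {v} a :=
  ⟨hs.1.mono (Finset.subset_insert _ _), fun u b h => by
    have h1 := Finset.mem_singleton.1 h.1
    exact hs.2 u b ⟨h1, h1 ▸ h.2.1⟩⟩

variable [CharZero K]

theorem AA_q {v b : V} {s : St V K} (hs : s ∈ c.AA v) (hb : b ∈ c.N v) :
    bil (s.2 v) (c.p b) (c.p b) = 0 := by
  have h := hs.1 b b (by simpa using c.ne_of hb) (by simpa using c.ne_of hb) (Or.inr rfl)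
  rw [c.ell_lin (hs.2 v b ⟨rfl, hb⟩) (hs.2 v b ⟨rfl, hb⟩), sb] at h
  linear_combination h / 2

omit [CharZero K] in
theorem AA_psi {v a w : V} {s : St V K} (hs : s ∈ c.AA v) (ha : a ∈ c.N v) (hw : w ∈ c.N a)
    (hne : w ≠ v) : c.psi v w s ⬝ᵥ c.p a = 0 := by
  rw [← c.ell_psi' (hs.2 v a ⟨rfl, ha⟩)]
  exact hs.1 w a (by simpa using hne) (by simpa using c.ne_of ha) (Or.inl (c.nsymm hw))

theorem psi_self {R : Finset V} {v w : V} {s : St V K} (hs : c.Flex R s.1) (hw : w ∉ R) :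
    c.psi v w s ⬝ᵥ c.p w = bil (s.2 v) (c.p w) (c.p w) := by
  have h := hs w w hw hw (Or.inr rfl)
  rw [Gen.ell] at h
  rw [psi_dot]
  linear_combination h / 2

omit [CharZero K] in
/-- extension of a flex to one more vertex -/
theorem flex_update {U : Finset V} {a : V} {φ : V → Vec K} (hφ : c.Flex (insert a U) φ)
    (ξ : Vec K) (h1 : ∀ w ∈ c.N a, w ∉ U → ξ ⬝ᵥ c.p w = -(φ w ⬝ᵥ c.p a))
    (h2 : ξ ⬝ᵥ c.p a = 0) : c.Flex U (Function.update φ a ξ) := by
  have key : ∀ j, j ∉ U → (j ∈ c.N a ∨ a = j) → c.ell (Function.update φ a ξ) a j = 0 := by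
    intro j hj h
    rcases h with h | h
    · rw [Gen.ell, Function.update_self, Function.update_of_ne (c.ne_of h), h1 j h hj]; ring
    · subst h
      rw [Gen.ell, Function.update_self, h2, add_zero]
  intro i j hi hj h
  by_cases hia : i = a
  · subst hia; exact key j hj h
  by_cases hja : j = a
  · subst hja
    rw [Gen.ell_comm]
    exact key i hi (h.imp c.nsymm Eq.symm)
  · rw [Gen.ell, Function.update_of_ne hia, Function.update_of_ne hja]
    exact hφ i j (by simp [hia, hi]) (by simp [hja, hj]) h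

omit [CharZero K] in
theorem toA {v a : V} {s : St V K} (hs : s ∈ c.T2 {v} a)
    (h1 : bil (s.2 v) (c.p a) (c.p a) = 0)
    (h2 : ∀ w ∈ c.N a, w ≠ v → c.psi v w s ⬝ᵥ c.p a = 0) :
    ∃ t ∈ c.AA v, t.2 = s.2 ∧ ∀ j, j ≠ a → t.1 j = s.1 j := by
  refine ⟨(Function.update s.1 a (c.p a ᵥ* s.2 v), s.2), ⟨c.flex_update hs.1 _
    (fun w hw hne => ?_) (by rw [← bil_eq, h1]), fun u b h => ?_⟩, rfl,
    fun j hj => Function.update_of_ne hj _ _⟩
  · have := h2 w hw (by simpa using hne)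
    rw [psi_dot] at this
    rw [← bil_eq]
    linear_combination this
  · obtain ⟨rfl, hb⟩ := h
    by_cases hba : b = a
    · subst hba; simp
    · show Function.update s.1 a _ b = _
      rw [Function.update_of_ne hba]
      exact hs.2 u b ⟨by simp, hb, hba⟩

theorem obsA {v a : V} (hv : (c.N v).card = 5) (ha : a ∈ c.N v) (hD : 5 ≤ (c.N a).card) :
    ∃ (J : Finset V) (O : J → St V K → K), Fintype.card J ≤ (c.N a).card - 4 ∧
      (∀ i, IsLinearMap K (O i)) ∧ ∀ s ∈ c.T2 {v} a, (∀ i, O i s = 0) →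
        bil (s.2 v) (c.p a) (c.p a) = 0 ∧
          ∀ w : ((c.N a).erase v : Finset V), c.psi v w s ⬝ᵥ c.p a = 0 := by
  have hva := c.nsymm ha
  have hcard : (insert a ((c.N a).erase v)).card = (c.N a).card := by
    rw [Finset.card_insert_of_notMem (fun h => c.nirr a (Finset.mem_of_mem_erase h)),
      Finset.card_erase_of_mem hva]
    omega
  obtain ⟨T₀, O, h0, h4, hO, hx⟩ := c.obs (insert a ((c.N a).erase v)) (by omega)
    (fun z (s : St V K) => if z = a then 0 else -(s.1 z ⬝ᵥ c.p a)) (fun z => by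
      by_cases h : z = a
      · simp only [h, if_true]; exact ⟨fun _ _ => by simp, fun _ _ => by simp⟩
      · simp only [h, if_false]
        exact ⟨fun _ _ => by simp; ring, fun _ _ => by simp⟩)
  refine ⟨_, O, by rw [Fintype.card_coe, Finset.card_sdiff_of_subset h0]; omega, hO,
    fun s hs hz => ?_⟩
  obtain ⟨ξ, hξ⟩ := hx s hz
  have hf := c.flex_update hs.1 ξ (fun w hw hne => by
    have := hξ w (by simp [hw]; right; simpa using hne)
    rwa [if_neg (c.ne_of hw)] at this) (by simpa using hξ a (by simp))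
  have ht : (Function.update s.1 a ξ, s.2) ∈ c.AA v := by
    apply c.T1_le_AA hv ha
    refine ⟨hf, fun u b h => ?_⟩
    show Function.update s.1 a _ b = _
    rw [Function.update_of_ne h.2.2]
    exact hs.2 u b h
  refine ⟨(c.AA_q ht ha :), fun w => ?_⟩
  have hw := Finset.mem_of_mem_erase w.2
  rw [← c.psi_congr v w (s := s) (t := (Function.update s.1 a ξ, s.2)) rfl
    (Function.update_of_ne (c.ne_of hw) _ _)]
  exact c.AA_psi ht ha hw (Finset.ne_of_mem_erase w.2)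

omit [CharZero K] in
theorem disj {v a : V} (ha : a ∈ c.N v) : Disjoint (c.N v) ((c.N a).erase v) := by
  rw [Finset.disjoint_left]
  intro b hb hb'
  exact c.no3 v a b ha hb (Finset.mem_of_mem_erase hb')

theorem ten {v a : V} (hv : (c.N v).card = 5) (ha : a ∈ c.N v) (hD : 6 ≤ (c.N a).card)
    {s : St V K} (hs : s ∈ c.AA v) (h : ∀ w ∈ (c.N a).erase v, c.psi v w s = 0) :
    ∀ m m', sb (s.2 v) m m' = 0 := by
  apply c.q10 (c.N v ∪ (c.N a).erase v)
  · rw [Finset.card_union_of_disjoint (c.disj ha), Finset.card_erase_of_mem (c.nsymm ha)]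
    omega
  · intro u hu
    rcases Finset.mem_union.1 hu with hu | hu
    · exact c.AA_q hs hu
    · rw [← c.psi_self hs.1 (by simpa using Finset.ne_of_mem_erase hu), h u hu, zero_dotProduct]

omit [CharZero K] in
theorem s0_AA {v : V} {s : St V K} (h1 : s.1 = c.φ0)
    (hB : ∀ b ∈ c.N v, c.φ0 b = c.p b ᵥ* s.2 v) : s ∈ c.AA v :=
  ⟨h1 ▸ c.flex0' _, fun u b h => by rw [h1, h.1]; exact hB b h.2⟩

omit [CharZero K] in
theorem s0_sb {v b b' : V} {s : St V K}
    (hB : ∀ b ∈ c.N v, c.φ0 b = c.p b ᵥ* s.2 v) (hb : b ∈ c.N v) (hb' : b' ∈ c.N v)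
    (hne : b ≠ b') : sb (s.2 v) (c.p b) (c.p b') ≠ 0 := by
  rw [← c.ell_lin (hB b hb) (hB b' hb')]
  exact c.un2 v b b' hb hb' hne

theorem s0_red {v : V} (hv : (c.N v).card = 5) {s : St V K}
    (hB : ∀ b ∈ c.N v, c.φ0 b = c.p b ᵥ* s.2 v) (h ζ : Vec K)
    (hq : ∀ m m', sb (s.2 v) m m' = (h ⬝ᵥ m) * (ζ ⬝ᵥ m') + (h ⬝ᵥ m') * (ζ ⬝ᵥ m)) : False := by
  refine red (c.N v) (by omega) c.p (s.2 v) h ζ hq (fun b hb => ?_)
    (fun b hb b' hb' hne => c.s0_sb hB hb hb' hne)
  rw [← c.ell_lin (hB b hb) (hB b hb)]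
  exact c.flex0 b b (Or.inr rfl)

omit [CharZero K] in
theorem s0_nz {v : V} (hv : (c.N v).card = 5) {s : St V K}
    (hB : ∀ b ∈ c.N v, c.φ0 b = c.p b ᵥ* s.2 v) (h : ∀ m m', sb (s.2 v) m m' = 0) : False := by
  obtain ⟨b, hb, b', hb', hne⟩ := Finset.one_lt_card.1 (by omega : 1 < (c.N v).card)
  exact c.s0_sb hB hb hb' hne (h _ _)

/-- no two adjacent vertices of degree five -/
theorem lemA {v a : V} (hv : (c.N v).card = 5) (ha : a ∈ c.N v) : (c.N a).card ≠ 5 := by
  intro hD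
  obtain ⟨J, O, hJ, hO, hx⟩ := c.obsA hv ha hD.ge
  have hW := c.card_er (c.nsymm ha) hD
  have : Nonempty ((c.N a).erase v : Finset V) :=
    Finset.nonempty_coe_sort.2 (Finset.card_pos.1 (by omega))
  have hne : ∀ w : ((c.N a).erase v : Finset V), (w : V) ≠ a :=
    fun w => c.ne_of (Finset.mem_of_mem_erase w.2)
  obtain ⟨s, h1, h2⟩ := c.exists_s0
  obtain ⟨hB, hq⟩ := h2 v hv
  have hs := c.s0_AA h1 hB
  rcases dich (c.T2 {v} a) 0 (by omega) O hO (fun s => bil (s.2 v) (c.p a) (c.p a))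
    (lin_bil (snd_lin v) _ _) (fun (w : ((c.N a).erase v : Finset V)) s => c.psi v w s ⬝ᵥ c.p a)
    (fun w => lin_dot (c.psi_lin v w) _) hx with ⟨e, ⟨d, hd⟩, -⟩ | ⟨e, he⟩
  · have h6 := sd (c.d a) (c.p a) (c.d_self a) (c.T2 {v} a) (fun k => act (c.d a k))
      (c.actT2 _ a (c.single_indep v)) (fun s => s.2 v) (fun _ _ => rfl) (fun _ => 0)
      (fun k _ => (dv_zero _).symm) (fun l => c.psi v (e l))
      (fun l k => c.psi_act v _ _ (c.d_ne (hne _) k)) d
      (fun s hs => by simpa using hd s hs) s (c.AA_le hs) (fun l => c.AA_psi hs ha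
        (Finset.mem_of_mem_erase (e l).2) (Finset.ne_of_mem_erase (e l).2))
    exact c.s0_red hv hB _ _ (fun m m' => (h6 m m').trans (Fin.sum_univ_one _))
  · have h7 : ∀ w ∈ (c.N a).erase v, c.psi v w s = 0 := by
      intro w hw
      obtain ⟨d, hd⟩ := he ⟨w, hw⟩
      apply vec_eq_zero
      intro m
      have := fd (ι := Empty) (c.d a) (c.p a) (c.d_self a) (c.T2 {v} a) (fun k => act (c.d a k))
        (c.actT2 _ a (c.single_indep v)) (fun _ => 0) (fun k _ => (dm_zero _).symm)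
        (c.psi v w) (fun k => c.psi_act v _ _ (c.d_ne (hne ⟨w, hw⟩) k))
        (fun l => l.elim) (fun l => l.elim) (fun l => l.elim)
        (fun s hs => by simpa [bil_zero] using hd s hs) s (c.AA_le hs) (fun l => l.elim) m
      simpa [sb, bil_zero] using this
    apply c.s0_nz hv hB
    apply c.q10 (insert v (c.N v ∪ (c.N a).erase v))
    · rw [Finset.card_insert_of_notMem (by simp [c.nirr]),
        Finset.card_union_of_disjoint (c.disj ha)]
      omega
    · intro u hu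
      rcases Finset.mem_insert.1 hu with rfl | hu
      · exact hq
      rcases Finset.mem_union.1 hu with hu | hu
      · exact c.AA_q hs hu
      · rw [← c.psi_self hs.1 (by simpa using Finset.ne_of_mem_erase hu), h7 u hu,
          zero_dotProduct]

omit [Field K] [Fintype V] [CharZero K] in
theorem few {T : Finset V} (P : V → Prop) [DecidablePred P]
    (h : ∀ b ∈ T, ∀ b' ∈ T, b ≠ b' → P b ∨ P b') : T.card ≤ (T.filter P).card + 1 := by
  have h1 : (T.filter (fun b => ¬ P b)).card ≤ 1 := by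
    rw [Finset.card_le_one]
    intro b hb b' hb'
    rw [Finset.mem_filter] at hb hb'
    by_contra hne
    exact (h b hb.1 b' hb'.1 hne).elim hb.2 hb'.2
  have := Finset.card_filter_add_card_filter_not (s := T) P
  omega

/-- the rank two case at a neighbour of degree six is impossible -/
theorem six_I {v a : V} (hv : (c.N v).card = 5) (ha : a ∈ c.N v) (hD : (c.N a).card = 6)
    (e : Fin 2 → ((c.N a).erase v : Finset V)) (d : Fin 2 → K)
    (hd : ∀ s ∈ c.T2 {v} a, bil (s.2 v) (c.p a) (c.p a) = ∑ l, d l * (c.psi v (e l) s ⬝ᵥ c.p a))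
    (he : ∀ w : ((c.N a).erase v : Finset V), ∃ r : Fin 2 → K, ∀ s ∈ c.T2 {v} a,
      c.psi v w s ⬝ᵥ c.p a = ∑ l, r l * (c.psi v (e l) s ⬝ᵥ c.p a)) : False := by
  classical
  have hne : ∀ w : ((c.N a).erase v : Finset V), (w : V) ≠ a :=
    fun w => c.ne_of (Finset.mem_of_mem_erase w.2)
  have hz : ∀ s ∈ c.AA v, ∀ l, c.psi v (e l) s ⬝ᵥ c.p a = 0 := fun s hs l => c.AA_psi hs ha
    (Finset.mem_of_mem_erase (e l).2) (Finset.ne_of_mem_erase (e l).2)
  choose r hr using he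
  set g : Fin 2 → Vec K := fun l k => c.d a k (d l) with hg
  have hq : ∀ s ∈ c.AA v, ∀ m m', sb (s.2 v) m m' = ∑ l, ((g l ⬝ᵥ m) * (c.psi v (e l) s ⬝ᵥ m')
      + (g l ⬝ᵥ m') * (c.psi v (e l) s ⬝ᵥ m)) := fun s hs =>
    sd (c.d a) (c.p a) (c.d_self a) (c.T2 {v} a) (fun k => act (c.d a k))
      (c.actT2 _ a (c.single_indep v)) (fun s => s.2 v) (fun _ _ => rfl) (fun _ => 0)
      (fun k _ => (dv_zero _).symm) (fun l => c.psi v (e l))
      (fun l k => c.psi_act v _ _ (c.d_ne (hne _) k)) d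
      (fun s hs => by simpa using hd s hs) s (c.AA_le hs) (hz s hs)
  have hp : ∀ s ∈ c.AA v, ∀ w : ((c.N a).erase v : Finset V), ∀ m,
      c.psi v w s ⬝ᵥ m = ∑ l, r w l * (c.psi v (e l) s ⬝ᵥ m) := by
    intro s hs w m
    have := fd (c.d a) (c.p a) (c.d_self a) (c.T2 {v} a) (fun k => act (c.d a k))
      (c.actT2 _ a (c.single_indep v)) (fun _ => 0) (fun k _ => (dm_zero _).symm)
      (c.psi v w) (fun k => c.psi_act v _ _ (c.d_ne (hne w) k)) (fun l => c.psi v (e l))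
      (fun l k => c.psi_act v _ _ (c.d_ne (hne _) k)) (r w)
      (fun s hs => by simpa [bil_zero] using hr w s hs) s (c.AA_le hs) (hz s hs) m
    simpa [sb, bil_zero] using this
  obtain ⟨s, h1, h2⟩ := c.exists_s0
  obtain ⟨hB, hq0⟩ := h2 v hv
  have hs := c.s0_AA h1 hB
  obtain ⟨t, ht, hq1⟩ := c.exists_s1 hv
  let θ : V → Fin 2 → K := fun z l =>
    g l ⬝ᵥ c.p z - if h : z ∈ (c.N a).erase v then r ⟨z, h⟩ l else 0
  have hθA : ∀ z ∈ c.N v, ∀ l, θ z l = g l ⬝ᵥ c.p z := by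
    intro z hz l
    simp only [θ, dif_neg (Finset.disjoint_left.1 (c.disj ha) hz), sub_zero]
  have hθW : ∀ z (hz : z ∈ (c.N a).erase v), ∀ l, θ z l = g l ⬝ᵥ c.p z - r ⟨z, hz⟩ l := by
    intro z hz l
    simp only [θ, dif_pos hz]
  have hθ : ∀ u ∈ c.AA v, ∀ z ∈ (c.N v).erase a ∪ (c.N a).erase v,
      θ z 0 * (c.psi v (e 0) u ⬝ᵥ c.p z) + θ z 1 * (c.psi v (e 1) u ⬝ᵥ c.p z) = 0 := by
    intro u hu z hz
    have k1 := hq u hu (c.p z) (c.p z)
    rw [sb, Fin.sum_univ_two] at k1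
    rcases Finset.mem_union.1 hz with hz | hz
    · have hz' := Finset.mem_of_mem_erase hz
      rw [c.AA_q hu hz'] at k1
      rw [hθA z hz', hθA z hz']
      linear_combination -k1 / 2
    · have k2 := hp u hu ⟨z, hz⟩ (c.p z)
      rw [Fin.sum_univ_two] at k2
      rw [← c.psi_self hu.1 (by simpa using Finset.ne_of_mem_erase hz)] at k1
      rw [hθW z hz, hθW z hz]
      linear_combination -k1 / 2 + k2
  let P : V → Prop := fun z => θ z 0 ≠ 0 ∨ θ z 1 ≠ 0
  have c1 := few (T := (c.N v).erase a) P (fun b hb b' hb' hne => by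
    by_contra hcon
    simp only [P, not_or, not_not] at hcon
    have hb1 := Finset.mem_of_mem_erase hb
    have hb2 := Finset.mem_of_mem_erase hb'
    apply c.s0_sb hB hb1 hb2 hne
    rw [hq s hs, Fin.sum_univ_two, ← hθA b hb1, ← hθA b hb1, ← hθA b' hb2, ← hθA b' hb2,
      hcon.1.1, hcon.1.2, hcon.2.1, hcon.2.2]
    ring)
  have c2 := few (T := (c.N a).erase v) P (fun b hb b' hb' hne => by
    by_contra hcon
    simp only [P, not_or, not_not] at hcon
    apply c.un2 a b b' (Finset.mem_of_mem_erase hb) (Finset.mem_of_mem_erase hb') hne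
    rw [← h1, c.ell_psi2 v, hq s hs, hp s hs ⟨b, hb⟩, hp s hs ⟨b', hb'⟩]
    simp only [Fin.sum_univ_two]
    rw [hθW b hb, hθW b hb, hθW b' hb', hθW b' hb'] at hcon
    linear_combination -(c.psi v (e 0) s ⬝ᵥ c.p b') * hcon.1.1
      - (c.psi v (e 1) s ⬝ᵥ c.p b') * hcon.1.2 - (c.psi v (e 0) s ⬝ᵥ c.p b) * hcon.2.1
      - (c.psi v (e 1) s ⬝ᵥ c.p b) * hcon.2.2)
  rw [c.card_er ha hv] at c1
  rw [c.card_er (c.nsymm ha) hD] at c2
  set f0 := c.psi v (e 0) s with hf0
  set f1 := c.psi v (e 1) s with hf1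
  set g0 := c.psi v (e 0) t with hg0
  set g1 := c.psi v (e 1) t with hg1
  let Γ : Mat K := vecMulVec f0 g1 + vecMulVec g1 f0 - vecMulVec g0 f1 - vecMulVec f1 g0
  have hΓ : ∀ m m', bil Γ m m' = (f0 ⬝ᵥ m) * (g1 ⬝ᵥ m') + (f0 ⬝ᵥ m') * (g1 ⬝ᵥ m)
      - ((g0 ⬝ᵥ m) * (f1 ⬝ᵥ m') + (g0 ⬝ᵥ m') * (f1 ⬝ᵥ m)) := by
    intro m m'
    simp only [Γ, bil_sub, bil_add, bil_vecMulVec]
    ring
  have hΓ0 : Γ = 0 := by
    apply c.q6 a (((c.N v).erase a).filter P ∪ ((c.N a).erase v).filter P)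
    · simp [c.nirr]
    · rw [Finset.card_union_of_disjoint]
      · omega
      · exact Finset.disjoint_filter_filter
          ((c.disj ha).mono_left (Finset.erase_subset _ _))
    · simp only [Γ, transpose_sub, transpose_add, transpose_vecMulVec]
      abel
    · apply vec_eq_zero
      intro m
      rw [← bil_eq', hΓ, hz s hs 0, hz s hs 1, hz t ht 0, hz t ht 1]
      ring
    · intro z hz
      have hz1 : z ∈ (c.N v).erase a ∪ (c.N a).erase v := by
        rw [← Finset.filter_union] at hz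
        exact (Finset.mem_filter.1 hz).1
      have hz2 : P z := by
        rw [← Finset.filter_union] at hz
        exact (Finset.mem_filter.1 hz).2
      have k1 := hθ s hs z hz1
      have k2 := hθ t ht z hz1
      rw [hΓ]
      rcases hz2 with h | h
      · apply mul_left_cancel₀ h
        linear_combination 2 * (g1 ⬝ᵥ c.p z) * k1 - 2 * (f1 ⬝ᵥ c.p z) * k2
      · apply mul_left_cancel₀ h
        linear_combination -2 * (g0 ⬝ᵥ c.p z) * k1 + 2 * (f0 ⬝ᵥ c.p z) * k2
  have hqs := hq s hs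
  have hqt := hq t ht
  simp only [Fin.sum_univ_two] at hqs hqt
  by_cases hf : f1 = 0
  · refine c.s0_red hv hB (g 0) f0 fun m m' => ?_
    rw [hqs, ← hf1, hf]
    simp [hf0]
  · rcases prod_eq (f := f0) (g := g1) (f' := g0) (g' := f1) (fun m m' => by
      have := hΓ m m'
      rw [hΓ0, bil_zero] at this
      linear_combination -this) hf with ⟨r, hr⟩ | ⟨r, hr1, hr2⟩
    · refine c.s0_red hv hB (r • g 0 + g 1) f1 fun m m' => ?_
      rw [hqs, ← hf0, ← hf1, hr]
      simp only [add_dotProduct, smul_dotProduct, smul_eq_mul]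
      ring
    · apply hq1
      have k1 := hqs (c.p v) (c.p v)
      have k2 := hqt (c.p v) (c.p v)
      rw [sb, hq0, ← hf0, ← hf1] at k1
      rw [sb, ← hg0, ← hg1, hr1, hr2] at k2
      simp only [smul_dotProduct, smul_eq_mul] at k2
      linear_combination k2 / 2 - r * k1 / 2

/-- structure at a neighbour of degree six -/
theorem six {v a : V} (hv : (c.N v).card = 5) (ha : a ∈ c.N v) (hD : (c.N a).card = 6) :
    ∃ w₀ ∈ (c.N a).erase v, ∃ r : V → K, ∀ w ∈ (c.N a).erase v, r w ≠ 0 ∧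
      (∀ k, c.d a k (r w) = 0) ∧ ∀ s ∈ c.T2 {v} a, c.psi v w s = r w • c.psi v w₀ s := by
  classical
  obtain ⟨J, O, hJ, hO, hx⟩ := c.obsA hv ha (by omega)
  have hW := c.card_er (c.nsymm ha) hD
  have : Nonempty ((c.N a).erase v : Finset V) :=
    Finset.nonempty_coe_sort.2 (Finset.card_pos.1 (by omega))
  have hne : ∀ w : ((c.N a).erase v : Finset V), (w : V) ≠ a :=
    fun w => c.ne_of (Finset.mem_of_mem_erase w.2)
  rcases dich (c.T2 {v} a) 1 (by omega) O hO (fun s => bil (s.2 v) (c.p a) (c.p a))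
    (lin_bil (snd_lin v) _ _) (fun (w : ((c.N a).erase v : Finset V)) s => c.psi v w s ⬝ᵥ c.p a)
    (fun w => lin_dot (c.psi_lin v w) _) hx with ⟨e, ⟨d, hd⟩, he⟩ | ⟨e, he⟩
  · exact (c.six_I hv ha hD e d hd he).elim
  choose r hr using he
  obtain ⟨s, h1, h2⟩ := c.exists_s0
  obtain ⟨hB, hq⟩ := h2 v hv
  have hs := c.s0_AA h1 hB
  have hz : ∀ l, c.psi v (e l) s ⬝ᵥ c.p a = 0 := fun l => c.AA_psi hs ha
    (Finset.mem_of_mem_erase (e l).2) (Finset.ne_of_mem_erase (e l).2)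
  have hp : ∀ w : ((c.N a).erase v : Finset V), c.psi v w s = r w 0 • c.psi v (e 0) s := by
    intro w
    rw [← sub_eq_zero]
    apply vec_eq_zero
    intro m
    have := fd (c.d a) (c.p a) (c.d_self a) (c.T2 {v} a) (fun k => act (c.d a k))
      (c.actT2 _ a (c.single_indep v)) (fun _ => 0) (fun k _ => (dm_zero _).symm)
      (c.psi v w) (fun k => c.psi_act v _ _ (c.d_ne (hne w) k)) (fun l => c.psi v (e l))
      (fun l k => c.psi_act v _ _ (c.d_ne (hne _) k)) (r w)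
      (fun s hs => by simpa [bil_zero] using hr w s hs) s (c.AA_le hs) hz m
    rw [sub_dotProduct, smul_dotProduct, sub_eq_zero]
    simpa [sb, bil_zero] using this
  have hnz : c.psi v (e 0) s ≠ 0 := fun h0 =>
    c.s0_nz hv hB (c.ten hv ha hD.ge hs (fun w hw => by rw [hp ⟨w, hw⟩, h0, smul_zero]))
  have hd : ∀ (w : ((c.N a).erase v : Finset V)) k, c.d a k (r w 0) = 0 := by
    intro w
    have := sd (c.d a) (c.p a) (c.d_self a) (c.T2 {v} a) (fun k => act (c.d a k))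
      (c.actT2 _ a (c.single_indep v)) (fun _ => 0) (fun k _ => (dm_zero _).symm)
      (c.psi v w) (fun k => c.psi_act v _ _ (c.d_ne (hne w) k)) (fun l => c.psi v (e l))
      (fun l k => c.psi_act v _ _ (c.d_ne (hne _) k)) (r w)
      (fun s hs => by simpa [bil_zero] using hr w s hs) s (c.AA_le hs) hz
    have h3 := prod_zero (f := fun k => c.d a k (r w 0)) (g := c.psi v (e 0) s) (fun m m' => by
      have := this m m'
      simpa [sb, bil_zero] using this.symm) hnz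
    exact fun k => congrFun h3 k
  refine ⟨e 0, (e 0).2, fun w => if h : w ∈ (c.N a).erase v then r ⟨w, h⟩ 0 else 0,
    fun w hw => ?_⟩
  simp only [dif_pos hw]
  refine ⟨fun h0 => ?_, hd _, fun t ht => ?_⟩
  · obtain ⟨b, hb⟩ : ((c.N v).erase a).Nonempty :=
      Finset.card_pos.1 (by rw [c.card_er ha hv]; omega)
    have hb' := Finset.mem_of_mem_erase hb
    apply c.un3 w a v b (Finset.mem_of_mem_erase hw) ha hb' (Finset.ne_of_mem_erase hw)
      (Finset.ne_of_mem_erase hb).symm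
    rw [← h1, c.ell_psi' (v := v) (by rw [h1]; exact hB b hb'), hp ⟨w, hw⟩, h0, zero_smul,
      zero_dotProduct]
  · ext k
    have := fd0 (c.d a) (c.p a) (c.d_self a) (c.T2 {v} a) (fun k => act (c.d a k))
      (c.actT2 _ a (c.single_indep v)) (fun _ => 0) (fun k _ => (dm_zero _).symm)
      (c.psi v w) (fun k => c.psi_act v _ _ (c.d_ne (hne ⟨w, hw⟩) k)) (fun l => c.psi v (e l))
      (fun l k => c.psi_act v _ _ (c.d_ne (hne _) k)) (r ⟨w, hw⟩)
      (fun s hs => by simpa [bil_zero] using hr ⟨w, hw⟩ s hs) t ht k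
    simpa [sb, bil_zero, hd] using this

end Ctx

end Pool.Agent.Dress
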