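import Pool.Agent.Lib.MP_d237f6_co.Six

/-! A vertex of degree five has at most one neighbour of degree six. -/

set_option autoImplicit false

namespace Pool.Agent.Dress

open Matrix Module

variable {K : Type} [Field K] {V : Type} [DecidableEq V] [Fintype V]

theorem sb_sum (B : Mat K) (m m' : Vec K) :
    sb B m m' = ∑ k, ∑ k', m k * m' k' * sb B (Pi.single k 1) (Pi.single k' 1) := by
  simp only [sb, bil_single]
  rw [bil_sum, bil_sum, Finset.sum_comm (f := fun i j => m' i * B i j * m j),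
    ← Finset.sum_add_distrib]
  refine Finset.sum_congr rfl fun k _ => ?_
  rw [← Finset.sum_add_distrib]
  refine Finset.sum_congr rfl fun k' _ => by ring

theorem sb_vec (B : Mat K) (y m : Vec K) : sb B y m = (y ᵥ* B + B *ᵥ y) ⬝ᵥ m := by
  rw [sb, add_dotProduct, bil_eq, bil_eq']

theorem d_sb (δ : Der K) (B : Mat K) (m m' : Vec K) :
    δ (sb B m m') = sb (dm δ B) m m' + sb B (dv δ m) m' + sb B m (dv δ m') := by
  simp only [sb, map_add, d_bil]; ring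

theorem sb_zero_right (B : Mat K) (m : Vec K) : sb B m 0 = 0 := by
  simp [sb, bil_zero_left, bil_zero_right]

theorem lin_sb {X : Type} [AddCommGroup X] [Module K X] {S : X → Mat K} (h : IsLinearMap K S)
    (y z : Vec K) : IsLinearMap K (fun s => sb (S s) y z) :=
  ⟨fun a b => by simp only [sb, h.map_add, bil_add]; ring,
   fun c a => by simp only [sb, h.map_smul, bil_smul, smul_eq_mul]; ring⟩

theorem lin_sub {X : Type} [AddCommGroup X] [Module K X] {f g : X → K} (hf : IsLinearMap K f)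
    (hg : IsLinearMap K g) (r : K) : IsLinearMap K (fun s => f s - r * g s) :=
  ⟨fun a b => by simp only [hf.map_add, hg.map_add]; ring,
   fun c a => by simp only [hf.map_smul, hg.map_smul, smul_eq_mul]; ring⟩

theorem la2 {X : Type} [AddCommGroup X] [Module K X] (S : Submodule K X) {f g₁ g₂ : X → K}
    (hf : IsLinearMap K f) (h₁ : IsLinearMap K g₁) (h₂ : IsLinearMap K g₂)
    (h : ∀ x ∈ S, g₁ x = 0 → g₂ x = 0 → f x = 0) :
    ∃ a b : K, ∀ x ∈ S, f x = a * g₁ x + b * g₂ x := by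
  obtain ⟨r, hr⟩ := la1 S ![g₁, g₂] (fun i => by fin_cases i <;> simpa) f hf
    (fun x hx h0 => h x hx (h0 0) (h0 1))
  exact ⟨r 0, r 1, fun x hx => by simpa using hr x hx⟩

/-- the derivation moving each point by a multiple of a fixed vector -/
noncomputable def Gen.lift (g : Gen V K) (κ : V → K) (m : Vec K) : Der K :=
  ∑ j, ∑ l, (κ j * m l) • g.d j l

theorem der_sum_apply {ι : Type} (T : Finset ι) (D : ι → Der K) (x : K) :
    (∑ i ∈ T, D i) x = ∑ i ∈ T, D i x := by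
  classical
  induction T using Finset.induction_on with
  | empty => simp
  | insert a T ha ih => rw [Finset.sum_insert ha, Finset.sum_insert ha, Derivation.add_apply, ih]

theorem Gen.lift_p (g : Gen V K) (κ : V → K) (m : Vec K) (i : V) :
    dv (g.lift κ m) (g.p i) = κ i • m := by
  ext k
  have h : ∀ j l, g.d j l (g.p i k) = if i = j ∧ k = l then 1 else 0 := by
    intro j l
    have := congrFun (g.hd j l i) k
    simp only [dv] at this
    rw [this]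
    by_cases h1 : i = j <;> by_cases h2 : k = l <;> simp [h1, h2]
  simp only [dv, Gen.lift, der_sum_apply, Derivation.smul_apply, h, smul_eq_mul, Pi.smul_apply,
    mul_ite, mul_one, mul_zero, ite_and]
  rw [Finset.sum_eq_single i (fun j _ hj => by simp [Ne.symm hj]) (by simp)]
  simp

variable (c : Ctx V K)

namespace Ctx

/-- the structure at a neighbour of degree six -/
def SixS (v a w₀ : V) (r : V → K) : Prop :=
  (c.N v).card = 5 ∧ a ∈ c.N v ∧ (c.N a).card = 6 ∧ w₀ ∈ (c.N a).erase v ∧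
    ∀ w ∈ (c.N a).erase v, r w ≠ 0 ∧ (∀ k, c.d a k (r w) = 0) ∧
      ∀ s ∈ c.T2 {v} a, c.psi v w s = r w • c.psi v w₀ s

variable {c} {v a w₀ : V} {r : V → K}

theorem SixS.toA (h : c.SixS v a w₀ r) {s : St V K} (hs : s ∈ c.T2 {v} a)
    (h1 : bil (s.2 v) (c.p a) (c.p a) = 0) (h2 : c.psi v w₀ s ⬝ᵥ c.p a = 0) :
    ∃ t ∈ c.AA v, t.2 = s.2 ∧ ∀ j, j ≠ a → t.1 j = s.1 j :=
  c.toA hs h1 (fun w hw hne => by
    rw [(h.2.2.2.2 w (Finset.mem_erase.2 ⟨hne, hw⟩)).2.2 s hs, smul_dotProduct, h2, smul_zero])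

theorem SixS.ne (h : c.SixS v a w₀ r) : w₀ ≠ a := c.ne_of (Finset.mem_of_mem_erase h.2.2.2.1)

theorem SixS.psi_y (h : c.SixS v a w₀ r) {s : St V K} (hs : s ∈ c.AA v) :
    c.psi v w₀ s ⬝ᵥ c.p a = 0 :=
  c.AA_psi hs h.2.1 (Finset.mem_of_mem_erase h.2.2.2.1) (Finset.ne_of_mem_erase h.2.2.2.1)

variable [CharZero K]

theorem SixS.zero (h : c.SixS v a w₀ r) {s : St V K} (hs : s ∈ c.AA v)
    (h0 : c.psi v w₀ s = 0) : ∀ m m', sb (s.2 v) m m' = 0 :=
  c.ten h.1 h.2.1 h.2.2.1.ge hs (fun w hw => by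
    rw [(h.2.2.2.2 w hw).2.2 s (c.AA_le hs), h0, smul_zero])

theorem SixS.comb (h : c.SixS v a w₀ r) {s t : St V K} (hs : s ∈ c.AA v) (ht : t ∈ c.AA v)
    (hq0 : bil (s.2 v) (c.p v) (c.p v) = 0) (hq1 : bil (t.2 v) (c.p v) (c.p v) ≠ 0) (x z : K)
    (h0 : x • c.psi v w₀ t = z • c.psi v w₀ s) : x = 0 := by
  have hu : x • t - z • s ∈ c.AA v :=
    Submodule.sub_mem _ (Submodule.smul_mem _ _ ht) (Submodule.smul_mem _ _ hs)
  have := h.zero hu (by
    rw [(c.psi_lin v w₀).map_sub, (c.psi_lin v w₀).map_smul, (c.psi_lin v w₀).map_smul, h0,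
      sub_self]) (c.p v) (c.p v)
  simp only [sb, Prod.snd_sub, Prod.smul_snd, Pi.sub_apply, Pi.smul_apply, bil_sub, bil_smul,
    hq0] at this
  have h2 : x * bil (t.2 v) (c.p v) (c.p v) = 0 := by linear_combination this / 2
  exact (mul_eq_zero.1 h2).resolve_right hq1

theorem SixS.two (h : c.SixS v a w₀ r) (γ : Vec K)
    (hγ : ∀ s ∈ c.AA v, ∃ u : K, c.psi v w₀ s = u • γ) : False := by
  obtain ⟨s, h1, h2⟩ := c.exists_s0
  obtain ⟨hB, hq0⟩ := h2 v h.1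
  have hs := c.s0_AA h1 hB
  obtain ⟨t, ht, hq1⟩ := c.exists_s1 h.1
  obtain ⟨u, hu⟩ := hγ s hs
  obtain ⟨u', hu'⟩ := hγ t ht
  have := h.comb hs ht hq0 hq1 u u' (by rw [hu, hu', smul_comm])
  exact c.s0_nz h.1 hB (h.zero hs (by rw [hu, this, zero_smul]))

theorem SixS.lemN (h : c.SixS v a w₀ r) (α β : K)
    (hαβ : ∀ s ∈ c.AA v, ∀ m, α * sb (s.2 v) (c.p a) m + β * (c.psi v w₀ s ⬝ᵥ m) = 0) :
    α = 0 ∧ β = 0 := by
  obtain ⟨s, h1, h2⟩ := c.exists_s0
  obtain ⟨hB, hq0⟩ := h2 v h.1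
  have hs := c.s0_AA h1 hB
  by_cases hβ : β = 0
  · refine ⟨?_, hβ⟩
    obtain ⟨b, hb⟩ : ((c.N v).erase a).Nonempty :=
      Finset.card_pos.1 (by rw [c.card_er h.2.1 h.1]; omega)
    have := hαβ s hs (c.p b)
    rw [hβ, zero_mul, add_zero] at this
    exact (mul_eq_zero.1 this).resolve_right (c.s0_sb hB h.2.1 (Finset.mem_of_mem_erase hb)
      (Finset.ne_of_mem_erase hb).symm)
  exfalso
  set lam := -α / β with hlam
  have hl : ∀ s ∈ c.AA v, ∀ m, c.psi v w₀ s ⬝ᵥ m = lam * sb (s.2 v) (c.p a) m := by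
    intro s hs m
    have := hαβ s hs m
    rw [hlam]
    field_simp
    linear_combination this
  have hlam0 : lam ≠ 0 := by
    intro h0
    apply c.s0_nz h.1 hB
    apply h.zero hs
    apply vec_eq_zero
    intro m
    rw [hl s hs, h0, zero_mul]
  have hex : ∀ k : Fin 4, ∃ σ τ : K, ∀ s ∈ c.T2 {v} a,
      c.psi v w₀ s ⬝ᵥ Pi.single k 1 - lam * sb (s.2 v) (c.p a) (Pi.single k 1)
        = σ * bil (s.2 v) (c.p a) (c.p a) + τ * (c.psi v w₀ s ⬝ᵥ c.p a) := by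
    intro k
    refine la2 _ (lin_sub (lin_dot (c.psi_lin v w₀) _) (lin_sb (snd_lin v) _ _) lam)
      (lin_bil (snd_lin v) _ _) (lin_dot (c.psi_lin v w₀) _) (fun s hs k1 k2 => ?_)
    obtain ⟨t, ht, e2, e1⟩ := h.toA hs k1 k2
    rw [← c.psi_congr v w₀ e2 (e1 _ h.ne), ← e2, hl t ht, sub_self]
  choose σ τ hστ using hex
  set ζ := c.p a ᵥ* s.2 v + s.2 v *ᵥ c.p a with hζ
  have hk : ∀ k k', lam * sb (s.2 v) (Pi.single k' 1) (Pi.single k 1)
      = -(c.d a k' lam * ζ k) - (σ k + lam * τ k) * ζ k' := by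
    intro k k'
    have k1 := congrArg (c.d a k') (hστ k s (c.AA_le hs))
    have k2 := hστ k _ (c.actT2 _ a (c.single_indep v) k' s (c.AA_le hs))
    rw [c.psi_act v w₀ _ (c.d_ne h.ne k')] at k2
    simp only [map_sub, map_add, d_mul, d_dot, d_bil, d_sb, c.d_self, dv_single, sb_zero_right,
      dotProduct_zero, add_zero] at k1
    rw [c.AA_q hs h.2.1, h.psi_y hs] at k1
    have k3 := hl s hs (Pi.single k' 1)
    have k4 : ∀ j, sb (s.2 v) (c.p a) (Pi.single j 1) = ζ j := by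
      intro j; rw [sb_vec]; simp [hζ]
    have k5 := k4 k'
    rw [sb] at k5
    rw [k4] at k1 k3
    simp only [act] at k2
    linear_combination -k1 + k2 - σ k * k5 - τ k * k3
  refine c.s0_red h.1 hB (fun k => -(c.d a k lam + (σ k + lam * τ k)) / (2 * lam)) ζ
    fun m m' => ?_
  have hk' : ∀ k k', sb (s.2 v) (Pi.single k 1) (Pi.single k' 1)
      = -(c.d a k lam + (σ k + lam * τ k)) / (2 * lam) * ζ k'
        + -(c.d a k' lam + (σ k' + lam * τ k')) / (2 * lam) * ζ k := by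
    intro k k'
    have e1 := hk k k'
    have e2 := hk k' k
    rw [sb_comm] at e1
    field_simp
    linear_combination e1 + e2
  rw [sb_sum]
  simp only [hk', dotProduct, Fin.sum_univ_four]
  ring

theorem SixS.cross {a₂ w₂ : V} {r₂ : V → K} (h : c.SixS v a w₀ r) (h₂ : c.SixS v a₂ w₂ r₂)
    (w : V) (hw : w ∈ (c.N a₂).erase v) (k₀ : Fin 4) : c.d a k₀ (r₂ w) = 0 := by
  by_contra hne
  have hwa : ∀ w ∈ (c.N a₂).erase v, w ≠ a := fun w hw e =>
    c.no3 v a₂ a h₂.2.1 h.2.1 (e ▸ Finset.mem_of_mem_erase hw)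
  have hex : ∀ j : Fin 4, ∃ α β : K, ∀ s ∈ c.T2 {v} a,
      c.psi v w s ⬝ᵥ Pi.single j 1 - r₂ w * (c.psi v w₂ s ⬝ᵥ Pi.single j 1)
        = α * bil (s.2 v) (c.p a) (c.p a) + β * (c.psi v w₀ s ⬝ᵥ c.p a) := by
    intro j
    refine la2 _ (lin_sub (lin_dot (c.psi_lin v w) _) (lin_dot (c.psi_lin v w₂) _) _)
      (lin_bil (snd_lin v) _ _) (lin_dot (c.psi_lin v w₀) _) (fun s hs k1 k2 => ?_)
    obtain ⟨t, ht, e2, e1⟩ := h.toA hs k1 k2
    rw [← c.psi_congr v w e2 (e1 _ (hwa w hw)), ← c.psi_congr v w₂ e2 (e1 _ (hwa w₂ h₂.2.2.2.1)),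
      (h₂.2.2.2.2 w hw).2.2 t (c.AA_le ht), smul_dotProduct, smul_eq_mul, sub_self]
  choose α β hαβ using hex
  have hk : ∀ s ∈ c.AA v, ∀ j k, -(c.d a k (r₂ w) * c.psi v w₂ s j)
      = α j * sb (s.2 v) (c.p a) (Pi.single k 1) + β j * c.psi v w₀ s k := by
    intro s hs j k
    have k1 := congrArg (c.d a k) (hαβ j s (c.AA_le hs))
    have k2 := hαβ j _ (c.actT2 _ a (c.single_indep v) k s (c.AA_le hs))
    rw [c.psi_act v w₀ _ (c.d_ne h.ne k), c.psi_act v w _ (c.d_ne (hwa w hw) k),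
      c.psi_act v w₂ _ (c.d_ne (hwa w₂ h₂.2.2.2.1) k)] at k2
    simp only [map_sub, map_add, d_mul, d_dot, d_bil, c.d_self, dv_single,
      dotProduct_zero, add_zero] at k1
    rw [c.AA_q hs h.2.1, h.psi_y hs] at k1
    simp only [act] at k2
    simp only [dotProduct_single, mul_one] at k1 k2
    rw [sb]
    linear_combination k1 - k2
  by_cases hc : ∀ m, α ⬝ᵥ m = 0 → β ⬝ᵥ m = 0
  · obtain ⟨x, hx⟩ := prop_of_ker hc
    refine h₂.two α fun s hs => ⟨-(sb (s.2 v) (c.p a) (Pi.single k₀ 1) + x * c.psi v w₀ s k₀)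
      / c.d a k₀ (r₂ w), ?_⟩
    ext j
    have := hk s hs j k₀
    rw [hx] at this
    simp only [Pi.smul_apply, smul_eq_mul] at this ⊢
    field_simp
    linear_combination -this
  · push Not at hc
    obtain ⟨m, hm, hm'⟩ := hc
    refine h.two (fun k => c.d a k (r₂ w)) fun s hs => ⟨-(c.psi v w₂ s ⬝ᵥ m) / (β ⬝ᵥ m), ?_⟩
    ext k
    have e := fun j => hk s hs j k
    simp only [Pi.smul_apply, smul_eq_mul]
    field_simp
    simp only [dotProduct, Fin.sum_univ_four] at hm ⊢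
    linear_combination -(m 0 * e 0 + m 1 * e 1 + m 2 * e 2 + m 3 * e 3)
      - sb (s.2 v) (c.p a) (Pi.single k 1) * hm

theorem SixS.var (h : c.SixS v a w₀ r) {s : St V K} (hs : s ∈ c.AA v)
    (hq0 : bil (s.2 v) (c.p v) (c.p v) = 0) (ρ m : Vec K) (w : V) (hw : w ∈ (c.N a).erase v) :
    c.lift (fun j => c.psi v j s ⬝ᵥ ρ) m (r w) = 0 := by
  classical
  obtain ⟨t, ht, hq1⟩ := c.exists_s1 h.1
  refine h.comb hs ht hq0 hq1 _ (c.lift (fun j => t.1 j ⬝ᵥ m) ρ (r w)) ?_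
  rw [← sub_eq_zero]
  apply c.cov_zero ((c.N v).erase a) (c.card_er h.2.1 h.1).ge
  intro i hi
  have hi' := Finset.mem_of_mem_erase hi
  have hell : ∀ j k : V, IsLinearMap K (fun φ : V → Vec K => c.ell φ j k) := fun j k =>
    ⟨fun a b => by simp only [Gen.ell, Pi.add_apply, add_dotProduct]; ring,
     fun x a => by simp only [Gen.ell, Pi.smul_apply, smul_dotProduct, smul_eq_mul]; ring⟩
  obtain ⟨θ, hθ⟩ := la1 (⊤ : Submodule K (V → Vec K))
    (fun (jk : {jk : V × V // jk.1 ∉ insert a ({v} : Finset V) ∧ jk.2 ∉ insert a ({v} : Finset V) ∧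
      (jk.2 ∈ c.N jk.1 ∨ jk.1 = jk.2)}) φ => c.ell φ jk.1.1 jk.1.2) (fun jk => hell _ _)
    (fun φ => c.ell φ w i - r w * c.ell φ w₀ i) (lin_sub (hell _ _) (hell _ _) _)
    (fun φ _ h0 => by
      obtain ⟨B, hB⟩ := c.exists_mat _ (c.card_er h.2.1 h.1).le φ
      have hu : (φ, fun _ => B) ∈ c.T2 {v} a :=
        ⟨fun j k hj hk hjk => h0 ⟨(j, k), hj, hk, hjk⟩, fun u b hb => hB b (by
          have h1 := Finset.mem_singleton.1 hb.1
          exact Finset.mem_erase.2 ⟨hb.2.2, h1 ▸ hb.2.1⟩)⟩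
      have e1 := c.ell_psi' (v := v) (w := w) (s := (φ, fun _ => B)) (hB i hi)
      have e2 := c.ell_psi' (v := v) (w := w₀) (s := (φ, fun _ => B)) (hB i hi)
      simp only at e1 e2
      rw [e1, e2, (h.2.2.2.2 w hw).2.2 _ hu, smul_dotProduct, smul_eq_mul, sub_self])
  let T : (V → K) → (V → K) → K := fun u κ => (u w * κ i + u i * κ w)
    - r w * (u w₀ * κ i + u i * κ w₀) - ∑ jk, θ jk * (u jk.1.1 * κ jk.1.2 + u jk.1.2 * κ jk.1.1)
  have F1 : ∀ (κ : V → K) (m : Vec K) (φ : V → Vec K), c.Flex (insert a {v}) φ →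
      c.lift κ m (r w) * c.ell φ w₀ i = T (fun j => φ j ⬝ᵥ m) κ := by
    intro κ m φ hφ
    have k1 := congrArg (c.lift κ m) (hθ φ trivial)
    have k2 := hθ (fun j => dv (c.lift κ m) (φ j)) trivial
    have k3 : ∀ jk : {jk : V × V // jk.1 ∉ insert a ({v} : Finset V) ∧
        jk.2 ∉ insert a ({v} : Finset V) ∧ (jk.2 ∈ c.N jk.1 ∨ jk.1 = jk.2)},
        c.ell φ jk.1.1 jk.1.2 = 0 := fun jk => hφ _ _ jk.2.1 jk.2.2.1 jk.2.2.2
    simp only [map_sub, map_sum, d_mul, c.d_ell, Gen.lift_p, dotProduct_smul, smul_eq_mul,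
      mul_add, Finset.sum_add_distrib] at k1
    simp only [k3, mul_zero, Finset.sum_const_zero, zero_add] at k1
    simp only [T, mul_add, Finset.sum_add_distrib]
    have k4 : ∑ jk, θ jk * (φ jk.1.1 ⬝ᵥ m * κ jk.1.2) = ∑ jk, θ jk * (κ jk.1.2 * φ jk.1.1 ⬝ᵥ m) :=
      Finset.sum_congr rfl fun _ _ => by ring
    have k5 : ∑ jk, θ jk * (φ jk.1.2 ⬝ᵥ m * κ jk.1.1) = ∑ jk, θ jk * (κ jk.1.1 * φ jk.1.2 ⬝ᵥ m) :=
      Finset.sum_congr rfl fun _ _ => by ring
    rw [k4, k5]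
    linear_combination k2 - k1
  have F2 : ∀ (u : V → K) (ξ : Vec K), T u (fun j => ξ ⬝ᵥ c.p j) = 0 := by
    intro u ξ
    have k1 := hθ (fun j => u j • ξ) trivial
    simp only [Gen.ell, smul_dotProduct, smul_eq_mul] at k1
    simp only [T]
    linear_combination k1
  have F3 : ∀ u κ, T u κ = T κ u := by
    intro u κ
    simp only [T]
    rw [Finset.sum_congr rfl (g := fun jk => θ jk * (κ jk.1.1 * u jk.1.2 + κ jk.1.2 * u jk.1.1))
      (fun _ _ => by ring)]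
    ring
  have F4 : ∀ u κ κ', T u (fun j => κ j + κ' j) = T u κ + T u κ' := by
    intro u κ κ'
    simp only [T, mul_add, Finset.sum_add_distrib]
    ring
  have G1 := F1 (fun j => c.psi v j s ⬝ᵥ ρ) m t.1 (c.AA_le (a := a) ht).1
  have G2 := F1 (fun j => t.1 j ⬝ᵥ m) ρ s.1 (c.AA_le (a := a) hs).1
  have G3 : (fun j => c.psi v j s ⬝ᵥ ρ)
      = fun j => s.1 j ⬝ᵥ ρ + (ρ ᵥ* s.2 v) ⬝ᵥ c.p j := by
    ext j; rw [psi_dot, bil_eq]
  rw [c.ell_psi' (ht.2 v i ⟨rfl, hi'⟩)] at G1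
  rw [c.ell_psi' (hs.2 v i ⟨rfl, hi'⟩)] at G2
  have G4 := F4 (fun j => t.1 j ⬝ᵥ m) (fun j => s.1 j ⬝ᵥ ρ) (fun j => (ρ ᵥ* s.2 v) ⬝ᵥ c.p j)
  have G5 := F2 (fun j => t.1 j ⬝ᵥ m) (ρ ᵥ* s.2 v)
  have G6 := F3 (fun j => t.1 j ⬝ᵥ m) (fun j => s.1 j ⬝ᵥ ρ)
  rw [sub_dotProduct, smul_dotProduct, smul_dotProduct, smul_eq_mul, smul_eq_mul, G1, G2, G3,
    sub_eq_zero]
  exact G4.trans (by linear_combination G5 + G6)

end Ctx

end Pool.Agent.Dress
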