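import Pool.Agent.Lib.MP_d237f6_co.Two

/-! A vertex of degree five has at most one neighbour of degree six: the dimension count. -/

set_option autoImplicit false

namespace Pool.Agent.Dress

open Matrix Module

variable {K : Type} [Field K] {V : Type} [DecidableEq V] [Fintype V]

omit [DecidableEq V] [Fintype V] in
/-- derivative of a universal relation -/
theorem rel_deriv (p : V → Vec K) (P : Finset V) (ρ r₁ r₂ : V → K) (τ₁ τ₂ : K) (y₁ y₂ : Vec K)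
    (R : ∀ S : Mat K, Sᵀ = S → ∀ ξ₁ ξ₂ : Vec K, ∑ z ∈ P, ρ z * (bil S (p z) (p z)
      - 2 * r₁ z * (ξ₁ ⬝ᵥ p z) - 2 * r₂ z * (ξ₂ ⬝ᵥ p z)) + τ₁ * (ξ₁ ⬝ᵥ y₁) + τ₂ * (ξ₂ ⬝ᵥ y₂) = 0)
    (δ : Der K) (h₁ : ∀ z ∈ P, δ (r₁ z) = 0) (h₂ : ∀ z ∈ P, δ (r₂ z) = 0)
    (S : Mat K) (hS : Sᵀ = S) (ξ₁ ξ₂ : Vec K)
    (h0 : ∀ z ∈ P, δ (ρ z) * (bil S (p z) (p z)
      - 2 * r₁ z * (ξ₁ ⬝ᵥ p z) - 2 * r₂ z * (ξ₂ ⬝ᵥ p z)) = 0)
    (k₁ : δ τ₁ * (ξ₁ ⬝ᵥ y₁) = 0) (k₂ : δ τ₂ * (ξ₂ ⬝ᵥ y₂) = 0) :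
    ∑ z ∈ P, ρ z * (2 * bil S (p z) (dv δ (p z)) - 2 * r₁ z * (ξ₁ ⬝ᵥ dv δ (p z))
      - 2 * r₂ z * (ξ₂ ⬝ᵥ dv δ (p z))) + τ₁ * (ξ₁ ⬝ᵥ dv δ y₁) + τ₂ * (ξ₂ ⬝ᵥ dv δ y₂) = 0 := by
  have e1 := congrArg δ (R S hS ξ₁ ξ₂)
  have e2 := R (dm δ S) (by rw [← dm_transpose, hS]) (dv δ ξ₁) (dv δ ξ₂)
  have e3 : δ 2 = 0 := by simpa using δ.map_natCast 2
  rw [map_add, map_add, map_sum, map_zero, Finset.sum_congr rfl
    (g := fun z => ρ z * (bil (dm δ S) (p z) (p z) - 2 * r₁ z * (dv δ ξ₁ ⬝ᵥ p z)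
      - 2 * r₂ z * (dv δ ξ₂ ⬝ᵥ p z)) + ρ z * (2 * bil S (p z) (dv δ (p z))
      - 2 * r₁ z * (ξ₁ ⬝ᵥ dv δ (p z)) - 2 * r₂ z * (ξ₂ ⬝ᵥ dv δ (p z)))) (fun z hz => by
      rw [d_mul, h0 z hz]
      simp only [map_sub, d_mul, d_bil, d_dot, h₁ z hz, h₂ z hz, e3, bil_symm hS (dv δ (p z))]
      ring), Finset.sum_add_distrib, d_mul, d_mul, d_dot, d_dot, k₁, k₂] at e1
  linear_combination e1 - e2

variable {c : Ctx V K} [CharZero K]

namespace Ctx

omit [Fintype V] in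
theorem three_pts (g : Gen V K) (T W : Finset V) (hT : T.card = 3) (hW : W.card = 6)
    (hd : Disjoint T W) (o : V → K) (i₀ : V) (hi₀ : i₀ ∈ T) (ho : o i₀ ≠ 0) (S : Mat K)
    (hS : Sᵀ = S) (h0 : ∀ u ∈ T ∪ W, bil S (g.p u) (g.p u) = 0)
    (h : ∀ m, ∑ i ∈ T, o i * bil S (g.p i) m = 0) : S = 0 := by
  obtain ⟨j, k, hjk, hT'⟩ := Finset.card_eq_two.1
    (by rw [Finset.card_erase_of_mem hi₀, hT] : (T.erase i₀).card = 2)
  have hj : j ∈ T.erase i₀ := by simp [hT']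
  have hk : k ∈ T.erase i₀ := by simp [hT']
  have hj' := Finset.mem_of_mem_erase hj
  have hk' := Finset.mem_of_mem_erase hk
  have hs : ∀ m, o i₀ * bil S (g.p i₀) m + (o j * bil S (g.p j) m + o k * bil S (g.p k) m) = 0 := by
    intro m
    have := h m
    rwa [← Finset.add_sum_erase _ _ hi₀, hT', Finset.sum_pair hjk] at this
  have z1 := h0 i₀ (by simp [hi₀])
  have z2 := h0 j (by simp [hj'])
  have z3 := h0 k (by simp [hk'])
  have e1 := hs (g.p i₀)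
  have e2 := hs (g.p j)
  have e3 := hs (g.p k)
  rw [z1, bil_symm hS (g.p j), bil_symm hS (g.p k)] at e1
  rw [z2, bil_symm hS (g.p k)] at e2
  rw [z3] at e3
  have hW' : ∀ u ∈ W, bil S (g.p u) (g.p u) = 0 := fun u hu => h0 u (by simp [hu])
  have n1 := Finset.disjoint_left.1 hd hi₀
  have n2 := Finset.disjoint_left.1 hd hj'
  have n3 := Finset.disjoint_left.1 hd hk'
  have a1 := (Finset.ne_of_mem_erase hj).symm
  have a2 := (Finset.ne_of_mem_erase hk).symm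
  by_cases hoj : o j = 0
  · refine g.q_pair W hW i₀ k j a2 a1 hjk.symm n1 n3 n2 S hS hW' z1 z3 z2 ?_
    apply mul_left_cancel₀ ho
    rw [hoj] at e3
    linear_combination e3
  · refine g.q_pair W hW i₀ j k a1 a2 hjk n1 n2 n3 S hS hW' z1 z2 z3 ?_
    apply mul_left_cancel₀ (mul_ne_zero ho hoj)
    linear_combination (o i₀ * e1 + o j * e2 - o k * e3) / 2

theorem two_six {v a₁ a₂ w₁ w₂ : V} {r₁ r₂ : V → K} (h₁ : c.SixS v a₁ w₁ r₁)
    (h₂ : c.SixS v a₂ w₂ r₂) (hne : a₁ ≠ a₂) : False := by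
  classical
  have hv := h₁.1
  have ha₁ := h₁.2.1
  have ha₂ := h₂.2.1
  set W₁ := (c.N a₁).erase v with hW₁
  set W₂ := (c.N a₂).erase v with hW₂
  have c₁ : W₁.card = 5 := c.card_er (c.nsymm ha₁) h₁.2.2.1
  have c₂ : W₂.card = 5 := c.card_er (c.nsymm ha₂) h₂.2.2.1
  have d₁ : Disjoint (c.N v) W₁ := c.disj ha₁
  have d₂ : Disjoint (c.N v) W₂ := c.disj ha₂
  have d₃ : Disjoint W₁ W₂ := by
    rw [Finset.disjoint_left]
    intro w k1 k2
    rcases c.no4 v a₁ w a₂ ha₁ (Finset.mem_of_mem_erase k1)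
      (c.nsymm (Finset.mem_of_mem_erase k2)) (c.nsymm ha₂) with h | h
    · exact Finset.ne_of_mem_erase k1 h.symm
    · exact hne h
  set P := c.N v ∪ (W₁ ∪ W₂) with hP
  have dP : Disjoint (c.N v) (W₁ ∪ W₂) := Finset.disjoint_union_right.2 ⟨d₁, d₂⟩
  have cP : P.card = 15 := by
    rw [hP, Finset.card_union_of_disjoint dP, Finset.card_union_of_disjoint d₃]; omega
  have sumP : ∀ f : V → K, ∑ z ∈ P, f z = ∑ z ∈ c.N v, f z + (∑ z ∈ W₁, f z + ∑ z ∈ W₂, f z) := by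
    intro f
    rw [hP, Finset.sum_union dP, Finset.sum_union d₃]
  set e₁ : V → K := fun z => if z ∈ W₁ then r₁ z else 0 with he₁
  set e₂ : V → K := fun z => if z ∈ W₂ then r₂ z else 0 with he₂
  have eA₁ : ∀ z ∈ c.N v, e₁ z = 0 := fun z hz => if_neg (Finset.disjoint_left.1 d₁ hz)
  have eA₂ : ∀ z ∈ c.N v, e₂ z = 0 := fun z hz => if_neg (Finset.disjoint_left.1 d₂ hz)
  have e11 : ∀ z ∈ W₁, e₁ z = r₁ z := fun z hz => if_pos hz
  have e22 : ∀ z ∈ W₂, e₂ z = r₂ z := fun z hz => if_pos hz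
  have e12 : ∀ z ∈ W₂, e₁ z = 0 := fun z hz => if_neg (Finset.disjoint_right.1 d₃ hz)
  have e21 : ∀ z ∈ W₁, e₂ z = 0 := fun z hz => if_neg (Finset.disjoint_left.1 d₃ hz)
  have hsym : ∀ B : Mat K, (B + Bᵀ)ᵀ = B + Bᵀ := fun B => by
    rw [transpose_add, transpose_transpose, add_comm]
  have hF : ∀ s ∈ c.AA v, ∀ z ∈ P, bil (s.2 v + (s.2 v)ᵀ) (c.p z) (c.p z)
      - 2 * e₁ z * (c.psi v w₁ s ⬝ᵥ c.p z) - 2 * e₂ z * (c.psi v w₂ s ⬝ᵥ c.p z) = 0 := by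
    intro s hs z hz
    rw [← sb_eq, sb]
    rcases Finset.mem_union.1 hz with hz | hz
    · rw [eA₁ z hz, eA₂ z hz, c.AA_q hs hz]; ring
    rcases Finset.mem_union.1 hz with hz | hz
    · rw [e11 z hz, e21 z hz, ← c.psi_self hs.1 (by simpa using Finset.ne_of_mem_erase hz),
        (h₁.2.2.2.2 z hz).2.2 s (c.AA_le hs), smul_dotProduct, smul_eq_mul]
      ring
    · rw [e12 z hz, e22 z hz, ← c.psi_self hs.1 (by simpa using Finset.ne_of_mem_erase hz),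
        (h₂.2.2.2.2 z hz).2.2 s (c.AA_le hs), smul_dotProduct, smul_eq_mul]
      ring
  obtain ⟨s, hs1, hs2⟩ := c.exists_s0
  obtain ⟨hB, hq0⟩ := hs2 v hv
  have hs := c.s0_AA hs1 hB
  obtain ⟨t, ht, hq1⟩ := c.exists_s1 hv
  obtain ⟨lam, hlam0, hlam⟩ := dep2 (K := K) (X := Sym K × Vec K × Vec K) (ι := Fin 2)
    (κ := P ⊕ Fin 2)
    ![(⟨_, hsym (s.2 v)⟩, c.psi v w₁ s, c.psi v w₂ s),
      (⟨_, hsym (t.2 v)⟩, c.psi v w₁ t, c.psi v w₂ t)]
    (by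
      rw [LinearIndependent.pair_iff]
      intro x z hxz
      have k1 := congrArg (fun u => u.2.1) hxz
      simp only [Prod.snd_add, Prod.fst_add, Prod.smul_snd, Prod.smul_fst, Prod.snd_zero,
        Prod.fst_zero] at k1
      have hz : z = 0 := h₁.comb hs ht hq0 hq1 z (-x) (by
        rw [neg_smul]; exact eq_neg_of_add_eq_zero_right k1)
      refine ⟨?_, hz⟩
      rw [hz, zero_smul, add_zero, smul_eq_zero] at k1
      exact k1.resolve_right fun h0 => c.s0_nz hv hB (h₁.zero hs h0))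
    (Sum.elim (fun z x => bil x.1.1 (c.p z) (c.p z) - 2 * e₁ z * (x.2.1 ⬝ᵥ c.p z)
        - 2 * e₂ z * (x.2.2 ⬝ᵥ c.p z))
      ![fun x => x.2.1 ⬝ᵥ c.p a₁, fun x => x.2.2 ⬝ᵥ c.p a₂])
    (by
      rintro (z | j)
      · exact ⟨fun a b => by simp [bil_add]; ring, fun r a => by simp [bil_smul]; ring⟩
      · fin_cases j <;> exact ⟨fun a b => by simp, fun r a => by simp⟩)
    (by
      rintro (z | j) i
      · fin_cases i
        · exact hF s hs z z.2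
        · exact hF t ht z z.2
      · fin_cases j <;> fin_cases i
        · exact h₁.psi_y hs
        · exact h₁.psi_y ht
        · exact h₂.psi_y hs
        · exact h₂.psi_y ht)
    (by
      have := finrank_Sym (K := K)
      simp only [finrank_prod, finrank_fintype_fun_eq_card, Fintype.card_fin, Fintype.card_sum,
        Fintype.card_coe, cP]
      omega)
  set ρ : V → K := fun z => if h : z ∈ P then lam (Sum.inl ⟨z, h⟩) else 0 with hρ
  set τ₁ := lam (Sum.inr 0) with hτ₁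
  set τ₂ := lam (Sum.inr 1) with hτ₂
  have R : ∀ S : Mat K, Sᵀ = S → ∀ ξ₁ ξ₂ : Vec K, ∑ z ∈ P, ρ z * (bil S (c.p z) (c.p z)
      - 2 * e₁ z * (ξ₁ ⬝ᵥ c.p z) - 2 * e₂ z * (ξ₂ ⬝ᵥ c.p z)) + τ₁ * (ξ₁ ⬝ᵥ c.p a₁)
      + τ₂ * (ξ₂ ⬝ᵥ c.p a₂) = 0 := by
    intro S hS ξ₁ ξ₂
    have := hlam (⟨S, hS⟩, ξ₁, ξ₂)
    rw [Fintype.sum_sum_type, Fin.sum_univ_two] at this
    rw [← this, ← Finset.sum_coe_sort P, add_assoc]
    congr 1
    exact Finset.sum_congr rfl fun z _ => by simp [hρ]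
  have hnt : ¬ ((∀ z ∈ P, ρ z = 0) ∧ τ₁ = 0 ∧ τ₂ = 0) := by
    rintro ⟨k1, k2, k3⟩
    apply hlam0
    ext (z | j)
    · simpa [hρ] using k1 z z.2
    · fin_cases j
      · exact k2
      · exact k3
  have hde : ∀ δ : Der K, (∀ z ∈ W₁, δ (r₁ z) = 0) → ∀ z ∈ P, δ (e₁ z) = 0 := by
    intro δ h z _
    by_cases hz : z ∈ W₁
    · rw [e11 z hz, h z hz]
    · simp [he₁, hz]
  have hde' : ∀ δ : Der K, (∀ z ∈ W₂, δ (r₂ z) = 0) → ∀ z ∈ P, δ (e₂ z) = 0 := by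
    intro δ h z _
    by_cases hz : z ∈ W₂
    · rw [e22 z hz, h z hz]
    · simp [he₂, hz]
  have ha₁P : a₁ ∈ P := Finset.mem_union_left _ ha₁
  have ha₂P : a₂ ∈ P := Finset.mem_union_left _ ha₂
  have lin : ∀ (f : Vec K → K), IsLinearMap K f → (∀ k, f (Pi.single k 1) = 0) → ∀ m, f m = 0 := by
    intro f hf h m
    have e : m = ∑ k, m k • Pi.single k (1 : K) := by
      ext j; simp [Finset.sum_apply, Pi.single_apply]
    rw [e]
    have := map_sum (hf.mk' f) (fun k => m k • Pi.single k (1 : K)) Finset.univ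
    simp only [IsLinearMap.mk'_apply, hf.map_smul, h, smul_zero, Finset.sum_const_zero] at this
    exact this
  have linN : ∀ (x z : K) (B : Mat K) (y f : Vec K),
      IsLinearMap K (fun m => x * sb B y m + z * (f ⬝ᵥ m)) := fun x z B y f =>
    ⟨fun a b => by simp only [sb_vec, dotProduct_add]; ring,
     fun r a => by simp only [sb_vec, dotProduct_smul, smul_eq_mul]; ring⟩
  obtain ⟨z₁, t₁⟩ : 2 * ρ a₁ = 0 ∧ τ₁ = 0 := by
    refine h₁.lemN _ _ fun u hu => lin _ (linN _ _ _ _ _) fun k => ?_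
    have := rel_deriv c.p P ρ e₁ e₂ τ₁ τ₂ _ _ R (c.d a₁ k)
      (hde _ fun z hz => (h₁.2.2.2.2 z hz).2.1 k) (hde' _ fun z hz => h₁.cross h₂ z hz k)
      _ (hsym (u.2 v)) (c.psi v w₁ u) (c.psi v w₂ u) (fun z hz => by rw [hF u hu z hz, mul_zero])
      (by rw [h₁.psi_y hu, mul_zero]) (by rw [h₂.psi_y hu, mul_zero])
    rw [Finset.sum_eq_single_of_mem a₁ ha₁P (fun z _ hz => by
      rw [c.d_ne hz, bil_zero_right, dotProduct_zero, dotProduct_zero]; ring),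
      c.d_self, c.d_ne hne.symm, eA₁ a₁ ha₁, eA₂ a₁ ha₁, ← sb_eq, dotProduct_zero] at this
    linear_combination this
  obtain ⟨z₂, t₂⟩ : 2 * ρ a₂ = 0 ∧ τ₂ = 0 := by
    refine h₂.lemN _ _ fun u hu => lin _ (linN _ _ _ _ _) fun k => ?_
    have := rel_deriv c.p P ρ e₁ e₂ τ₁ τ₂ _ _ R (c.d a₂ k)
      (hde _ fun z hz => h₂.cross h₁ z hz k) (hde' _ fun z hz => (h₂.2.2.2.2 z hz).2.1 k)
      _ (hsym (u.2 v)) (c.psi v w₁ u) (c.psi v w₂ u) (fun z hz => by rw [hF u hu z hz, mul_zero])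
      (by rw [h₁.psi_y hu, mul_zero]) (by rw [h₂.psi_y hu, mul_zero])
    rw [Finset.sum_eq_single_of_mem a₂ ha₂P (fun z _ hz => by
      rw [c.d_ne hz, bil_zero_right, dotProduct_zero, dotProduct_zero]; ring),
      c.d_self, c.d_ne hne, eA₁ a₂ ha₂, eA₂ a₂ ha₂, ← sb_eq, dotProduct_zero] at this
    linear_combination this
  have z₁' : ρ a₁ = 0 := by linear_combination z₁ / 2
  have z₂' : ρ a₂ = 0 := by linear_combination z₂ / 2
  set T := ((c.N v).erase a₁).erase a₂ with hT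
  have ha₂' : a₂ ∈ (c.N v).erase a₁ := Finset.mem_erase.2 ⟨hne.symm, ha₂⟩
  have cT : T.card = 3 := by
    rw [hT, Finset.card_erase_of_mem ha₂', c.card_er ha₁ hv]
  have hTs : T ⊆ c.N v := (Finset.erase_subset _ _).trans (Finset.erase_subset _ _)
  have hAT : ∀ z ∈ c.N v, z ∉ T → ρ z = 0 := by
    intro z hz hzT
    by_cases k1 : z = a₁
    · rw [k1, z₁']
    by_cases k2 : z = a₂
    · rw [k2, z₂']
    exact absurd (Finset.mem_erase.2 ⟨k2, Finset.mem_erase.2 ⟨k1, hz⟩⟩) hzT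
  have sumT : ∀ f : V → K, ∑ z ∈ c.N v, ρ z * f z = ∑ z ∈ T, ρ z * f z := fun f =>
    (Finset.sum_subset hTs fun z hz hzT => by rw [hAT z hz hzT, zero_mul]).symm
  have RQ : ∀ S : Mat K, Sᵀ = S → ∑ z ∈ T, ρ z * bil S (c.p z) (c.p z)
      + (∑ z ∈ W₁, ρ z * bil S (c.p z) (c.p z) + ∑ z ∈ W₂, ρ z * bil S (c.p z) (c.p z)) = 0 := by
    intro S hS
    have := R S hS 0 0
    simp only [zero_dotProduct, mul_zero, sub_zero, add_zero] at this
    rwa [sumP, sumT] at this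
  have R1 : ∑ z ∈ W₁, (ρ z * r₁ z) • c.p z = 0 := by
    apply vec_eq_zero
    intro ξ
    have := R 0 (by simp) ξ 0
    rw [sumP, Finset.sum_eq_zero (s := c.N v) (fun z hz => by simp [eA₁ z hz, bil_zero]),
      Finset.sum_eq_zero (s := W₂) (fun z hz => by simp [e12 z hz, bil_zero]), t₁,
      Finset.sum_congr rfl (g := fun z => -2 * (ρ z * r₁ z * (c.p z ⬝ᵥ ξ))) (fun z hz => by
        rw [e11 z hz, bil_zero, dotProduct_comm ξ, zero_dotProduct]; ring),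
      ← Finset.mul_sum, zero_dotProduct] at this
    simp only [sum_dotProduct, smul_dotProduct, smul_eq_mul]
    linear_combination -this / 2
  have R2 : ∑ z ∈ W₂, (ρ z * r₂ z) • c.p z = 0 := by
    apply vec_eq_zero
    intro ξ
    have := R 0 (by simp) 0 ξ
    rw [sumP, Finset.sum_eq_zero (s := c.N v) (fun z hz => by simp [eA₂ z hz, bil_zero]),
      Finset.sum_eq_zero (s := W₁) (fun z hz => by simp [e21 z hz, bil_zero]), t₂,
      Finset.sum_congr rfl (g := fun z => -2 * (ρ z * r₂ z * (c.p z ⬝ᵥ ξ))) (fun z hz => by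
        rw [e22 z hz, bil_zero, dotProduct_comm ξ, zero_dotProduct]; ring),
      ← Finset.mul_sum, zero_dotProduct] at this
    simp only [sum_dotProduct, smul_dotProduct, smul_eq_mul]
    linear_combination -this / 2
  have dT₁ : Disjoint T W₁ := d₁.mono_left hTs
  have allz : (∀ z ∈ T, ρ z = 0) → (∀ z ∈ W₁, ρ z = 0) → (∀ z ∈ W₂, ρ z = 0) → False := by
    intro k1 k2 k3
    refine hnt ⟨fun z hz => ?_, t₁, t₂⟩
    rcases Finset.mem_union.1 hz with hz | hz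
    · by_cases hzT : z ∈ T
      · exact k1 z hzT
      · exact hAT z hz hzT
    · exact (Finset.mem_union.1 hz).elim (k2 z) (k3 z)
  obtain ⟨i₀, hi₀, hρi⟩ : ∃ i ∈ T, ρ i ≠ 0 := by
    by_contra hc
    push Not at hc
    have := c.q10' (W₁ ∪ W₂) (by rw [Finset.card_union_of_disjoint d₃]; omega) ρ (fun S hS => by
      have := RQ S hS
      rwa [Finset.sum_eq_zero (fun z hz => by rw [hc z hz, zero_mul]), zero_add,
        ← Finset.sum_union d₃] at this)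
    exact allz hc (fun z hz => this z (by simp [hz])) (fun z hz => this z (by simp [hz]))
  obtain ⟨j₀, hj₀, hρj⟩ : ∃ i ∈ W₂, ρ i ≠ 0 := by
    by_contra hc
    push Not at hc
    have := c.q10' (T ∪ W₁) (by rw [Finset.card_union_of_disjoint dT₁]; omega) ρ (fun S hS => by
      have := RQ S hS
      rwa [Finset.sum_eq_zero (s := W₂) (fun z hz => by rw [hc z hz, zero_mul]), add_zero,
        ← Finset.sum_union dT₁] at this)
    exact allz (fun z hz => this z (by simp [hz])) (fun z hz => this z (by simp [hz])) hc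
  have hvW : v ∉ W₁ := by simp [hW₁]
  have dT₂ : Disjoint T (insert v W₁) :=
    Finset.disjoint_insert_right.2 ⟨fun h => c.nirr v (hTs h), dT₁⟩
  obtain ⟨S, hS, hS0, hSz⟩ := exists_quadric (T ∪ insert v W₁) (by
    rw [Finset.card_union_of_disjoint dT₂, Finset.card_insert_of_notMem hvW]; omega) c.p
  have zT : ∀ z ∈ T, bil S (c.p z) (c.p z) = 0 := fun z hz => hSz z (by simp [hz])
  have zW : ∀ z ∈ W₁, bil S (c.p z) (c.p z) = 0 := fun z hz => hSz z (by simp [hz])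
  obtain ⟨ξ, hξ⟩ := c.ext5 W₂ c₂.le (fun z => ρ z * r₂ z)
    (fun z => bil S (c.p z) (c.p z) / (2 * r₂ z)) R2 j₀ hj₀
    (mul_ne_zero hρj (h₂.2.2.2.2 j₀ hj₀).1) (by
      have := RQ S hS
      rw [Finset.sum_eq_zero (fun z hz => by rw [zT z hz, mul_zero]),
        Finset.sum_eq_zero (s := W₁) (fun z hz => by rw [zW z hz, mul_zero]), zero_add,
        zero_add] at this
      rw [Finset.sum_congr rfl (g := fun z => ρ z * bil S (c.p z) (c.p z) / 2) (fun z hz => by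
        have := (h₂.2.2.2.2 z hz).1
        field_simp), ← Finset.sum_div, this, zero_div])
  apply hS0
  refine three_pts c.toGen T (insert v W₁) cT (by rw [Finset.card_insert_of_notMem hvW, c₁]) dT₂
    (fun z => ρ z * (c.psi v z s ⬝ᵥ c.p a₂)) i₀ hi₀ (mul_ne_zero hρi ?_) S hS hSz fun m => ?_
  · rw [← c.ell_psi' (hs.2 v a₂ ⟨rfl, ha₂⟩), hs1]
    exact c.un2 v i₀ a₂ (hTs hi₀) ha₂ (Finset.ne_of_mem_erase hi₀)
  have := rel_deriv c.p P ρ e₁ e₂ τ₁ τ₂ _ _ R (c.lift (fun j => c.psi v j s ⬝ᵥ c.p a₂) m)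
    (hde _ fun z hz => h₁.var hs hq0 _ _ z hz) (hde' _ fun z hz => h₂.var hs hq0 _ _ z hz)
    S hS 0 ξ (fun z hz => by
      rcases Finset.mem_union.1 hz with hz | hz
      · by_cases hzT : z ∈ T
        · rw [zT z hzT, eA₁ z hz, eA₂ z hz]; ring
        · rw [hAT z hz hzT, map_zero, zero_mul]
      rcases Finset.mem_union.1 hz with hz | hz
      · rw [zW z hz, e21 z hz, zero_dotProduct]; ring
      · have := (h₂.2.2.2.2 z hz).1
        rw [hξ z hz, e22 z hz, zero_dotProduct]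
        field_simp
        ring) (by rw [zero_dotProduct, mul_zero]) (by rw [t₂, map_zero, zero_mul])
  simp only [Gen.lift_p, zero_dotProduct, mul_zero, sub_zero, add_zero, t₂, zero_mul,
    bil_smul_right, dotProduct_smul, smul_eq_mul] at this
  rw [sumP, sumT, Finset.sum_eq_zero (s := W₂) (fun z hz => by
      rw [(h₂.2.2.2.2 z hz).2.2 s (c.AA_le hs), smul_dotProduct, h₂.psi_y hs]; simp),
    Finset.sum_congr rfl (s₂ := W₁) (g := fun z => 2 * (c.psi v w₁ s ⬝ᵥ c.p a₂)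
      * (ρ z * r₁ z * bil S (c.p z) m)) (fun z hz => by
      rw [(h₁.2.2.2.2 z hz).2.2 s (c.AA_le hs), smul_dotProduct, e21 z hz, smul_eq_mul]; ring),
    ← Finset.mul_sum, ← bil_sum_left, R1, bil_zero_left,
    Finset.sum_congr rfl (s₂ := T) (g := fun z => 2 * (ρ z * (c.psi v z s ⬝ᵥ c.p a₂)
      * bil S (c.p z) m)) (fun z hz => by rw [eA₂ z (hTs hz)]; ring), ← Finset.mul_sum] at this
  linear_combination this / 2

theorem one_six {v a₁ a₂ : V} (hv : (c.N v).card = 5) (h₁ : a₁ ∈ c.N v) (h₂ : a₂ ∈ c.N v)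
    (d₁ : (c.N a₁).card = 6) (d₂ : (c.N a₂).card = 6) : a₁ = a₂ := by
  by_contra hne
  obtain ⟨w₁, k₁, r₁, l₁⟩ := c.six hv h₁ d₁
  obtain ⟨w₂, k₂, r₂, l₂⟩ := c.six hv h₂ d₂
  exact two_six (c := c) ⟨hv, h₁, d₁, k₁, l₁⟩ ⟨hv, h₂, d₂, k₂, l₂⟩ hne

end Ctx

end Pool.Agent.Dress
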